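import Pool.Agent.Helper61.HC.Torus

section
/-!
Tensor products of one-dimensional kernel operators.
-/

open Finset

set_option linter.unusedSectionVars false

namespace HD

variable {ι X : Type} [Fintype ι] [DecidableEq ι] [Fintype X] [DecidableEq X]

section gen
variable {𝕜 : Type} [CommRing 𝕜] {F : Type} [AddCommGroup F] [Module 𝕜 F]

/-- the operator with kernel `∏ p m (x m) (y m)` -/
def TT (p : ι → X → X → 𝕜) (g : (ι → X) → F) (x : ι → X) : F :=
  ∑ y, (∏ m, p m (x m) (y m)) • g y

/-- composition of kernels -/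
def kc (p p' : X → X → 𝕜) (x z : X) : 𝕜 := ∑ y, p x y * p' y z

/-- the identity kernel -/
def dl (x y : X) : 𝕜 := if y = x then 1 else 0

lemma TT_add (p : ι → X → X → 𝕜) (g h : (ι → X) → F) (x : ι → X) :
    TT p (fun y => g y + h y) x = TT p g x + TT p h x := by
  simp only [TT, smul_add, sum_add_distrib]

lemma TT_sub (p : ι → X → X → 𝕜) (g h : (ι → X) → F) (x : ι → X) :
    TT p (fun y => g y - h y) x = TT p g x - TT p h x := by
  simp only [TT, smul_sub, sum_sub_distrib]

lemma TT_neg (p : ι → X → X → 𝕜) (g : (ι → X) → F) (x : ι → X) :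
    TT p (fun y => - g y) x = - TT p g x := by
  simp only [TT, smul_neg, sum_neg_distrib]

lemma TT_sum {κ : Type*} (p : ι → X → X → 𝕜) (S : Finset κ) (g : κ → (ι → X) → F) (x : ι → X) :
    TT p (fun y => ∑ k ∈ S, g k y) x = ∑ k ∈ S, TT p (g k) x := by
  simp only [TT, smul_sum]
  rw [sum_comm]

lemma TT_smul (p : ι → X → X → 𝕜) (c : 𝕜) (g : (ι → X) → F) (x : ι → X) :
    TT p (fun y => c • g y) x = c • TT p g x := by
  simp only [TT, smul_sum, smul_smul]
  exact sum_congr rfl fun y _ => by rw [mul_comm]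

lemma TT_mul (p : ι → X → X → 𝕜) (c : 𝕜) (g : (ι → X) → 𝕜) (x : ι → X) :
    TT p (fun y => c * g y) x = c * TT p g x := TT_smul p c g x

lemma TT_zero (p : ι → X → X → 𝕜) (x : ι → X) :
    TT p (fun _ => (0 : F)) x = 0 := by
  simp [TT]

/-- composition -/
lemma TT_comp (p p' : ι → X → X → 𝕜) (g : (ι → X) → F) (x : ι → X) :
    TT p (TT p' g) x = TT (fun m => kc (p m) (p' m)) g x := by
  simp only [TT, smul_sum, smul_smul]
  rw [sum_comm]
  refine sum_congr rfl fun z _ => ?_
  rw [← sum_smul]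
  congr 1
  simp only [← prod_mul_distrib, kc]
  rw [Finset.prod_univ_sum, Fintype.piFinset_univ]

lemma kc_dl_left (p : X → X → 𝕜) : kc dl p = p := by
  ext x z
  simp [kc, dl]

lemma kc_dl_right (p : X → X → 𝕜) : kc p dl = p := by
  ext x z
  simp [kc, dl]

lemma TT_dl (g : (ι → X) → F) (x : ι → X) : TT (fun _ => (dl : X → X → 𝕜)) g x = g x := by
  unfold TT
  rw [Finset.sum_eq_single x]
  · simp [dl]
  · intro y _ hy
    have : ∃ m, y m ≠ x m := by
      by_contra h
      push Not at h
      exact hy (funext h)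
    obtain ⟨m, hm⟩ := this
    rw [prod_eq_zero (mem_univ m), zero_smul]
    simp [dl, hm]
  · intro h
    exact absurd (mem_univ x) h

/-- product functions -/
lemma TT_prod (p : ι → X → X → 𝕜) (u : ι → X → 𝕜) (x : ι → X) :
    TT p (fun y => ∏ m, u m (y m)) x = ∏ m, ∑ t, p m (x m) t * u m t := by
  simp only [TT, smul_eq_mul, ← prod_mul_distrib]
  rw [Finset.prod_univ_sum, Fintype.piFinset_univ]

/-- one coordinate operator -/
lemma TT_single (m : ι) (k : X → X → 𝕜) (g : (ι → X) → F) (x : ι → X) :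
    TT (Function.update (fun _ => dl) m k) g x = ∑ t, k (x m) t • g (Function.update x m t) := by
  classical
  unfold TT
  have e : ∀ y : ι → X, ∏ m', (Function.update (fun _ => (dl : X → X → 𝕜)) m k) m' (x m') (y m')
      = if (∀ m', m' ≠ m → y m' = x m') then k (x m) (y m) else 0 := by
    intro y
    split_ifs with h
    · rw [Finset.prod_eq_single m]
      · simp
      · intro m' _ hm'
        rw [Function.update_of_ne hm']
        simp [dl, h m' hm']
      · intro h'; exact absurd (mem_univ m) h'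
    · push Not at h
      obtain ⟨m', hm', hne⟩ := h
      apply prod_eq_zero (mem_univ m')
      rw [Function.update_of_ne hm']
      simp [dl, hne]
  simp only [e, ite_smul, zero_smul]
  rw [← sum_filter]
  symm
  refine sum_bij (fun t _ => Function.update x m t) ?_ ?_ ?_ ?_
  · intro t _
    simp only [mem_filter, mem_univ, true_and]
    intro m' hm'
    rw [Function.update_of_ne hm']
  · intro t _ t' _ h
    have := congrFun h m
    simpa using this
  · intro y hy
    simp only [mem_filter, mem_univ, true_and] at hy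
    refine ⟨y m, mem_univ _, ?_⟩
    ext m'
    by_cases h : m' = m
    · rw [h, Function.update_self]
    · rw [Function.update_of_ne h, hy m' h]
  · intro t _
    rw [Function.update_self]

/-- separating one coordinate -/
lemma TT_split (p : ι → X → X → 𝕜) (m : ι) (g : (ι → X) → F) (x : ι → X) :
    TT p g x = TT (Function.update (fun _ => dl) m (p m)) (TT (Function.update p m dl) g) x := by
  rw [TT_comp]
  congr 1
  ext m'
  by_cases h : m' = m
  · subst h
    rw [Function.update_self, Function.update_self, kc_dl_right]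
  · rw [Function.update_of_ne h, Function.update_of_ne h, kc_dl_left]

lemma TT_split' (p : ι → X → X → 𝕜) (m : ι) (g : (ι → X) → F) (x : ι → X) :
    TT p g x = TT (Function.update p m dl) (TT (Function.update (fun _ => dl) m (p m)) g) x := by
  rw [TT_comp]
  congr 1
  ext m'
  by_cases h : m' = m
  · subst h
    rw [Function.update_self, Function.update_self, kc_dl_left]
  · rw [Function.update_of_ne h, Function.update_of_ne h, kc_dl_right]

end gen

/-- slicing of sums -/
lemma sum_slice (m : ι) (Ψ : (ι → X) → ℝ) :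
    (Fintype.card X : ℝ) * ∑ x, Ψ x = ∑ x, ∑ t, Ψ (Function.update x m t) := by
  rw [sum_comm]
  -- replace x by its m-coordinate freely
  have key : ∀ t, ∑ x, Ψ (Function.update x m t)
      = (Fintype.card X : ℝ) * ∑ x ∈ univ.filter (fun x : ι → X => x m = t), Ψ x := by
    intro t
    have : ∑ x, Ψ (Function.update x m t)
        = ∑ y ∈ univ.filter (fun x : ι → X => x m = t),
          ∑ x ∈ univ.filter (fun x : ι → X => Function.update x m t = y),
            Ψ (Function.update x m t) := by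
      rw [Finset.sum_fiberwise_of_maps_to]
      intro x _
      simp
    rw [this, mul_sum]
    refine sum_congr rfl fun y hy => ?_
    simp only [mem_filter, mem_univ, true_and] at hy
    have e : ∑ x ∈ univ.filter (fun x : ι → X => Function.update x m t = y),
            Ψ (Function.update x m t)
        = ∑ x ∈ univ.filter (fun x : ι → X => Function.update x m t = y), Ψ y :=
      sum_congr rfl fun x hx => by
        simp only [mem_filter, mem_univ, true_and] at hx
        rw [hx]
    rw [e, sum_const, nsmul_eq_mul]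
    congr 1
    have hc : univ.filter (fun x : ι → X => Function.update x m t = y)
        = univ.image (fun s => Function.update y m s) := by
      ext x
      simp only [mem_filter, mem_univ, true_and, mem_image]
      constructor
      · intro h
        refine ⟨x m, ?_⟩
        ext m'
        by_cases h' : m' = m
        · rw [h', Function.update_self]
        · rw [Function.update_of_ne h', ← h, Function.update_of_ne h']
      · rintro ⟨s, rfl⟩
        rw [Function.update_idem, ← hy, Function.update_eq_self]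
    rw [hc, card_image_of_injective, card_univ]
    intro s s' h
    have := congrFun h m
    simpa using this
  rw [sum_congr rfl fun t _ => key t, ← mul_sum]
  congr 1
  rw [Finset.sum_fiberwise]

/-- a one-dimensional inequality integrated over the other coordinates -/
lemma slice_le (m : ι) {Φ Ψ : (ι → X) → ℝ}
    (h : ∀ x, ∑ t, Φ (Function.update x m t) ≤ ∑ t, Ψ (Function.update x m t)) :
    ∑ x, Φ x ≤ ∑ x, Ψ x := by
  rcases isEmpty_or_nonempty X with hX | hX
  · have : IsEmpty (ι → X) := by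
      refine ⟨fun x => hX.false (x m)⟩
    simp
  · have h1 := sum_slice m Φ
    have h2 := sum_slice m Ψ
    have h3 := sum_le_sum fun x (_ : x ∈ (univ : Finset (ι → X))) => h x
    rw [← h1, ← h2] at h3
    have hc : (0:ℝ) < Fintype.card X := by exact_mod_cast Fintype.card_pos
    exact le_of_mul_le_mul_left h3 hc

section real

lemma TT_nonneg {p : ι → X → X → ℝ} (hp : ∀ m x y, 0 ≤ p m x y) {g : (ι → X) → ℝ}
    (hg : ∀ y, 0 ≤ g y) (x : ι → X) : 0 ≤ TT p g x := by
  unfold TT
  refine sum_nonneg fun y _ => ?_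
  rw [smul_eq_mul]
  exact mul_nonneg (prod_nonneg fun m _ => hp _ _ _) (hg y)

lemma TT_mono {p : ι → X → X → ℝ} (hp : ∀ m x y, 0 ≤ p m x y) {g h : (ι → X) → ℝ}
    (hg : ∀ y, g y ≤ h y) (x : ι → X) : TT p g x ≤ TT p h x := by
  unfold TT
  refine sum_le_sum fun y _ => ?_
  rw [smul_eq_mul, smul_eq_mul]
  exact mul_le_mul_of_nonneg_left (hg y) (prod_nonneg fun m _ => hp _ _ _)

/-- comparison of kernels -/
lemma TT_kmono {p p' : ι → X → X → ℝ} (hp : ∀ m x y, 0 ≤ p m x y) (c : ι → ℝ)
    (h : ∀ m x y, p m x y ≤ c m * p' m x y) {g : (ι → X) → ℝ}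
    (hg : ∀ y, 0 ≤ g y) (x : ι → X) : TT p g x ≤ (∏ m, c m) * TT p' g x := by
  unfold TT
  rw [mul_sum]
  refine sum_le_sum fun y _ => ?_
  rw [smul_eq_mul, smul_eq_mul, ← mul_assoc, ← prod_mul_distrib]
  exact mul_le_mul_of_nonneg_right (prod_le_prod (fun m _ => hp _ _ _) fun m _ => h _ _ _) (hg y)

lemma norm_TT_le {𝕜 : Type} [RCLike 𝕜] (p : ι → X → X → 𝕜) (u : (ι → X) → 𝕜) (x : ι → X) :
    ‖TT p u x‖ ≤ TT (fun m x y => ‖p m x y‖) (fun y => ‖u y‖) x := by
  unfold TT
  refine (norm_sum_le _ _).trans (le_of_eq (sum_congr rfl fun y _ => ?_))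
  rw [norm_smul, norm_prod, smul_eq_mul]

end real

end HD

end

section
/-!
Box averages on a product of dyadic filtrations.
-/

open Finset

set_option linter.unusedSectionVars false

namespace HD

section oned
variable {X : Type} [Fintype X] [DecidableEq X]

/-- averaging kernel -/
noncomputable def ek (D : HC.Dy X) (j : ℕ) (x y : X) : ℝ :=
  if D.c j y = D.c j x then (D.n j : ℝ)⁻¹ else 0

variable {D : HC.Dy X}

lemma ek_nonneg (j : ℕ) (x y : X) : 0 ≤ ek D j x y := by
  unfold ek; split_ifs <;> positivity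

lemma ek_symm (j : ℕ) (x y : X) : ek D j x y = ek D j y x := by
  unfold ek; simp only [eq_comm]

lemma E_eq {F : Type} [AddCommGroup F] [Module ℝ F] (j : ℕ) (g : X → F) (x : X) :
    D.E j g x = ∑ t, ek D j x t • g t := by
  unfold HC.Dy.E ek
  rw [smul_sum, sum_filter]
  refine sum_congr rfl fun y _ => ?_
  split_ifs <;> simp

lemma sum_ek (j : ℕ) (x : X) : ∑ y, ek D j x y = 1 := by
  have h := HC.Dy.E_const (D := D) j (1:ℝ) x
  rw [E_eq] at h
  simpa using h

lemma sum_ek' (j : ℕ) (y : X) : ∑ x, ek D j x y = 1 := by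
  simp only [ek_symm j _ y]
  exact sum_ek j y

lemma kc_ek (i j : ℕ) : kc (ek D i) (ek D j) = ek D (min i j) := by
  ext x z
  -- the function `ek j · z`
  have h0 : kc (ek D i) (ek D j) x z = D.E i (fun y => ek D j y z) x := by
    rw [E_eq]; rfl
  rw [h0]
  have h1 : (fun y => ek D j y z) = D.E j (fun y => if y = z then (1:ℝ) else 0) := by
    ext y
    rw [E_eq]
    simp
  have h2 : ∀ k, D.E k (fun y => if y = z then (1:ℝ) else 0) x = ek D k x z := by
    intro k
    rw [E_eq]; simp
  rw [h1]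
  rcases le_total i j with h | h
  · rw [HC.Dy.E_E_coarse h, min_eq_left h, h2]
  · rw [HC.Dy.E_E_fine h, min_eq_right h, h2]

end oned

/-- dyadic filtration with a top level and sign functions -/
structure HDy (X : Type) [Fintype X] [DecidableEq X] extends HC.Dy X where
  L : ℕ
  top : ∀ x y, c L x = c L y → x = y
  h : ℕ → X → ℝ
  hsq : ∀ j x, h j x * h j x = 1
  hk : ∀ j < L, ∀ x y, ek toDy (j+1) x y - ek toDy j x y = h j x * ek toDy j x y * h j y

section HDyOne
variable {X : Type} [Fintype X] [DecidableEq X] {D : HDy X}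

lemma n_top (x : X) : D.n D.L = 1 := by
  rw [← D.card D.L x]
  rw [card_eq_one]
  refine ⟨x, ?_⟩
  ext y
  simp only [mem_filter, mem_univ, true_and, mem_singleton]
  exact ⟨fun h => D.top y x h, fun h => by rw [h]⟩

lemma ek_top : ek D.toDy D.L = (dl : X → X → ℝ) := by
  ext x y
  unfold ek dl
  rw [n_top (D := D) x]
  by_cases h : y = x
  · simp [h]
  · rw [if_neg (fun hh => h (D.top _ _ hh)), if_neg h]

lemma h_abs (j : ℕ) (x : X) : |D.h j x| = 1 := by
  have := D.hsq j x
  have h2 : |D.h j x| * |D.h j x| = 1 := by rw [← abs_mul, this, abs_one]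
  nlinarith [abs_nonneg (D.h j x)]

lemma h_ne (j : ℕ) (x : X) : D.h j x ≠ 0 := by
  intro h
  have := D.hsq j x
  rw [h] at this
  simp at this

lemma n_succ {j : ℕ} (hj : j < D.L) (x : X) : (D.n (j+1) : ℝ)⁻¹ = 2 * (D.n j : ℝ)⁻¹ := by
  have := D.hk j hj x x
  unfold ek at this
  rw [if_pos rfl, if_pos rfl] at this
  have h2 := D.hsq j x
  have : (D.n (j+1) : ℝ)⁻¹ - (D.n j : ℝ)⁻¹ = (D.n j : ℝ)⁻¹ := by
    calc _ = _ := this
      _ = (D.h j x * D.h j x) * (D.n j : ℝ)⁻¹ := by ring
      _ = _ := by rw [h2, one_mul]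
  linarith

/-- the sign functions are measurable one level up -/
lemma h_meas {j : ℕ} (hj : j < D.L) {x y : X} (hxy : D.c (j+1) x = D.c (j+1) y) :
    D.h j x = D.h j y := by
  have h1 := D.hk j hj x y
  have h2 := n_succ hj x
  have h3 := D.nest j x y hxy
  unfold ek at h1
  rw [if_pos hxy.symm, if_pos h3.symm] at h1
  have h4 : (0:ℝ) < (D.n j : ℝ)⁻¹ := inv_pos.2 (by exact_mod_cast D.npos j)
  have h5 : D.h j x * D.h j y = 1 := by
    have : (D.n j : ℝ)⁻¹ * (D.h j x * D.h j y) = (D.n j : ℝ)⁻¹ * 1 := by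
      rw [mul_one]; linarith
    exact mul_left_cancel₀ h4.ne' this
  have h6 := D.hsq j y
  have : D.h j x * (D.h j y * D.h j y) = D.h j y := by rw [← mul_assoc, h5, one_mul]
  rwa [h6, mul_one] at this

lemma sum_ek_h {j : ℕ} (hj : j < D.L) (x : X) : ∑ y, ek D.toDy j x y * D.h j y = 0 := by
  have h1 : ∀ y, ek D.toDy j x y * D.h j y
      = D.h j x * (ek D.toDy (j+1) x y - ek D.toDy j x y) := by
    intro y
    rw [D.hk j hj]
    have := D.hsq j x
    calc _ = (D.h j x * D.h j x) * (ek D.toDy j x y * D.h j y) := by rw [this, one_mul]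
      _ = _ := by ring
  simp only [h1]
  rw [← mul_sum, sum_sub_distrib, sum_ek, sum_ek, sub_self, mul_zero]

lemma del_eq {F : Type} [AddCommGroup F] [Module ℝ F] {j : ℕ} (hj : j < D.L) (g : X → F) (x : X) :
    D.toDy.del j g x = D.h j x • D.E j (fun y => D.h j y • g y) x := by
  unfold HC.Dy.del
  rw [E_eq, E_eq, E_eq, ← sum_sub_distrib, smul_sum]
  refine sum_congr rfl fun y _ => ?_
  rw [← sub_smul, D.hk j hj, smul_smul, smul_smul]

/-- Bessel in one dimension -/
lemma bessel1 (g : X → ℝ) :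
    ∑ j ∈ range D.L, ∑ x, (D.E j (fun y => D.h j y * g y) x) ^ 2 ≤ ∑ x, g x ^ 2 := by
  have h1 : ∀ j ∈ range D.L, ∑ x, (D.E j (fun y => D.h j y * g y) x) ^ 2
      = ∑ x, D.E (j+1) g x * g x - ∑ x, D.E j g x * g x := by
    intro j hj
    rw [mem_range] at hj
    have e1 : ∀ x, (D.E j (fun y => D.h j y * g y) x) ^ 2 = D.toDy.del j g x * D.toDy.del j g x := by
      intro x
      have := del_eq hj g x
      simp only [smul_eq_mul] at this
      rw [this]
      have h2 := D.hsq j x
      calc _ = (D.h j x * D.h j x) * (D.E j (fun y => D.h j y * g y) x) ^ 2 := by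
            rw [h2, one_mul]
        _ = _ := by ring
    rw [sum_congr rfl fun x _ => e1 x, ← HC.Dy.sum_del_mul, ← sum_sub_distrib]
    refine sum_congr rfl fun x _ => ?_
    unfold HC.Dy.del
    ring
  rw [sum_congr rfl h1, Finset.sum_range_sub (fun j => ∑ x, D.E j g x * g x)]
  have h2 : ∑ x, D.E D.L g x * g x = ∑ x, g x ^ 2 := by
    refine sum_congr rfl fun x _ => ?_
    have : D.E D.L g x = g x := by
      rw [E_eq, ek_top]
      simp [dl]
    rw [this]; ring
  have h3 : 0 ≤ ∑ x, D.E 0 g x * g x := by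
    rw [← HC.Dy.sum_mul_E (D := D.toDy) (h := g) (HC.Dy.E_meas 0 g)]
    exact sum_nonneg fun x _ => mul_self_nonneg _
  linarith

end HDyOne

section boxes
variable {X : Type} [Fintype X] [DecidableEq X] {ι : Type} [Fintype ι] [DecidableEq ι]

/-- box average -/
noncomputable def EE {F : Type} [AddCommGroup F] [Module ℝ F] (D : HC.Dy X) (a : ι → ℕ)
    (g : (ι → X) → F) : (ι → X) → F := TT (fun m => ek D (a m)) g

/-- box measurability -/
def BM {F : Type*} (D : HC.Dy X) (a : ι → ℕ) (g : (ι → X) → F) : Prop :=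
  ∀ x y, (∀ m, D.c (a m) (y m) = D.c (a m) (x m)) → g y = g x

variable {D : HC.Dy X}

section gen
variable {F : Type} [AddCommGroup F] [Module ℝ F]

lemma EE_add (a : ι → ℕ) (g h : (ι → X) → F) (x : ι → X) :
    EE D a (fun y => g y + h y) x = EE D a g x + EE D a h x := TT_add _ _ _ _

lemma EE_sub (a : ι → ℕ) (g h : (ι → X) → F) (x : ι → X) :
    EE D a (fun y => g y - h y) x = EE D a g x - EE D a h x := TT_sub _ _ _ _

lemma EE_neg (a : ι → ℕ) (g : (ι → X) → F) (x : ι → X) :
    EE D a (fun y => - g y) x = - EE D a g x := TT_neg _ _ _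

lemma EE_sum {κ : Type*} (a : ι → ℕ) (S : Finset κ) (g : κ → (ι → X) → F) (x : ι → X) :
    EE D a (fun y => ∑ k ∈ S, g k y) x = ∑ k ∈ S, EE D a (g k) x := TT_sum _ _ _ _

lemma EE_smul (a : ι → ℕ) (c : ℝ) (g : (ι → X) → F) (x : ι → X) :
    EE D a (fun y => c • g y) x = c • EE D a g x := TT_smul _ _ _ _

lemma EE_mul (a : ι → ℕ) (c : ℝ) (g : (ι → X) → ℝ) (x : ι → X) :
    EE D a (fun y => c * g y) x = c * EE D a g x := TT_smul _ _ _ _

lemma EE_zero (a : ι → ℕ) (x : ι → X) : EE D a (fun _ => (0:F)) x = 0 := TT_zero _ _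

lemma EE_EE (a b : ι → ℕ) (g : (ι → X) → F) (x : ι → X) :
    EE D a (EE D b g) x = EE D (a ⊓ b) g x := by
  unfold EE
  rw [TT_comp]
  simp only [kc_ek, Pi.inf_apply]

lemma EE_comm (a b : ι → ℕ) (g : (ι → X) → F) (x : ι → X) :
    EE D a (EE D b g) x = EE D b (EE D a g) x := by
  rw [EE_EE, EE_EE, inf_comm]

lemma EE_EE_le {a b : ι → ℕ} (h : a ≤ b) (g : (ι → X) → F) (x : ι → X) :
    EE D a (EE D b g) x = EE D a g x := by
  rw [EE_EE, inf_eq_left.2 h]

/-- the kernel vanishes outside the box -/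
lemma ker_zero {a : ι → ℕ} {x y : ι → X} (h : ¬ ∀ m, D.c (a m) (y m) = D.c (a m) (x m)) :
    ∏ m, ek D (a m) (x m) (y m) = 0 := by
  push Not at h
  obtain ⟨m, hm⟩ := h
  apply prod_eq_zero (mem_univ m)
  unfold ek; rw [if_neg hm]

lemma ker_nonneg (a : ι → ℕ) (x y : ι → X) : 0 ≤ ∏ m, ek D (a m) (x m) (y m) :=
  prod_nonneg fun m _ => ek_nonneg _ _ _

lemma EE_congr {a : ι → ℕ} {g h : (ι → X) → F} {x : ι → X}
    (H : ∀ y, (∀ m, D.c (a m) (y m) = D.c (a m) (x m)) → g y = h y) :
    EE D a g x = EE D a h x := by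
  unfold EE TT
  refine sum_congr rfl fun y _ => ?_
  by_cases hy : ∀ m, D.c (a m) (y m) = D.c (a m) (x m)
  · rw [H y hy]
  · rw [ker_zero hy, zero_smul, zero_smul]

lemma EE_BM (a : ι → ℕ) (g : (ι → X) → F) : BM D a (EE D a g) := by
  intro x y h
  unfold EE TT
  refine sum_congr rfl fun z _ => ?_
  congr 1
  refine prod_congr rfl fun m _ => ?_
  change ek D (a m) (y m) (z m) = ek D (a m) (x m) (z m)
  unfold ek
  rw [h m]

lemma sum_ker (a : ι → ℕ) (x : ι → X) : ∑ y : ι → X, ∏ m, ek D (a m) (x m) (y m) = 1 := by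
  have h := TT_prod (fun m => ek D (a m)) (fun _ _ => (1:ℝ)) x
  unfold TT at h
  simp only [prod_const_one, smul_eq_mul, mul_one] at h
  rw [h]
  simp only [sum_ek, prod_const_one]

lemma sum_ker' (a : ι → ℕ) (y : ι → X) : ∑ x : ι → X, ∏ m, ek D (a m) (x m) (y m) = 1 := by
  rw [← sum_ker (D := D) a y]
  refine sum_congr rfl fun x _ => prod_congr rfl fun m _ => ek_symm _ _ _

lemma EE_of_BM {a : ι → ℕ} {g : (ι → X) → F} (hg : BM D a g) (x : ι → X) : EE D a g x = g x := by
  have h1 : EE D a g x = EE D a (fun _ => g x) x := EE_congr fun y hy => hg x y hy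
  rw [h1]
  unfold EE TT
  rw [← sum_smul, sum_ker, one_smul]

lemma EE_const (a : ι → ℕ) (c : F) (x : ι → X) : EE D a (fun _ => c) x = c :=
  EE_of_BM (fun _ _ _ => rfl) x

lemma sum_EE (a : ι → ℕ) (g : (ι → X) → F) : ∑ x, EE D a g x = ∑ x, g x := by
  unfold EE TT
  rw [sum_comm]
  refine sum_congr rfl fun y _ => ?_
  rw [← sum_smul, sum_ker', one_smul]

/-- measurable factors come out -/
lemma EE_BM_smul {a : ι → ℕ} {w : (ι → X) → ℝ} (hw : BM D a w) (g : (ι → X) → F) (x : ι → X) :
    EE D a (fun y => w y • g y) x = w x • EE D a g x := by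
  rw [← EE_smul]
  exact EE_congr fun y hy => by rw [hw x y hy]

lemma BM.mono {F : Type*} {a b : ι → ℕ} (h : a ≤ b) {g : (ι → X) → F} (hg : BM D a g) :
    BM D b g := by
  intro x y hxy
  exact hg x y fun m => HC.Dy.nest' (h m) (hxy m)

lemma BM.const {F : Type*} (a : ι → ℕ) (c : F) : BM D a (fun _ => c) := fun _ _ _ => rfl

lemma BM.comp {F H : Type*} {a : ι → ℕ} {g : (ι → X) → F} (hg : BM D a g) (φ : F → H) :
    BM D a (fun x => φ (g x)) := fun x y h => by simp only [hg x y h]

lemma BM.comp₂ {F G H : Type*} {a : ι → ℕ} {g : (ι → X) → F} {h : (ι → X) → G} (hg : BM D a g)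
    (hh : BM D a h) (φ : F → G → H) :
    BM D a (fun x => φ (g x) (h x)) := fun x y e => by simp only [hg x y e, hh x y e]

end gen

section real

lemma EE_BM_mul {a : ι → ℕ} {w : (ι → X) → ℝ} (hw : BM D a w) (g : (ι → X) → ℝ) (x : ι → X) :
    EE D a (fun y => w y * g y) x = w x * EE D a g x := EE_BM_smul hw g x

/-- self-adjointness -/
lemma sum_BM_mul {a : ι → ℕ} {w : (ι → X) → ℝ} (hw : BM D a w) (g : (ι → X) → ℝ) :
    ∑ x, w x * EE D a g x = ∑ x, w x * g x := by
  rw [← sum_EE (D := D) a (fun x => w x * g x)]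
  exact sum_congr rfl fun x _ => (EE_BM_mul hw g x).symm

lemma EE_nonneg {a : ι → ℕ} {g : (ι → X) → ℝ} (hg : ∀ y, 0 ≤ g y) (x : ι → X) :
    0 ≤ EE D a g x := TT_nonneg (fun _ _ _ => ek_nonneg _ _ _) hg x

lemma EE_mono {a : ι → ℕ} {g h : (ι → X) → ℝ} (H : ∀ y, g y ≤ h y) (x : ι → X) :
    EE D a g x ≤ EE D a h x := TT_mono (fun _ _ _ => ek_nonneg _ _ _) H x

lemma EE_mono_box {a : ι → ℕ} {g h : (ι → X) → ℝ} {x : ι → X}
    (H : ∀ y, (∀ m, D.c (a m) (y m) = D.c (a m) (x m)) → g y ≤ h y) :
    EE D a g x ≤ EE D a h x := by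
  unfold EE TT
  refine sum_le_sum fun y _ => ?_
  by_cases hy : ∀ m, D.c (a m) (y m) = D.c (a m) (x m)
  · rw [smul_eq_mul, smul_eq_mul]
    exact mul_le_mul_of_nonneg_left (H y hy) (ker_nonneg _ _ _)
  · rw [ker_zero hy, zero_smul, zero_smul]

lemma ker_self_pos (a : ι → ℕ) (x : ι → X) : 0 < ∏ m, ek D (a m) (x m) (x m) := by
  refine prod_pos fun m _ => ?_
  unfold ek
  rw [if_pos rfl]
  exact inv_pos.2 (by exact_mod_cast D.npos _)

lemma EE_pos {a : ι → ℕ} {g : (ι → X) → ℝ} (hg : ∀ y, 0 < g y) (x : ι → X) :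
    0 < EE D a g x := by
  unfold EE TT
  refine sum_pos' (fun y _ => ?_) ⟨x, mem_univ x, ?_⟩
  · rw [smul_eq_mul]; exact mul_nonneg (ker_nonneg _ _ _) (hg y).le
  · rw [smul_eq_mul]; exact mul_pos (ker_self_pos _ _) (hg x)

/-- Cauchy-Schwarz -/
lemma EE_cs {a : ι → ℕ} (g h : (ι → X) → ℝ) (x : ι → X) :
    (EE D a (fun y => g y * h y) x) ^ 2
      ≤ EE D a (fun y => g y ^ 2) x * EE D a (fun y => h y ^ 2) x := by
  unfold EE TT
  simp only [smul_eq_mul]
  refine sum_sq_le_sum_mul_sum_of_sq_le_mul _ (fun y _ => ?_) (fun y _ => ?_) fun y _ => ?_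
  · exact mul_nonneg (ker_nonneg _ _ _) (sq_nonneg _)
  · exact mul_nonneg (ker_nonneg _ _ _) (sq_nonneg _)
  · exact le_of_eq (by ring)

lemma EE_sq_le {a : ι → ℕ} (g : (ι → X) → ℝ) (x : ι → X) :
    (EE D a g x) ^ 2 ≤ EE D a (fun y => g y ^ 2) x := by
  have h := EE_cs (D := D) (a := a) g (fun _ => 1) x
  simp only [mul_one, one_pow] at h
  rwa [EE_const, mul_one] at h

lemma abs_EE_le {a : ι → ℕ} (g : (ι → X) → ℝ) (x : ι → X) :
    |EE D a g x| ≤ EE D a (fun y => |g y|) x := by
  rw [abs_le]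
  constructor
  · rw [← EE_neg]
    exact EE_mono (fun y => neg_abs_le _) x
  · exact EE_mono (fun y => le_abs_self _) x

lemma exists_ne {a : ι → ℕ} {g : (ι → X) → ℝ} {x : ι → X} (h : EE D a g x ≠ 0) :
    ∃ y, (∀ m, D.c (a m) (y m) = D.c (a m) (x m)) ∧ g y ≠ 0 := by
  by_contra hc
  push Not at hc
  apply h
  rw [← EE_zero (D := D) (F := ℝ) a x]
  exact EE_congr hc

lemma ek_le {i j : ℕ} (h : i ≤ j) (x y : X) : ek D j x y ≤ 2 ^ (j - i) * ek D i x y := by
  obtain ⟨k, rfl⟩ := Nat.exists_eq_add_of_le h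
  clear h
  rw [Nat.add_sub_cancel_left]
  have key : ∀ k, (D.n (i + k) : ℝ)⁻¹ ≤ 2 ^ k * (D.n i : ℝ)⁻¹ := by
    intro k
    induction k with
    | zero => simp
    | succ k ih =>
      have h3 : (D.n (i + k) : ℝ) ≤ 2 * (D.n (i+(k+1)) : ℝ) := by exact_mod_cast D.half (i+k)
      have h4 : (0:ℝ) < D.n (i+k) := by exact_mod_cast D.npos _
      have h5 : (0:ℝ) < D.n (i+(k+1)) := by exact_mod_cast D.npos _
      have h2 : ((D.n (i+(k+1)) : ℝ))⁻¹ ≤ 2 * ((D.n (i+k) : ℝ))⁻¹ := by
        rw [inv_eq_one_div, inv_eq_one_div, mul_one_div, div_le_div_iff₀ h5 h4]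
        linarith
      calc _ ≤ _ := h2
        _ ≤ 2 * (2 ^ k * (D.n i : ℝ)⁻¹) := by linarith
        _ = _ := by ring
  unfold ek
  split_ifs with h1 h2 h2
  · exact key k
  · exact absurd (HC.Dy.nest' (Nat.le_add_right i k) h1) h2
  · positivity
  · simp

/-- finer averages are controlled by coarser ones -/
lemma EE_le_pow {a b : ι → ℕ} (h : a ≤ b) {g : (ι → X) → ℝ} (hg : ∀ y, 0 ≤ g y) (x : ι → X) :
    EE D b g x ≤ 2 ^ (∑ m, (b m - a m)) * EE D a g x := by
  have := TT_kmono (p := fun m => ek D (b m)) (p' := fun m => ek D (a m))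
    (fun _ _ _ => ek_nonneg _ _ _) (fun m => 2 ^ (b m - a m)) (fun m x y => ek_le (h m) x y) hg x
  rwa [Finset.prod_pow_eq_pow_sum] at this

/-- Jensen -/
lemma EE_jensen_neg {a : ι → ℕ} {σ : (ι → X) → ℝ} {q : ℝ} (hσ : ∀ x, 0 < σ x) (hq : 0 ≤ q)
    (x : ι → X) : (EE D a σ x) ^ (-q) ≤ EE D a (fun y => σ y ^ (-q)) x := by
  have hE : 0 < EE D a σ x := EE_pos hσ x
  set e := EE D a σ x with he
  have h1 : ∀ y, e ^ (-q) * (1 + q) - (q * e ^ (-q) * e⁻¹) * σ y ≤ σ y ^ (-q) := by
    intro y
    have h2 := HC.rpow_neg_ge_line (t := σ y / e) (div_pos (hσ y) hE) hq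
    rw [Real.div_rpow (hσ y).le hE.le] at h2
    have h3 : 0 < e ^ (-q) := Real.rpow_pos_of_pos hE _
    rw [le_div_iff₀ h3] at h2
    calc _ = (1 - q * (σ y / e - 1)) * e ^ (-q) := by field_simp; ring
      _ ≤ _ := h2
  calc e ^ (-q) = e ^ (-q) * (1 + q) - (q * e ^ (-q) * e⁻¹) * e := by field_simp; ring
    _ = EE D a (fun y => e ^ (-q) * (1 + q) - (q * e ^ (-q) * e⁻¹) * σ y) x := by
        rw [EE_sub, EE_const, EE_mul]
    _ ≤ _ := EE_mono h1 x

end real

end boxes

section top
variable {X : Type} [Fintype X] [DecidableEq X] {ι : Type} [Fintype ι] [DecidableEq ι]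
  {D : HDy X} {F : Type} [AddCommGroup F] [Module ℝ F]

/-- levels averaging in one coordinate only -/
def em (L : ℕ) (m : ι) (j : ℕ) : ι → ℕ := Function.update (fun _ => L) m j

lemma EE_single (m : ι) (j : ℕ) (g : (ι → X) → F) (x : ι → X) :
    EE D.toDy (em D.L m j) g x = D.E j (fun t => g (Function.update x m t)) (x m) := by
  unfold EE em
  have : (fun m' => ek D.toDy (Function.update (fun _ => D.L) m j m'))
      = Function.update (fun _ => (dl : X → X → ℝ)) m (ek D.toDy j) := by
    ext m'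
    by_cases h : m' = m
    · subst h; rw [Function.update_self, Function.update_self]
    · rw [Function.update_of_ne h, Function.update_of_ne h, ek_top]
  rw [this, TT_single, E_eq]

/-- measurability in one coordinate -/
lemma BM_em {F : Type*} {m : ι} {j : ℕ} {g : (ι → X) → F} :
    BM D.toDy (em D.L m j) g ↔ ∀ x, D.toDy.Meas j (fun t => g (Function.update x m t)) := by
  constructor
  · intro h x s t hst
    refine h (Function.update x m t) (Function.update x m s) fun m' => ?_
    by_cases hm : m' = m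
    · subst hm
      unfold em
      rw [Function.update_self, Function.update_self, Function.update_self]
      exact hst
    · rw [Function.update_of_ne hm, Function.update_of_ne hm]
  · intro h x y hxy
    have h1 : ∀ m', m' ≠ m → y m' = x m' := by
      intro m' hm'
      have := hxy m'
      unfold em at this
      rw [Function.update_of_ne hm'] at this
      exact D.top _ _ this
    have h2 : D.c j (y m) = D.c j (x m) := by
      have := hxy m
      unfold em at this
      rwa [Function.update_self] at this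
    have h3 := h x (y m) (x m) h2
    simp only [Function.update_eq_self] at h3
    rw [← h3]
    congr 1
    ext m'
    by_cases hm : m' = m
    · subst hm; rw [Function.update_self]
    · rw [Function.update_of_ne hm, h1 m' hm]

/-- product of signs -/
noncomputable def hh (D : HDy X) (S : Finset ι) (a : ι → ℕ) (x : ι → X) : ℝ :=
  ∏ m ∈ S, D.h (a m) (x m)

lemma hh_sq (S : Finset ι) (a : ι → ℕ) (x : ι → X) : hh D S a x * hh D S a x = 1 := by
  unfold hh
  rw [← prod_mul_distrib]
  exact prod_eq_one fun m _ => D.hsq _ _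

lemma hh_abs (S : Finset ι) (a : ι → ℕ) (x : ι → X) : |hh D S a x| = 1 := by
  unfold hh
  rw [abs_prod]
  exact prod_eq_one fun m _ => h_abs _ _

lemma hh_sq' (S : Finset ι) (a : ι → ℕ) (x : ι → X) : hh D S a x ^ 2 = 1 := by
  rw [sq]; exact hh_sq S a x

lemma hh_BM {S : Finset ι} {a b : ι → ℕ} (h1 : ∀ m ∈ S, a m < D.L) (h2 : ∀ m ∈ S, a m + 1 ≤ b m) :
    BM D.toDy b (hh D S a) := by
  intro x y hxy
  unfold hh
  refine prod_congr rfl fun m hm => ?_
  exact h_meas (h1 m hm) (HC.Dy.nest' (h2 m hm) (hxy m))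

lemma hh_congr {S : Finset ι} {a b : ι → ℕ} (h : ∀ m ∈ S, a m = b m) (x : ι → X) :
    hh D S a x = hh D S b x := by
  unfold hh
  exact prod_congr rfl fun m hm => by rw [h m hm]

lemma hh_insert {S : Finset ι} {m : ι} (hm : m ∉ S) (a : ι → ℕ) (x : ι → X) :
    hh D (insert m S) a x = D.h (a m) (x m) * hh D S a x := by
  unfold hh
  rw [prod_insert hm]

lemma hh_empty (a : ι → ℕ) (x : ι → X) : hh D ∅ a x = 1 := by
  unfold hh; rw [prod_empty]

end top

end HD

end

section
/-!
Multi-parameter Bessel inequality, expansion, weights.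
-/

open Finset

set_option linter.unusedSectionVars false

namespace HD

variable {X : Type} [Fintype X] [DecidableEq X] {ι : Type} [Fintype ι] [DecidableEq ι]

/-- levels: below `L` on `S`, equal to `L` outside -/
def lvS (L : ℕ) (S : Finset ι) : Finset (ι → ℕ) :=
  Fintype.piFinset (fun m => if m ∈ S then range L else {L})

lemma mem_lvS {L : ℕ} {S : Finset ι} {a : ι → ℕ} :
    a ∈ lvS L S ↔ (∀ m ∈ S, a m < L) ∧ ∀ m, m ∉ S → a m = L := by
  unfold lvS
  rw [Fintype.mem_piFinset]
  constructor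
  · intro h
    refine ⟨fun m hm => ?_, fun m hm => ?_⟩
    · have := h m; rw [if_pos hm, mem_range] at this; exact this
    · have := h m; rw [if_neg hm, mem_singleton] at this; exact this
  · rintro ⟨h1, h2⟩ m
    split_ifs with hm
    · rw [mem_range]; exact h1 m hm
    · rw [mem_singleton]; exact h2 m hm

lemma lvS_le {L : ℕ} {S : Finset ι} {a : ι → ℕ} (h : a ∈ lvS L S) (m : ι) : a m ≤ L := by
  rw [mem_lvS] at h
  by_cases hm : m ∈ S
  · exact (h.1 m hm).le
  · exact (h.2 m hm).le

lemma lvS_empty (L : ℕ) : lvS L (∅ : Finset ι) = {fun _ => L} := by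
  ext a
  rw [mem_lvS, mem_singleton]
  constructor
  · rintro ⟨_, h⟩; ext m; exact h m (by simp)
  · rintro rfl; exact ⟨fun m hm => by simp at hm, fun _ _ => rfl⟩

/-- peeling off one coordinate -/
lemma sum_lvS_insert {M : Type*} [AddCommMonoid M] {L : ℕ} {S : Finset ι} {m : ι} (hm : m ∉ S)
    (F : (ι → ℕ) → M) :
    ∑ a ∈ lvS L (insert m S), F a
      = ∑ b ∈ lvS L S, ∑ j ∈ range L, F (Function.update b m j) := by
  rw [← sum_product']
  symm
  refine sum_nbij' (fun p => Function.update p.1 m p.2) (fun a => (Function.update a m L, a m))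
    ?_ ?_ ?_ ?_ ?_
  · rintro ⟨b, j⟩ h
    rw [mem_product, mem_lvS, mem_range] at h
    rw [mem_lvS]
    refine ⟨fun m' hm' => ?_, fun m' hm' => ?_⟩
    · by_cases e : m' = m
      · subst e; simp only [Function.update_self]; exact h.2
      · simp only [Function.update_of_ne e]
        exact h.1.1 m' ((mem_insert.1 hm').resolve_left e)
    · have e : m' ≠ m := fun e => hm' (by rw [e]; exact mem_insert_self _ _)
      simp only [Function.update_of_ne e]
      exact h.1.2 m' fun hh => hm' (mem_insert_of_mem hh)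
  · intro a h
    rw [mem_lvS] at h
    rw [mem_product, mem_lvS, mem_range]
    refine ⟨⟨fun m' hm' => ?_, fun m' hm' => ?_⟩, h.1 m (mem_insert_self _ _)⟩
    · have e : m' ≠ m := fun e => hm (by rw [← e]; exact hm')
      simp only [Function.update_of_ne e]
      exact h.1 m' (mem_insert_of_mem hm')
    · by_cases e : m' = m
      · subst e; simp only [Function.update_self]
      · simp only [Function.update_of_ne e]
        exact h.2 m' fun hh => (mem_insert.1 hh).elim e hm'
  · rintro ⟨b, j⟩ h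
    rw [mem_product, mem_lvS, mem_range] at h
    simp only [Function.update_self, Function.update_idem, Prod.mk.injEq, and_true]
    have : L = b m := (h.1.2 m hm).symm
    rw [this, Function.update_eq_self]
  · intro a _
    simp only [Function.update_idem, Function.update_eq_self]
  · rintro ⟨b, j⟩ _
    rfl

lemma sum_lvS_erase {M : Type*} [AddCommMonoid M] {L : ℕ} {S : Finset ι} {m : ι} (hm : m ∈ S)
    (F : (ι → ℕ) → M) :
    ∑ a ∈ lvS L S, F a
      = ∑ b ∈ lvS L (S.erase m), ∑ j ∈ range L, F (Function.update b m j) := by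
  rw [← sum_lvS_insert (Finset.notMem_erase m S), Finset.insert_erase hm]

/-- restriction of the levels -/
def rs (L : ℕ) (S : Finset ι) (a : ι → ℕ) (m : ι) : ℕ := if m ∈ S then a m else L

lemma rs_mem {L : ℕ} {S T : Finset ι} {a : ι → ℕ} (h : a ∈ lvS L T) (hS : S ⊆ T) :
    rs L S a ∈ lvS L S := by
  rw [mem_lvS] at h ⊢
  refine ⟨fun m hm => ?_, fun m hm => ?_⟩
  · unfold rs; rw [if_pos hm]; exact h.1 m (hS hm)
  · unfold rs; rw [if_neg hm]

lemma rs_self {L : ℕ} {T : Finset ι} {a : ι → ℕ} (h : a ∈ lvS L T) : rs L T a = a := by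
  rw [mem_lvS] at h
  ext m
  unfold rs
  split_ifs with hm
  · rfl
  · exact (h.2 m hm).symm

lemma rs_inf {L : ℕ} {S T : Finset ι} {a : ι → ℕ} (ha : ∀ m, a m ≤ L) :
    rs L S a ⊓ rs L T a = rs L (S ∪ T) a := by
  ext m
  simp only [Pi.inf_apply, rs, mem_union]
  have := ha m
  by_cases h1 : m ∈ S <;> by_cases h2 : m ∈ T <;> simp [h1, h2, this]

lemma rs_single (L : ℕ) (m : ι) (a : ι → ℕ) : rs L {m} a = em L m (a m) := by
  ext m'
  unfold rs em
  by_cases h : m' = m
  · subst h; simp
  · simp [h]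

lemma rs_empty (L : ℕ) (a : ι → ℕ) : rs L ∅ a = fun _ => L := by
  ext m; simp [rs]

lemma rs_univ (L : ℕ) (a : ι → ℕ) : rs L univ a = a := by
  ext m; simp [rs]

variable {D : HDy X}

lemma EE_top {F : Type} [AddCommGroup F] [Module ℝ F] (g : (ι → X) → F) (x : ι → X) :
    EE D.toDy (fun _ => D.L) g x = g x := by
  unfold EE
  simp only [ek_top]
  exact TT_dl g x

lemma BM_top {F : Type*} (g : (ι → X) → F) : BM D.toDy (fun _ => D.L) g := by
  intro x y h
  have : y = x := funext fun m => D.top _ _ (h m)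
  rw [this]

lemma upd_inf {L : ℕ} {S : Finset ι} {m : ι} (hm : m ∉ S) {b : ι → ℕ} (hb : b ∈ lvS L S) {j : ℕ}
    (hj : j ≤ L) : b ⊓ em L m j = Function.update b m j := by
  ext m'
  rw [Pi.inf_apply]
  unfold em
  by_cases e : m' = m
  · subst e
    rw [Function.update_self, Function.update_self, (mem_lvS.1 hb).2 m' hm]
    exact min_eq_right hj
  · rw [Function.update_of_ne e, Function.update_of_ne e]
    exact min_eq_left (lvS_le hb m')

lemma hh_BM_em {S : Finset ι} {m : ι} (hm : m ∉ S) {b : ι → ℕ} (hb : ∀ m' ∈ S, b m' < D.L) (j : ℕ) :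
    BM D.toDy (em D.L m j) (hh D S b) := by
  refine hh_BM hb fun m' hm' => ?_
  have e : m' ≠ m := fun e => hm (by rw [← e]; exact hm')
  unfold em
  rw [Function.update_of_ne e]
  exact hb m' hm'

lemma bessel_one (m : ι) (g : (ι → X) → ℝ) :
    ∑ j ∈ range D.L, ∑ x, (EE D.toDy (em D.L m j) (fun y => D.h j (y m) * g y) x) ^ 2
      ≤ ∑ x, g x ^ 2 := by
  rw [sum_comm]
  refine slice_le m (Φ := fun x => ∑ j ∈ range D.L,
    (EE D.toDy (em D.L m j) (fun y => D.h j (y m) * g y) x) ^ 2) (Ψ := fun x => g x ^ 2) fun x => ?_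
  have := bessel1 (D := D) (fun t => g (Function.update x m t))
  rw [sum_comm] at this
  refine le_trans (le_of_eq ?_) this
  refine sum_congr rfl fun t _ => sum_congr rfl fun j _ => ?_
  rw [EE_single]
  simp only [Function.update_self, Function.update_idem]

/-- multi-parameter Bessel inequality -/
lemma bessel (S : Finset ι) (g : (ι → X) → ℝ) :
    ∑ a ∈ lvS D.L S, ∑ x, (EE D.toDy a (fun y => hh D S a y * g y) x) ^ 2 ≤ ∑ x, g x ^ 2 := by
  induction S using Finset.induction_on generalizing g with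
  | empty =>
    rw [lvS_empty, sum_singleton]
    simp only [EE_top, hh_empty, one_mul]
    exact le_rfl
  | insert m S hm ih =>
    rw [sum_lvS_insert hm, sum_comm]
    have e1 : ∀ j ∈ range D.L, ∀ b ∈ lvS D.L S, ∀ x,
        EE D.toDy (Function.update b m j) (fun y => hh D (insert m S) (Function.update b m j) y * g y) x
        = EE D.toDy b (fun y => hh D S b y *
          EE D.toDy (em D.L m j) (fun y => D.h j (y m) * g y) y) x := by
      intro j hj b hb x
      rw [mem_range] at hj
      rw [← upd_inf hm hb hj.le, ← EE_EE]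
      have e2 : ∀ y, hh D (insert m S) (b ⊓ em D.L m j) y = D.h j (y m) * hh D S b y := by
        intro y
        rw [hh_insert hm, upd_inf hm hb hj.le, Function.update_self]
        congr 1
        refine hh_congr (fun m' hm' => ?_) y
        have e : m' ≠ m := fun e => hm (by rw [← e]; exact hm')
        rw [Function.update_of_ne e]
      have e3 : EE D.toDy (em D.L m j) (fun y => hh D (insert m S) (b ⊓ em D.L m j) y * g y)
          = fun y => hh D S b y * EE D.toDy (em D.L m j) (fun y => D.h j (y m) * g y) y := by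
        ext y
        rw [← EE_BM_mul (hh_BM_em hm (mem_lvS.1 hb).1 j)]
        refine EE_congr fun z _ => ?_
        rw [e2]; ring
      rw [e3]
    calc _ = ∑ j ∈ range D.L, ∑ b ∈ lvS D.L S, ∑ x, (EE D.toDy b (fun y => hh D S b y *
          EE D.toDy (em D.L m j) (fun y => D.h j (y m) * g y) y) x) ^ 2 :=
          sum_congr rfl fun j hj => sum_congr rfl fun b hb => sum_congr rfl fun x _ => by
            rw [e1 j hj b hb x]
      _ ≤ ∑ j ∈ range D.L, ∑ x, (EE D.toDy (em D.L m j) (fun y => D.h j (y m) * g y) x) ^ 2 :=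
          sum_le_sum fun j _ => ih _
      _ ≤ _ := bessel_one m g

/-- expansion of functions with zero means -/
lemma expansion {F : Type} [AddCommGroup F] [Module ℝ F] {f : (ι → X) → F}
    (hf : ∀ m x, EE D.toDy (em D.L m 0) f x = 0) (x : ι → X) :
    f x = ∑ a ∈ lvS D.L univ, hh D univ a x • EE D.toDy a (fun y => hh D univ a y • f y) x := by
  set p : X → X → ℝ := fun s t => ∑ j ∈ range D.L, D.h j s * ek D.toDy j s t * D.h j t with hp
  have hp1 : ∀ s t, p s t = dl s t - ek D.toDy 0 s t := by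
    intro s t
    simp only [hp]
    rw [sum_congr rfl fun j hj => (D.hk j (mem_range.1 hj) s t).symm,
      Finset.sum_range_sub (fun j => ek D.toDy j s t), ek_top]
  have h1 : ∀ S : Finset ι, ∀ x, TT (fun m => if m ∈ S then p else dl) f x = f x := by
    intro S
    induction S using Finset.induction_on with
    | empty =>
      intro x
      simp only [notMem_empty, if_false]
      exact TT_dl f x
    | insert m S hm ih =>
      intro x
      rw [TT_split' _ m]
      have e1 : Function.update (fun m' => if m' ∈ insert m S then p else dl) m dl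
          = fun m' => if m' ∈ S then p else dl := by
        ext m'
        by_cases e : m' = m
        · subst e; rw [Function.update_self, if_neg hm]
        · rw [Function.update_of_ne e]
          simp [e]
      have e2 : TT (Function.update (fun _ => (dl : X → X → ℝ)) m (if m ∈ insert m S then p else dl)) f
          = f := by
        ext z
        rw [if_pos (mem_insert_self m S), TT_single]
        simp only [hp1, sub_smul, sum_sub_distrib]
        have e3 : ∑ t, (dl (z m) t : ℝ) • f (Function.update z m t) = f z := by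
          simp [dl]
        have e4 : ∑ t, ek D.toDy 0 (z m) t • f (Function.update z m t) = 0 := by
          rw [← hf m z, EE_single, E_eq]
        rw [e3, e4, sub_zero]
      rw [e1, e2]
      exact ih x
  have h2 := h1 univ x
  simp only [mem_univ, if_true] at h2
  rw [← h2]
  have h3 : lvS D.L (univ : Finset ι) = Fintype.piFinset (fun _ => range D.L) := by
    unfold lvS; simp
  rw [h3]
  unfold TT EE TT
  have h4 : ∀ y : ι → X, ∏ m, p (x m) (y m) = ∑ a ∈ Fintype.piFinset (fun _ : ι => range D.L),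
      ∏ m, (D.h (a m) (x m) * ek D.toDy (a m) (x m) (y m) * D.h (a m) (y m)) := by
    intro y
    simp only [hp]
    rw [Finset.prod_univ_sum]
  simp only [h4, sum_smul, smul_sum, smul_smul]
  rw [sum_comm]
  refine sum_congr rfl fun a _ => sum_congr rfl fun y _ => ?_
  congr 1
  unfold hh
  rw [← prod_mul_distrib, ← prod_mul_distrib]
  refine prod_congr rfl fun m _ => ?_
  ring

/-- dyadic `A_1` weights -/
structure Wt (D : HDy X) (σ : (ι → X) → ℝ) (A : ℝ) : Prop where
  pos : ∀ x, 0 < σ x
  one : 1 ≤ A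
  a1 : ∀ m j x, EE D.toDy (em D.L m j) σ x ≤ A * σ x

lemma Wt.rs_le {σ : (ι → X) → ℝ} {A : ℝ} (h : Wt D σ A) {a : ι → ℕ} (ha : ∀ m, a m ≤ D.L)
    (S : Finset ι) (x : ι → X) : EE D.toDy (rs D.L S a) σ x ≤ A ^ S.card * σ x := by
  induction S using Finset.induction_on generalizing x with
  | empty => rw [rs_empty, EE_top]; simp
  | insert m S hm ih =>
    rw [insert_eq, ← rs_inf ha, ← EE_EE, ← insert_eq, card_insert_of_notMem hm, pow_succ]
    have h1 := EE_mono (D := D.toDy) (a := rs D.L {m} a) ih x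
    rw [EE_mul] at h1
    refine h1.trans ?_
    rw [rs_single, mul_assoc]
    exact mul_le_mul_of_nonneg_left (h.a1 m _ x) (pow_nonneg (by linarith [h.one]) _)

lemma Wt.rs_le' {σ : (ι → X) → ℝ} {A : ℝ} (h : Wt D σ A) {a : ι → ℕ} (ha : ∀ m, a m ≤ D.L)
    (S : Finset ι) (x : ι → X) : EE D.toDy (rs D.L S a) σ x ≤ A ^ Fintype.card ι * σ x :=
  (h.rs_le ha S x).trans (mul_le_mul_of_nonneg_right
    (pow_le_pow_right₀ h.one (card_le_univ S)) (h.pos x).le)

lemma Wt.le {σ : (ι → X) → ℝ} {A : ℝ} (h : Wt D σ A) {a : ι → ℕ} (ha : ∀ m, a m ≤ D.L)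
    (x : ι → X) : EE D.toDy a σ x ≤ A ^ Fintype.card ι * σ x := by
  have := h.rs_le' ha univ x
  rwa [rs_univ] at this

end HD

end
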