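import Pool.Agent.Helper61.HD.KerD
import Pool.Agent.Helper61.HC.ExW

section
/-!
Step A in every dimension: the averaged blocks are controlled by the coefficients.
-/

open Finset
open scoped Classical

set_option linter.unusedSectionVars false

namespace HD

open HC

variable {L : ℕ} {ι : Type} [Fintype ι] [DecidableEq ι]

/-- tensor convolution -/
noncomputable def cvT (g : ℝ → ℂ) (s : ι → ℕ) (u : (ι → ZMod (2 ^ L)) → ℂ) :
    (ι → ZMod (2 ^ L)) → ℂ := TT (fun m => cvk L g (s m)) u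

/-- averaged modulus -/
noncomputable def gg (s : ι → ℕ) (u : (ι → ZMod (2 ^ L)) → ℂ) : (ι → ZMod (2 ^ L)) → ℝ :=
  TT (fun m => avk L (s m)) (fun y => ‖u y‖)

/-- one-sided `A_1` condition in each variable -/
def AA (σ : (ι → ZMod (2 ^ L)) → ℝ) (A : ℝ) : Prop :=
  ∀ m x, A1 (fun t => σ (Function.update x m t)) A

lemma AA.pos [Nonempty ι] {σ : (ι → ZMod (2 ^ L)) → ℝ} {A : ℝ} (h : AA σ A)
    (x : ι → ZMod (2 ^ L)) : 0 < σ x := by
  obtain ⟨m⟩ := (inferInstance : Nonempty ι)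
  have := (h m x).pos (x m)
  simpa only [Function.update_eq_self] using this

lemma AA.one [Nonempty ι] {σ : (ι → ZMod (2 ^ L)) → ℝ} {A : ℝ} (h : AA σ A) : 1 ≤ A := by
  obtain ⟨m⟩ := (inferInstance : Nonempty ι)
  exact (h m 0).one

lemma AA.wt [Nonempty ι] {σ : (ι → ZMod (2 ^ L)) → ℝ} {A : ℝ} (h : AA σ A) :
    Wt (hdy L) σ (2 * A) := by
  refine ⟨h.pos, by linarith [h.one], fun m j x => ?_⟩
  have h1 := EE_single (D := hdy L) m j σ x
  rw [h1]
  have h2 := (h m x).dyadic j (x m)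
  rw [Function.update_eq_self] at h2
  exact h2

section block

lemma sign_eq (a : ι → ℕ) {c : (ι → ZMod (2 ^ L)) → ℂ} (hc : BM (hdy L).toDy a c) :
    (fun y => hh (hdy L) univ a y • c y) = TT (fun m => hek L (a m)) c := by
  ext y
  have e1 : c y = EE (hdy L).toDy a c y := (EE_of_BM hc y).symm
  rw [e1]
  unfold EE TT
  rw [smul_sum]
  refine sum_congr rfl fun z _ => ?_
  unfold hek hh
  rw [smul_smul, ← prod_mul_distrib, smul_eq_mul, Complex.real_smul]
  congr 1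
  push_cast
  rfl

/-- pointwise bound of one block -/
lemma block_le {g : ℝ → ℂ} {B : ℝ} (hg : Sm g B) {s a : ι → ℕ} (hs' : ∀ m, s m + 4 ≤ L)
    (ha : ∀ m, a m < L) {c : (ι → ZMod (2 ^ L)) → ℂ} (hc : BM (hdy L).toDy a c)
    (x : ι → ZMod (2 ^ L)) :
    gg s (cvT g s (fun y => hh (hdy L) univ a y • c y)) x
      ≤ ((1600 * B) ^ Fintype.card ι * 80 ^ Fintype.card ι) *
        TT (fun m => abk L (s m) (a m)) (fun y => ‖c y‖) x := by
  have B0 := hg.sym.nonneg
  have e1 : ∀ y, ‖cvT g s (fun y => hh (hdy L) univ a y • c y) y‖ ≤ (1600 * B) ^ Fintype.card ι *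
      TT (fun m => abk L (s m) (a m)) (fun y => ‖c y‖) y := by
    intro y
    unfold cvT
    rw [sign_eq a hc, TT_comp]
    refine (norm_TT_le _ _ y).trans ?_
    have h1 := TT_kmono (p := fun m x y => ‖kc (cvk L g (s m)) (hek L (a m)) x y‖)
      (p' := fun m => kc (abk L (s m) (a m)) (ek (dy L) (a m)))
      (fun _ _ _ => norm_nonneg _) (fun _ => 1600 * B)
      (fun m x y => cv_hek hg (hs' m) (ha m) x y) (g := fun y => ‖c y‖) (fun _ => norm_nonneg _) y
    refine h1.trans (le_of_eq ?_)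
    rw [prod_const, card_univ, ← TT_comp]
    congr 2
    ext z
    exact EE_of_BM (hc.comp fun t => ‖t‖) z
  unfold gg
  refine (TT_mono (fun _ _ _ => avk_nonneg _ _ _) e1 x).trans ?_
  rw [TT_mul, TT_comp, mul_assoc]
  refine mul_le_mul_of_nonneg_left ?_ (by positivity)
  have h2 := TT_kmono (p := fun m => kc (avk L (s m)) (abk L (s m) (a m)))
      (p' := fun m => abk L (s m) (a m))
      (fun m x y => kc_nonneg (avk_nonneg _) (abk_nonneg _ _) x y) (fun _ => 80)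
      (fun m x y => kc_av_ab (s m) (a m) x y) (g := fun y => ‖c y‖) (fun _ => norm_nonneg _) x
  refine h2.trans (le_of_eq ?_)
  rw [prod_const, card_univ]

end block

section weighted
variable {X : Type} [Fintype X] [DecidableEq X] {D : HDy X}

/-- operators in other coordinates preserve measurability -/
lemma BM_partial {p : ι → X → X → ℝ} {S : Finset ι} {m : ι} (hm : m ∉ S) {j : ℕ}
    {φ : (ι → X) → ℝ} (hφ : BM D.toDy (em D.L m j) φ) :
    BM D.toDy (em D.L m j) (TT (fun m => if m ∈ S then p m else dl) φ) := by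
  have e1 : TT (fun m => if m ∈ S then p m else dl) φ
      = EE D.toDy (em D.L m j) (TT (fun m => if m ∈ S then p m else dl) φ) := by
    ext x
    have e2 : φ = EE D.toDy (em D.L m j) φ := by ext y; exact (EE_of_BM hφ y).symm
    nth_rewrite 1 [e2]
    unfold EE
    rw [TT_comp, TT_comp]
    congr 1
    ext m'
    unfold em
    by_cases e : m' = m
    · subst e
      rw [Function.update_self, if_neg hm, kc_dl_left, kc_dl_right]
    · rw [Function.update_of_ne e, ek_top, kc_dl_left, kc_dl_right]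
  rw [e1]
  exact EE_BM _ _

/-- tensorization of weighted bounds -/
lemma tens_w (p : ι → X → X → ℝ) (C : ι → ℝ) (hC : ∀ m, 0 ≤ C m) (a : ι → ℕ) (v : (ι → X) → ℝ)
    (h1 : ∀ m x (g : X → ℝ), D.toDy.Meas (a m) g →
      ∑ t, v (Function.update x m t) * (∑ t', p m t t' * g t') ^ 2
        ≤ C m * ∑ t, v (Function.update x m t) * g t ^ 2)
    {φ : (ι → X) → ℝ} (hφ : ∀ m, BM D.toDy (em D.L m (a m)) φ) (S : Finset ι) :
    ∑ x, v x * (TT (fun m => if m ∈ S then p m else dl) φ x) ^ 2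
      ≤ (∏ m ∈ S, C m) * ∑ x, v x * φ x ^ 2 := by
  induction S using Finset.induction_on with
  | empty =>
    rw [prod_empty, one_mul]
    refine le_of_eq (sum_congr rfl fun x _ => ?_)
    simp only [notMem_empty, if_false]
    rw [TT_dl]
  | insert m S hm ih =>
    rw [prod_insert hm, mul_assoc]
    refine le_trans ?_ (mul_le_mul_of_nonneg_left ih (hC m))
    rw [mul_sum]
    set ψ := TT (fun m => if m ∈ S then p m else dl) φ with hψ
    have hψm : BM D.toDy (em D.L m (a m)) ψ := BM_partial hm (hφ m)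
    rw [BM_em] at hψm
    have e1 : ∀ x, TT (fun m' => if m' ∈ insert m S then p m' else dl) φ x
        = ∑ t', p m (x m) t' * ψ (Function.update x m t') := by
      intro x
      rw [TT_split _ m]
      have e2 : Function.update (fun m' => if m' ∈ insert m S then p m' else dl) m dl
          = fun m' => if m' ∈ S then p m' else dl := by
        ext m'
        by_cases e : m' = m
        · subst e; rw [Function.update_self, if_neg hm]
        · rw [Function.update_of_ne e]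
          simp [e]
      rw [e2, if_pos (mem_insert_self m S), TT_single]
      simp only [smul_eq_mul, hψ]
    refine slice_le m (Φ := fun x => v x *
      (TT (fun m' => if m' ∈ insert m S then p m' else dl) φ x) ^ 2)
      (Ψ := fun x => C m * (v x * ψ x ^ 2)) fun x => ?_
    have h2 := h1 m x (fun t => ψ (Function.update x m t)) (hψm x)
    rw [mul_sum] at h2
    refine le_trans (le_of_eq ?_) h2
    refine sum_congr rfl fun t _ => ?_
    rw [e1]
    simp only [Function.update_self, Function.update_idem]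

end weighted

/-- off-diagonal factors -/
noncomputable def XX (a s : ι → ℕ) : ℝ := ∏ m, xx ^ (ad (a m) (s m))

lemma XX_pos (a s : ι → ℕ) : 0 < XX a s := prod_pos fun m _ => pow_pos xx_pos _

lemma XX_comm (a s : ι → ℕ) : XX a s = XX s a := by
  unfold XX
  exact prod_congr rfl fun m _ => by rw [ad_comm]

lemma sum_XX (N : ℕ) (s : ι → ℕ) : ∑ a ∈ lvS N (univ : Finset ι), XX a s ≤ 14 ^ Fintype.card ι := by
  have x0 := xx_pos
  have e2 : lvS N (univ : Finset ι) = Fintype.piFinset (fun _ => range N) := by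
    unfold lvS; simp
  rw [e2]
  unfold XX
  rw [← Finset.prod_univ_sum (fun _ => range N) (fun m j => xx ^ (ad j (s m)))]
  refine (prod_le_prod (fun m _ => sum_nonneg fun j _ => by positivity)
    fun m _ => sum_xx N (s m)).trans (le_of_eq ?_)
  rw [prod_const, card_univ]

lemma sum_XX' (N : ℕ) (s : ι → ℕ) : ∑ a ∈ lvS N (univ : Finset ι), XX s a ≤ 14 ^ Fintype.card ι := by
  simp only [XX_comm s]
  exact sum_XX N s

/-- Cauchy-Schwarz with the off-diagonal factors -/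
lemma cs_XX (N : ℕ) (s : ι → ℕ) (T : (ι → ℕ) → ℝ) :
    (∑ a ∈ lvS N (univ : Finset ι), T a) ^ 2
      ≤ 14 ^ Fintype.card ι * ∑ a ∈ lvS N (univ : Finset ι), (XX a s)⁻¹ * T a ^ 2 := by
  have h := sum_sq_le_sum_mul_sum_of_sq_le_mul (lvS N (univ : Finset ι))
    (r := T) (f := fun a => XX a s) (g := fun a => (XX a s)⁻¹ * T a ^ 2)
    (fun a _ => (XX_pos a s).le) (fun a _ => by have := XX_pos a s; positivity)
    (fun a _ => le_of_eq (by have := (XX_pos a s).ne'; field_simp))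
  refine h.trans ?_
  exact mul_le_mul_of_nonneg_right (sum_XX N s) (sum_nonneg fun a _ => by
    have := XX_pos a s; positivity)

lemma half_XX (a s : ι → ℕ) : ∏ m, (1/2 : ℝ) ^ (ad (a m) (s m)) = XX a s ^ 4 := by
  unfold XX
  rw [← prod_pow]
  refine prod_congr rfl fun m _ => ?_
  rw [← xx_pow, ← pow_mul, ← pow_mul, mul_comm]

/-- weighted bound of the tensor operator -/
lemma ab_w [Nonempty ι] {σ : (ι → ZMod (2 ^ L)) → ℝ} {A q : ℝ} (hσ : AA σ A) (hq1 : 1 ≤ q)
    (hq : q ≤ 5/4) {s a : ι → ℕ} (hs' : ∀ m, s m + 4 ≤ L) (ha : ∀ m, a m < L)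
    {φ : (ι → ZMod (2 ^ L)) → ℝ} (hφ : BM (hdy L).toDy a φ) :
    ∑ x, σ x ^ (-q) * (TT (fun m => abk L (s m) (a m)) φ x) ^ 2
      ≤ ((10800 * A ^ 5) ^ Fintype.card ι * XX a s ^ 4) * ∑ x, σ x ^ (-q) * φ x ^ 2 := by
  have hA := hσ.one
  have h := tens_w (D := hdy L) (fun m => abk L (s m) (a m))
    (fun m => 10800 * A ^ 5 * (1/2) ^ (ad (a m) (s m))) (fun m => by positivity) a
    (fun x => σ x ^ (-q)) (fun m x g hg => by
      have h1 := (hσ m x).n12 hq1 hq (hs' m) (show a m + 1 ≤ L from ha m) (g := g)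
        (hg.mono (Nat.le_succ _))
      simp only [AB_eq_k] at h1
      exact h1)
    (φ := φ) (fun m => hφ.mono (le_em (fun m => (ha m).le) m)) univ
  simp only [mem_univ, if_true] at h
  rw [prod_mul_distrib, half_XX, prod_const, card_univ] at h
  exact h

/-- the constant of step A -/
noncomputable def CAd (ι : Type) [Fintype ι] (B A : ℝ) : ℝ :=
  14 ^ Fintype.card ι * (((1600 * B) ^ Fintype.card ι * 80 ^ Fintype.card ι) ^ 2
    * (10800 * A ^ 5) ^ Fintype.card ι)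

lemma cvT_sum {κ : Type*} (g : ℝ → ℂ) (s : ι → ℕ) (S : Finset κ)
    (u : κ → (ι → ZMod (2 ^ L)) → ℂ) (x : ι → ZMod (2 ^ L)) :
    cvT g s (fun x => ∑ k ∈ S, u k x) x = ∑ k ∈ S, cvT g s (u k) x := TT_sum _ _ _ _

lemma cvT_mul (g : ℝ → ℂ) (s : ι → ℕ) (c : ℂ)
    (u : (ι → ZMod (2 ^ L)) → ℂ) (x : ι → ZMod (2 ^ L)) :
    cvT g s (fun x => c * u x) x = c * cvT g s u x := TT_mul _ _ _ _

lemma gg_nonneg (s : ι → ℕ) (u : (ι → ZMod (2 ^ L)) → ℂ) (x : ι → ZMod (2 ^ L)) :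
    0 ≤ gg s u x := TT_nonneg (fun _ _ _ => avk_nonneg _ _ _) (fun _ => norm_nonneg _) x

theorem stepAd [Nonempty ι] {g : ℝ → ℂ} {B : ℝ} (hg : Sm g B) {s : ι → ℕ}
    (hs' : ∀ m, s m + 4 ≤ L) {σ : (ι → ZMod (2 ^ L)) → ℝ} {A q : ℝ} (hσ : AA σ A) (hq1 : 1 ≤ q)
    (hq : q ≤ 5/4) {f : (ι → ZMod (2 ^ L)) → ℂ}
    (hf : ∀ m x, EE (hdy L).toDy (em L m 0) f x = 0) :
    ∑ x, σ x ^ (-q) * (gg s (cvT g s f) x) ^ 2
      ≤ CAd ι B A * ∑ a ∈ lvS L univ, XX a s ^ 3 * DC (hdy L) σ f q a := by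
  have B0 := hg.sym.nonneg
  have hA := hσ.one
  set d := Fintype.card ι with hd
  set U : (ι → ℕ) → (ι → ZMod (2 ^ L)) → ℂ := fun a y => hh (hdy L) univ a y • cc (hdy L) f a y
    with hU
  have hfU : f = fun x => ∑ a ∈ lvS L univ, U a x := by
    ext x
    exact expansion (D := hdy L) hf x
  have v0 : ∀ x, 0 < σ x ^ (-q) := fun x => Real.rpow_pos_of_pos (hσ.pos x) _
  set T : (ι → ℕ) → (ι → ZMod (2 ^ L)) → ℝ := fun a x => gg s (cvT g s (U a)) x with hT
  have T0 : ∀ a x, 0 ≤ T a x := fun a x => gg_nonneg _ _ _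
  have p1 : ∀ x, gg s (cvT g s f) x ≤ ∑ a ∈ lvS L univ, T a x := by
    intro x
    have a1 : ∀ y, ‖cvT g s f y‖ ≤ ∑ a ∈ lvS L univ, ‖cvT g s (U a) y‖ := by
      intro y
      nth_rewrite 1 [hfU]
      rw [cvT_sum]
      exact norm_sum_le _ _
    simp only [hT]
    unfold gg
    refine (TT_mono (fun _ _ _ => avk_nonneg _ _ _) a1 x).trans (le_of_eq ?_)
    rw [TT_sum]
  have p2 : ∀ x, σ x ^ (-q) * (gg s (cvT g s f) x) ^ 2
      ≤ 14 ^ d * ∑ a ∈ lvS L univ, (XX a s)⁻¹ * (σ x ^ (-q) * T a x ^ 2) := by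
    intro x
    have b1 := pow_le_pow_left₀ (gg_nonneg s _ x) (p1 x) 2
    have b2 := b1.trans (cs_XX L s (fun a => T a x))
    have b3 := mul_le_mul_of_nonneg_left b2 (v0 x).le
    refine b3.trans (le_of_eq ?_)
    rw [mul_left_comm]
    congr 1
    rw [mul_sum]
    exact sum_congr rfl fun a _ => by ring
  set K := ((1600 * B) ^ d * 80 ^ d) with hK
  have K0 : 0 ≤ K := by positivity
  have p3 : ∀ a ∈ lvS L (univ : Finset ι), ∑ x, σ x ^ (-q) * T a x ^ 2
      ≤ (K ^ 2 * (10800 * A ^ 5) ^ d) * (XX a s ^ 4 * DC (hdy L) σ f q a) := by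
    intro a ha
    rw [mem_full] at ha
    have c1 : ∀ x, σ x ^ (-q) * T a x ^ 2 ≤ K ^ 2 * (σ x ^ (-q) *
        (TT (fun m => abk L (s m) (a m)) (fun y => ‖cc (hdy L) f a y‖) x) ^ 2) := by
      intro x
      have := pow_le_pow_left₀ (T0 a x) (block_le hg hs' ha (cc_BM f a) x) 2
      have := mul_le_mul_of_nonneg_left this (v0 x).le
      refine this.trans (le_of_eq ?_)
      rw [mul_pow]
      ring
    have c2 := sum_le_sum fun x (_ : x ∈ (univ : Finset (ι → ZMod (2 ^ L)))) => c1 x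
    rw [← mul_sum] at c2
    have c3 := ab_w hσ hq1 hq hs' ha (φ := fun y => ‖cc (hdy L) f a y‖)
      ((cc_BM f a).comp fun t => ‖t‖)
    have c4 := mul_le_mul_of_nonneg_left c3 (sq_nonneg K)
    refine (c2.trans c4).trans (le_of_eq ?_)
    unfold DC
    ring
  refine (sum_le_sum fun x _ => p2 x).trans ?_
  rw [← mul_sum, sum_comm]
  have p4 : ∀ a ∈ lvS L (univ : Finset ι), ∑ x, (XX a s)⁻¹ * (σ x ^ (-q) * T a x ^ 2)
      ≤ (K ^ 2 * (10800 * A ^ 5) ^ d) * (XX a s ^ 3 * DC (hdy L) σ f q a) := by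
    intro a ha
    rw [← mul_sum]
    have h0 := XX_pos a s
    refine (mul_le_mul_of_nonneg_left (p3 a ha) (by positivity)).trans (le_of_eq ?_)
    field_simp
  refine (mul_le_mul_of_nonneg_left (sum_le_sum p4) (by positivity)).trans (le_of_eq ?_)
  rw [← mul_sum]
  unfold CAd
  rw [← hd, ← hK]
  ring

end HD

end

section
/-!
Step B in every dimension.
-/

open Finset
open scoped Classical

set_option linter.unusedSectionVars false

namespace HD

open HC

variable {L : ℕ} {ι : Type} [Fintype ι] [DecidableEq ι]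

/-- shift -/
def shd {F : Type*} (ω : ι → ZMod (2 ^ L)) (f : (ι → ZMod (2 ^ L)) → F) :
    (ι → ZMod (2 ^ L)) → F := fun x => f (x + ω)

lemma cc_eq_TT (f : (ι → ZMod (2 ^ L)) → ℂ) (a : ι → ℕ) (x : ι → ZMod (2 ^ L)) :
    cc (hdy L) f a x = TT (fun m => ekh L (a m)) f x := by
  unfold cc EE TT
  refine sum_congr rfl fun z _ => ?_
  unfold ekh hh
  rw [smul_smul, ← prod_mul_distrib, smul_eq_mul, Complex.real_smul]
  congr 1
  push_cast
  rfl

lemma cc_cvT (g : ℝ → ℂ) (s : ι → ℕ) (u : (ι → ZMod (2 ^ L)) → ℂ) (a : ι → ℕ)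
    (x : ι → ZMod (2 ^ L)) :
    cc (hdy L) (cvT g s u) a x = TT (fun m => kc (ekh L (a m)) (cvk L g (s m))) u x := by
  rw [cc_eq_TT]
  unfold cvT
  rw [TT_comp]

lemma cc_cvT_le {g : ℝ → ℂ} {B : ℝ} (hg : Sm g B) {s a : ι → ℕ} (hs' : ∀ m, s m + 4 ≤ L)
    (ha : ∀ m, a m < L) (u : (ι → ZMod (2 ^ L)) → ℂ) (x : ι → ZMod (2 ^ L)) :
    ‖cc (hdy L) (cvT g s u) a x‖ ≤ ((3200 * B) ^ Fintype.card ι * XX a s ^ 4) *
      ∑ e : ι → Fin 4, gg s u (fun m => ept L (s m) (a m) (e m) (x m)) := by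
  have B0 := hg.sym.nonneg
  rw [cc_cvT]
  refine (norm_TT_le _ _ x).trans ?_
  have h1 : ∀ y : ι → ZMod (2 ^ L), ∏ m, ‖kc (ekh L (a m)) (cvk L g (s m)) (x m) (y m)‖
      ≤ ((3200 * B) ^ Fintype.card ι * XX a s ^ 4) * ∑ e : ι → Fin 4,
        ∏ m, avk L (s m) (ept L (s m) (a m) (e m) (x m)) (y m) := by
    intro y
    refine (prod_le_prod (fun m _ => norm_nonneg _) fun m _ =>
      ekh_cv hg (hs' m) (ha m) (x m) (y m)).trans (le_of_eq ?_)
    rw [prod_mul_distrib, prod_mul_distrib, half_XX, prod_const, card_univ, Finset.prod_univ_sum,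
      Fintype.piFinset_univ]
  unfold gg TT
  simp only [smul_eq_mul]
  calc ∑ y, (∏ m, ‖kc (ekh L (a m)) (cvk L g (s m)) (x m) (y m)‖) * ‖u y‖
      ≤ ∑ y, (((3200 * B) ^ Fintype.card ι * XX a s ^ 4) * ∑ e : ι → Fin 4,
        ∏ m, avk L (s m) (ept L (s m) (a m) (e m) (x m)) (y m)) * ‖u y‖ :=
        sum_le_sum fun y _ => mul_le_mul_of_nonneg_right (h1 y) (norm_nonneg _)
    _ = _ := by
        have e2 : ∀ y : ι → ZMod (2 ^ L), (((3200 * B) ^ Fintype.card ι * XX a s ^ 4) *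
            ∑ e : ι → Fin 4, ∏ m, avk L (s m) (ept L (s m) (a m) (e m) (x m)) (y m)) * ‖u y‖
            = ∑ e : ι → Fin 4, ((3200 * B) ^ Fintype.card ι * XX a s ^ 4) *
              ((∏ m, avk L (s m) (ept L (s m) (a m) (e m) (x m)) (y m)) * ‖u y‖) := by
          intro y
          rw [mul_assoc, sum_mul, mul_sum]
        rw [sum_congr rfl fun y _ => e2 y, sum_comm, mul_sum]
        refine sum_congr rfl fun e _ => ?_
        rw [mul_sum]

lemma TT_shift {p : ι → ZMod (2 ^ L) → ZMod (2 ^ L) → ℝ}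
    (hp : ∀ m x y w, p m (x + w) (y + w) = p m x y) (g : (ι → ZMod (2 ^ L)) → ℝ)
    (ω x : ι → ZMod (2 ^ L)) : TT p (fun y => g (y + ω)) x = TT p g (x + ω) := by
  unfold TT
  rw [← Equiv.sum_comp (Equiv.addRight ω) (fun y => (∏ m, p m ((x + ω) m) (y m)) • g y)]
  refine sum_congr rfl fun y _ => ?_
  simp only [Equiv.coe_addRight, Pi.add_apply, hp]

lemma TT_shiftC {p : ι → ZMod (2 ^ L) → ZMod (2 ^ L) → ℂ}
    (hp : ∀ m x y w, p m (x + w) (y + w) = p m x y) (g : (ι → ZMod (2 ^ L)) → ℂ)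
    (ω x : ι → ZMod (2 ^ L)) : TT p (fun y => g (y + ω)) x = TT p g (x + ω) := by
  unfold TT
  rw [← Equiv.sum_comp (Equiv.addRight ω) (fun y => (∏ m, p m ((x + ω) m) (y m)) • g y)]
  refine sum_congr rfl fun y _ => ?_
  simp only [Equiv.coe_addRight, Pi.add_apply, hp]

lemma avk_shift (s : ℕ) (x y w : ZMod (2 ^ L)) : avk L s (x + w) (y + w) = avk L s x y := by
  unfold avk
  rw [add_sub_add_right_eq_sub]

lemma cvk_shift (g : ℝ → ℂ) (s : ℕ) (x y w : ZMod (2 ^ L)) :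
    cvk L g s (x + w) (y + w) = cvk L g s x y := by
  unfold cvk
  rw [add_sub_add_right_eq_sub]

lemma gg_shd (s : ι → ℕ) (u : (ι → ZMod (2 ^ L)) → ℂ) (ω x : ι → ZMod (2 ^ L)) :
    gg s (shd ω u) x = gg s u (x + ω) :=
  TT_shift (fun m x y w => avk_shift (s m) x y w) (fun y => ‖u y‖) ω x

lemma cvT_shd (g : ℝ → ℂ) (s : ι → ℕ) (u : (ι → ZMod (2 ^ L)) → ℂ) (ω x : ι → ZMod (2 ^ L)) :
    cvT g s (shd ω u) x = cvT g s u (x + ω) :=
  TT_shiftC (fun m x y w => cvk_shift g (s m) x y w) u ω x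

lemma avk_slow (s : ℕ) (x a y : ZMod (2 ^ L)) (ha : nrm a ≤ ell L s) :
    avk L s (x + a) y ≤ 4 * avk L s x y := by
  have h := Av_slow4 (ell_pos' L s) (h := dlt y) (fun z => dlt_nonneg y z) x a ha
  rw [Av_eq_k, Av_eq_k] at h
  simpa [dlt] using h

/-- slow variation in each variable -/
lemma gg_slow (s : ι → ℕ) (u : (ι → ZMod (2 ^ L)) → ℂ) (x : ι → ZMod (2 ^ L)) (m : ι)
    (t a : ZMod (2 ^ L)) (ha : nrm a ≤ ell L (s m)) :
    gg s u (Function.update x m (t + a)) ≤ 4 * gg s u (Function.update x m t) := by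
  unfold gg TT
  rw [mul_sum]
  refine sum_le_sum fun y _ => ?_
  rw [smul_eq_mul, smul_eq_mul, ← mul_assoc]
  refine mul_le_mul_of_nonneg_right ?_ (norm_nonneg _)
  have key : ∀ v, ∏ m', avk L (s m') (Function.update x m v m') (y m')
      = avk L (s m) v (y m) * ∏ m' ∈ univ.erase m, avk L (s m') (x m') (y m') := by
    intro v
    rw [← mul_prod_erase univ _ (mem_univ m), Function.update_self]
    congr 1
    refine prod_congr rfl fun m' hm' => ?_
    rw [Function.update_of_ne (ne_of_mem_erase hm')]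
  rw [key, key, ← mul_assoc]
  refine mul_le_mul_of_nonneg_right (avk_slow (s m) t a (y m) ha) ?_
  exact prod_nonneg fun m' _ => avk_nonneg _ _ _

section ev

/-- partially shifted points -/
def xS (S : Finset ι) (z : ι → ZMod (2 ^ L) × ZMod (2 ^ L)) : ι → ZMod (2 ^ L) :=
  fun m => if m ∈ S then (z m).2 + (z m).1 else (z m).2

/-- partially shifted endpoints -/
def yS (s a : ι → ℕ) (e : ι → Fin 4) (S : Finset ι) (z : ι → ZMod (2 ^ L) × ZMod (2 ^ L)) :
    ι → ZMod (2 ^ L) :=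
  fun m => if m ∈ S then ept L (s m) (a m) (e m) (z m).2 + (z m).1 else (z m).2

lemma xS_insert {S : Finset ι} {m : ι} (z : ι → ZMod (2 ^ L) × ZMod (2 ^ L))
    (t : ZMod (2 ^ L) × ZMod (2 ^ L)) :
    xS (insert m S) (Function.update z m t) = Function.update (xS S z) m (t.2 + t.1) := by
  ext m'
  by_cases e : m' = m
  · subst e; simp [xS]
  · simp [xS, e]

lemma xS_not {S : Finset ι} {m : ι} (hm : m ∉ S) (z : ι → ZMod (2 ^ L) × ZMod (2 ^ L))
    (t : ZMod (2 ^ L) × ZMod (2 ^ L)) :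
    xS S (Function.update z m t) = Function.update (xS S z) m t.2 := by
  ext m'
  by_cases e : m' = m
  · subst e; simp [xS, hm]
  · simp [xS, e]

lemma yS_insert {s a : ι → ℕ} {e : ι → Fin 4} {S : Finset ι} {m : ι}
    (z : ι → ZMod (2 ^ L) × ZMod (2 ^ L)) (t : ZMod (2 ^ L) × ZMod (2 ^ L)) :
    yS s a e (insert m S) (Function.update z m t)
      = Function.update (yS s a e S z) m (ept L (s m) (a m) (e m) t.2 + t.1) := by
  ext m'
  by_cases h : m' = m
  · subst h; simp [yS]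
  · simp [yS, h]

lemma yS_not {s a : ι → ℕ} {e : ι → Fin 4} {S : Finset ι} {m : ι} (hm : m ∉ S)
    (z : ι → ZMod (2 ^ L) × ZMod (2 ^ L)) (t : ZMod (2 ^ L) × ZMod (2 ^ L)) :
    yS s a e S (Function.update z m t) = Function.update (yS s a e S z) m t.2 := by
  ext m'
  by_cases h : m' = m
  · subst h; simp [yS, hm]
  · simp [yS, h]

lemma evd_aux [Nonempty ι] {σ : (ι → ZMod (2 ^ L)) → ℝ} {A q : ℝ} (hσ : AA σ A) (hq0 : 0 ≤ q)
    (hq : q ≤ 5/4) {s a : ι → ℕ} (hs : ∀ m, s m ≤ L) (u : (ι → ZMod (2 ^ L)) → ℂ) (e : ι → Fin 4)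
    (S : Finset ι) :
    ∑ z : ι → ZMod (2 ^ L) × ZMod (2 ^ L), σ (xS S z) ^ (-q) * (gg s u (yS s a e S z)) ^ 2
      ≤ (∏ m ∈ S, 64 * A ^ 2 * ((2:ℝ) ^ q) ^ (s m - a m)) *
        ∑ z : ι → ZMod (2 ^ L) × ZMod (2 ^ L), σ (xS ∅ z) ^ (-q) * (gg s u (yS s a e ∅ z)) ^ 2 := by
  have hA := hσ.one
  induction S using Finset.induction_on with
  | empty => rw [prod_empty, one_mul]
  | insert m S hm ih =>
    rw [prod_insert hm, mul_assoc]
    refine le_trans ?_ (mul_le_mul_of_nonneg_left ih (by positivity))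
    rw [mul_sum]
    refine slice_le m (Φ := fun z => σ (xS (insert m S) z) ^ (-q)
      * (gg s u (yS s a e (insert m S) z)) ^ 2) (Ψ := fun z =>
        64 * A ^ 2 * ((2:ℝ) ^ q) ^ (s m - a m) * (σ (xS S z) ^ (-q)
          * (gg s u (yS s a e S z)) ^ 2)) fun z => ?_
    simp only [xS_insert, yS_insert, xS_not hm, yS_not hm]
    rw [Fintype.sum_prod_type, Fintype.sum_prod_type]
    have h1 := (hσ m (xS S z)).ev hq0 hq (i := a m) (hs m)
      (H := fun t => gg s u (Function.update (yS s a e S z) m t))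
      (fun t => gg_nonneg _ _ _) (fun t b hb => gg_slow s u _ m t b hb) (e m)
    refine h1.trans (le_of_eq ?_)
    simp only [← mul_sum, sum_const, card_univ, ZMod.card, nsmul_eq_mul]
    push_cast
    ring

lemma sum_pairs (F : (ι → ZMod (2 ^ L)) → (ι → ZMod (2 ^ L)) → ℝ) :
    ∑ z : ι → ZMod (2 ^ L) × ZMod (2 ^ L), F (fun m => (z m).1) (fun m => (z m).2)
      = ∑ ω, ∑ x, F ω x := by
  rw [← Fintype.sum_prod_type (f := fun p : (ι → ZMod (2 ^ L)) × (ι → ZMod (2 ^ L)) => F p.1 p.2)]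
  exact Fintype.sum_equiv (Equiv.arrowProdEquivProdArrow ι (fun _ => ZMod (2 ^ L))
    (fun _ => ZMod (2 ^ L))) _ _ (fun z => rfl)

lemma evd [Nonempty ι] {σ : (ι → ZMod (2 ^ L)) → ℝ} {A q : ℝ} (hσ : AA σ A) (hq0 : 0 ≤ q)
    (hq : q ≤ 5/4) {s a : ι → ℕ} (hs : ∀ m, s m ≤ L) (u : (ι → ZMod (2 ^ L)) → ℂ) (e : ι → Fin 4) :
    ∑ ω : ι → ZMod (2 ^ L), ∑ x : ι → ZMod (2 ^ L), σ (x + ω) ^ (-q)
        * (gg s u ((fun m => ept L (s m) (a m) (e m) (x m)) + ω)) ^ 2
      ≤ (∏ m, 64 * A ^ 2 * ((2:ℝ) ^ q) ^ (s m - a m)) *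
        (Fintype.card (ι → ZMod (2 ^ L)) * ∑ x, σ x ^ (-q) * (gg s u x) ^ 2) := by
  have h := evd_aux hσ hq0 hq (a := a) hs u e univ
  have e1 := sum_pairs (L := L) (fun ω x => σ (x + ω) ^ (-q)
        * (gg s u ((fun m => ept L (s m) (a m) (e m) (x m)) + ω)) ^ 2)
  have e2 := sum_pairs (L := L) (fun (_ : ι → ZMod (2 ^ L)) x => σ x ^ (-q) * (gg s u x) ^ 2)
  rw [← e1]
  have e3 : ∑ _ω : ι → ZMod (2 ^ L), ∑ x, σ x ^ (-q) * (gg s u x) ^ 2
      = Fintype.card (ι → ZMod (2 ^ L)) * ∑ x, σ x ^ (-q) * (gg s u x) ^ 2 := by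
    rw [sum_const, card_univ, nsmul_eq_mul]
  rw [← e3, ← e2]
  refine le_trans (le_of_eq ?_) (h.trans (le_of_eq ?_))
  · refine sum_congr rfl fun z _ => ?_
    have f1 : xS univ z = (fun m => (z m).2) + fun m => (z m).1 := by
      ext m; simp [xS]
    have f2 : yS s a e univ z = (fun m => ept L (s m) (a m) (e m) (z m).2) + fun m => (z m).1 := by
      ext m; simp [yS]
    rw [f1, f2]
  · congr 1

end ev

/-- the constant of step B -/
noncomputable def CBd (ι : Type) [Fintype ι] (B A : ℝ) : ℝ :=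
  14 ^ Fintype.card ι * (((3200 * B) ^ Fintype.card ι) ^ 2
    * ((16:ℝ) ^ Fintype.card ι * (64 * A ^ 2) ^ Fintype.card ι))

lemma cc_add (f g : (ι → ZMod (2 ^ L)) → ℂ) (a : ι → ℕ) (x : ι → ZMod (2 ^ L)) :
    cc (hdy L) (fun x => f x + g x) a x = cc (hdy L) f a x + cc (hdy L) g a x := by
  rw [cc_eq_TT, cc_eq_TT, cc_eq_TT, TT_add]

lemma cc_sum {κ : Type*} (S : Finset κ) (u : κ → (ι → ZMod (2 ^ L)) → ℂ) (a : ι → ℕ)
    (x : ι → ZMod (2 ^ L)) :
    cc (hdy L) (fun x => ∑ k ∈ S, u k x) a x = ∑ k ∈ S, cc (hdy L) (u k) a x := by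
  simp only [cc_eq_TT, TT_sum]

lemma cc_mul (c : ℂ) (u : (ι → ZMod (2 ^ L)) → ℂ) (a : ι → ℕ)
    (x : ι → ZMod (2 ^ L)) :
    cc (hdy L) (fun x => c * u x) a x = c * cc (hdy L) u a x := by
  simp only [cc_eq_TT, TT_mul]

theorem stepBd [Nonempty ι] {g : ℝ → ℂ} {B : ℝ} (hg : Sm g B) {N : ℕ} (hN : N + 3 ≤ L)
    {σ : (ι → ZMod (2 ^ L)) → ℝ} {A q : ℝ} (hσ : AA σ A) (hq0 : 0 ≤ q) (hq : q ≤ 5/4)
    (c : (ι → ℕ) → ℝ) (u : (ι → ℕ) → (ι → ZMod (2 ^ L)) → ℂ)
    {a : ι → ℕ} (ha : ∀ m, a m < L) :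
    ∑ ω, DC (hdy L) (shd ω σ) (shd ω (fun x => ∑ s ∈ lvS N (univ : Finset ι),
        (c s : ℂ) * cvT g s (u s) x)) q a
      ≤ Fintype.card (ι → ZMod (2 ^ L)) * (CBd ι B A * ∑ s ∈ lvS N (univ : Finset ι),
        (XX s a)⁻¹ * (c s ^ 2 * ((∏ m, th (a m) (s m))
          * ∑ x, σ x ^ (-q) * (gg s (u s) x) ^ 2))) := by
  have B0 := hg.sym.nonneg
  have hA := hσ.one
  set d := Fintype.card ι with hd
  have v0 : ∀ x, 0 < σ x ^ (-q) := fun x => Real.rpow_pos_of_pos (hσ.pos x) _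
  set W : (ι → ZMod (2 ^ L)) → ℂ := fun x => ∑ s ∈ lvS N (univ : Finset ι),
        (c s : ℂ) * cvT g s (u s) x with hW
  set K : (ι → ℕ) → ℝ := fun s => (3200 * B) ^ d * XX a s ^ 4 with hK
  have K0 : ∀ s, 0 ≤ K s := fun s => by have := XX_pos a s; positivity
  have sb : ∀ s ∈ lvS N (univ : Finset ι), ∀ m, s m < N := fun s hs => (mem_full).1 hs
  -- pointwise bound
  have p1 : ∀ ω x, ‖cc (hdy L) (shd ω W) a x‖ ≤ ∑ s ∈ lvS N (univ : Finset ι),
      |c s| * (K s * ∑ e : ι → Fin 4,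
        gg s (u s) ((fun m => ept L (s m) (a m) (e m) (x m)) + ω)) := by
    intro ω x
    have e1 : shd ω W = fun x => ∑ s ∈ lvS N (univ : Finset ι),
        (c s : ℂ) * cvT g s (shd ω (u s)) x := by
      ext x
      simp only [shd, hW]
      refine sum_congr rfl fun s _ => ?_
      have := cvT_shd g s (u s) ω x
      unfold shd at this
      rw [← this]
      rfl
    rw [e1, cc_sum]
    refine (norm_sum_le _ _).trans (sum_le_sum fun s hs => ?_)
    have e2 : cc (hdy L) (fun x => (c s : ℂ) * cvT g s (shd ω (u s)) x) a x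
        = (c s : ℂ) * cc (hdy L) (cvT g s (shd ω (u s))) a x := cc_mul _ _ _ _
    rw [e2, norm_mul, Complex.norm_real, Real.norm_eq_abs]
    refine mul_le_mul_of_nonneg_left ?_ (abs_nonneg _)
    refine (cc_cvT_le hg (fun m => by have := sb s hs m; omega) ha _ x).trans (le_of_eq ?_)
    simp only [hK, gg_shd]
    rfl
  -- squared
  have p2 : ∀ ω x, ‖cc (hdy L) (shd ω W) a x‖ ^ 2 ≤ 14 ^ d * ∑ s ∈ lvS N (univ : Finset ι),
      (XX s a)⁻¹ * (c s ^ 2 * (K s ^ 2 * (4 ^ d * ∑ e : ι → Fin 4,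
        (gg s (u s) ((fun m => ept L (s m) (a m) (e m) (x m)) + ω)) ^ 2))) := by
    intro ω x
    have h1 := pow_le_pow_left₀ (norm_nonneg _) (p1 ω x) 2
    refine h1.trans ((cs_XX N a _).trans ?_)
    refine mul_le_mul_of_nonneg_left ?_ (by positivity)
    refine sum_le_sum fun s _ => ?_
    refine mul_le_mul_of_nonneg_left ?_ (by have := XX_pos s a; positivity)
    rw [mul_pow, mul_pow, sq_abs]
    refine mul_le_mul_of_nonneg_left ?_ (sq_nonneg _)
    refine mul_le_mul_of_nonneg_left ?_ (sq_nonneg _)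
    have := sq_sum_le_card_mul_sum_sq (s := (univ : Finset (ι → Fin 4)))
      (f := fun e => gg s (u s) ((fun m => ept L (s m) (a m) (e m) (x m)) + ω))
    refine this.trans (le_of_eq ?_)
    rw [card_univ, Fintype.card_fun, Fintype.card_fin]
    push_cast
    rfl
  have p3 : ∀ ω x, shd ω σ x ^ (-q) * ‖cc (hdy L) (shd ω W) a x‖ ^ 2
      ≤ ∑ s ∈ lvS N (univ : Finset ι), (14 ^ d * (XX s a)⁻¹ * (c s ^ 2 * (K s ^ 2 * 4 ^ d)))
        * ∑ e : ι → Fin 4, (σ (x + ω) ^ (-q)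
          * (gg s (u s) ((fun m => ept L (s m) (a m) (e m) (x m)) + ω)) ^ 2) := by
    intro ω x
    have h1 := mul_le_mul_of_nonneg_left (p2 ω x) (v0 (x + ω)).le
    refine h1.trans (le_of_eq ?_)
    simp only [mul_sum]
    refine sum_congr rfl fun s _ => sum_congr rfl fun e _ => ?_
    ring
  have p4 := sum_le_sum fun ω (_ : ω ∈ (univ : Finset (ι → ZMod (2 ^ L)))) =>
    sum_le_sum fun x (_ : x ∈ (univ : Finset (ι → ZMod (2 ^ L)))) => p3 ω x
  refine p4.trans ?_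
  have comm : ∀ (Φ : (ι → ℕ) → (ι → ZMod (2 ^ L)) → (ι → ZMod (2 ^ L)) → ℝ),
      ∑ ω, ∑ x, ∑ s ∈ lvS N (univ : Finset ι), Φ s ω x
        = ∑ s ∈ lvS N (univ : Finset ι), ∑ ω, ∑ x, Φ s ω x := by
    intro Φ
    rw [sum_congr rfl fun ω _ => sum_comm, sum_comm]
  rw [comm, mul_sum, mul_sum]
  refine sum_le_sum fun s hs => ?_
  have hsL := sb s hs
  set S := ∑ x, σ x ^ (-q) * (gg s (u s) x) ^ 2 with hS
  have S0 : 0 ≤ S := sum_nonneg fun x _ => mul_nonneg (v0 x).le (sq_nonneg _)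
  have comm2 : ∀ (C : ℝ) (Φ : (ι → Fin 4) → (ι → ZMod (2 ^ L)) → (ι → ZMod (2 ^ L)) → ℝ),
      ∑ ω, ∑ x, C * ∑ e : ι → Fin 4, Φ e ω x
        = C * ∑ e : ι → Fin 4, ∑ ω, ∑ x, Φ e ω x := by
    intro C Φ
    simp only [← mul_sum]
    congr 1
    rw [sum_congr rfl fun ω _ => sum_comm, sum_comm]
  rw [comm2]
  have q1 : ∑ e : ι → Fin 4, ∑ ω, ∑ x, σ (x + ω) ^ (-q)
        * (gg s (u s) ((fun m => ept L (s m) (a m) (e m) (x m)) + ω)) ^ 2
      ≤ 4 ^ d * ((∏ m, 64 * A ^ 2 * ((2:ℝ) ^ q) ^ (s m - a m)) *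
        (Fintype.card (ι → ZMod (2 ^ L)) * S)) := by
    refine (sum_le_sum fun e _ =>
      evd hσ hq0 hq (fun m => by have := hsL m; omega) (u s) e).trans (le_of_eq ?_)
    rw [sum_const, card_univ, Fintype.card_fun, Fintype.card_fin, nsmul_eq_mul]
    push_cast
    rfl
  have q2 := mul_le_mul_of_nonneg_left q1 (show 0 ≤ 14 ^ d * (XX s a)⁻¹
        * (c s ^ 2 * (K s ^ 2 * 4 ^ d)) by have := XX_pos s a; positivity)
  refine q2.trans ?_
  have t1 : (XX a s ^ 4) ^ 2 * ∏ m, ((2:ℝ) ^ q) ^ (s m - a m) ≤ ∏ m, th (a m) (s m) := by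
    rw [← half_XX, ← prod_pow, ← prod_mul_distrib]
    exact prod_le_prod (fun m _ => by positivity) fun m _ => th_le hq (a m) (s m)
  have e16 : (16:ℝ) ^ d = 4 ^ d * 4 ^ d := by rw [← mul_pow]; norm_num
  calc 14 ^ d * (XX s a)⁻¹ * (c s ^ 2 * (K s ^ 2 * 4 ^ d)) * (4 ^ d
        * ((∏ m, 64 * A ^ 2 * ((2:ℝ) ^ q) ^ (s m - a m)) * (Fintype.card (ι → ZMod (2 ^ L)) * S)))
      = (Fintype.card (ι → ZMod (2 ^ L)) * CBd ι B A * (XX s a)⁻¹ * c s ^ 2 * S)
        * ((XX a s ^ 4) ^ 2 * ∏ m, ((2:ℝ) ^ q) ^ (s m - a m)) := by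
        rw [prod_mul_distrib, prod_const, card_univ, ← hd]
        simp only [hK]
        unfold CBd
        rw [← hd, e16]
        ring
    _ ≤ (Fintype.card (ι → ZMod (2 ^ L)) * CBd ι B A * (XX s a)⁻¹ * c s ^ 2 * S)
        * ∏ m, th (a m) (s m) := by
        refine mul_le_mul_of_nonneg_left t1 ?_
        have := XX_pos s a
        unfold CBd
        positivity
    _ = _ := by ring

end HD

end

section
/-!
Existence of the majorizing weight in every dimension.
-/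

open Finset
open scoped Classical

set_option linter.unusedSectionVars false

namespace HD

open HC

lemma upd_add {ι G : Type} [DecidableEq ι] [AddCommGroup G] (x : ι → G) (m : ι) (v : G) :
    x + Pi.single m v = Function.update x m (x m + v) := by
  ext m'
  by_cases e : m' = m
  · subst e; simp
  · simp [e]

/-- **Existence of the weight.** -/
theorem exists_weightD (ι : Type) [Fintype ι] [DecidableEq ι] [Nonempty ι] {q : ℝ} (hq : 1 < q) :
    ∃ A : ℝ, 1 ≤ A ∧ ∀ (L : ℕ) (f : (ι → ZMod (2 ^ L)) → ℝ),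
      (∀ x, 0 ≤ f x) → 0 < ∑ x, f x →
      ∃ σ : (ι → ZMod (2 ^ L)) → ℝ, (∀ x, f x ≤ σ x ^ q) ∧
        ∑ x, σ x ^ q ≤ (2 ^ q * (2 * 2 ^ q)) * ∑ x, f x ∧ AA σ A := by
  have hq0 : 0 < q := by linarith
  have hq1 : 0 < q - 1 := by linarith
  have hcard : (1:ℝ) ≤ Fintype.card (ι × Bool) := by
    exact_mod_cast Fintype.card_pos
  have hA1 : 1 ≤ (4 * (Fintype.card (ι × Bool) * (q / (q - 1)))) := by
    have : 1 ≤ q / (q - 1) := by rw [le_div_iff₀ hq1]; linarith
    nlinarith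
  refine ⟨4 * (Fintype.card (ι × Bool) * (q / (q - 1))), hA1, ?_⟩
  intro L f hf hpos
  have hN : 1 ≤ 2 ^ L := Nat.one_le_two_pow
  set S := ∑ x, f x with hS
  set M : ℝ := ((Fintype.card (ι → ZMod (2 ^ L)) : ℕ) : ℝ) with hM
  have hM0 : 0 < M := by
    rw [hM]; exact_mod_cast Fintype.card_pos
  set c : ℝ := (S / M) ^ (1/q) with hc
  have hc0 : 0 < c := Real.rpow_pos_of_pos (by positivity) _
  have hcq : c ^ q = S / M := by
    rw [hc, ← Real.rpow_mul (by positivity)]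
    have : 1 / q * q = 1 := by field_simp
    rw [this, Real.rpow_one]
  set g : (ι → ZMod (2 ^ L)) → ℝ := fun p => (f p) ^ (1/q) + c with hg
  have hgc : ∀ p, c ≤ g p := fun p => by
    have : 0 ≤ (f p) ^ (1/q) := Real.rpow_nonneg (hf _) _
    simp only [hg]; linarith
  have hgq : ∑ p, g p ^ q ≤ 2 * 2 ^ q * S := by
    have h1 : ∀ p, g p ^ q ≤ 2 ^ q * (f p + c ^ q) := by
      intro p
      have a0 : 0 ≤ (f p) ^ (1/q) := Real.rpow_nonneg (hf _) _
      have e1 : ((f p) ^ (1/q)) ^ q = f p := by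
        rw [← Real.rpow_mul (hf _)]
        have : 1 / q * q = 1 := by field_simp
        rw [this, Real.rpow_one]
      have e2 : g p ≤ 2 * max ((f p) ^ (1/q)) c := by
        have := le_max_left ((f p) ^ (1/q)) c
        have := le_max_right ((f p) ^ (1/q)) c
        simp only [hg]; linarith
      calc g p ^ q ≤ (2 * max ((f p) ^ (1/q)) c) ^ q :=
            Real.rpow_le_rpow (hc0.le.trans (hgc p)) e2 hq0.le
        _ = 2 ^ q * (max ((f p) ^ (1/q)) c) ^ q :=
            Real.mul_rpow (by norm_num) (le_max_of_le_left a0)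
        _ ≤ 2 ^ q * (f p + c ^ q) := by
            refine mul_le_mul_of_nonneg_left ?_ (by positivity)
            rcases max_choice ((f p) ^ (1/q)) c with h | h
            · rw [h, e1]
              have : 0 ≤ c ^ q := by positivity
              linarith
            · rw [h]
              have := hf p
              linarith
    have h2 : ∑ p : ι → ZMod (2 ^ L), (f p + c ^ q) = 2 * S := by
      rw [sum_add_distrib, sum_const, card_univ, hcq, nsmul_eq_mul, ← hM, ← hS]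
      field_simp
      ring
    calc ∑ p, g p ^ q ≤ ∑ p : ι → ZMod (2 ^ L), 2 ^ q * (f p + c ^ q) :=
          sum_le_sum fun p _ => h1 p
      _ = _ := by rw [← mul_sum, h2]; ring
  set dirs : ι × Bool → (ι → ZMod (2 ^ L)) := fun i => Pi.single i.1 (if i.2 then 1 else -1)
    with hdirs
  set T : ι × Bool → Equiv.Perm (ι → ZMod (2 ^ L)) := fun i => Equiv.addRight (dirs i) with hT
  obtain ⟨σ, h1, h2, h3⟩ := rdf T (2 ^ L - 1) hq hc0 hgc
  have hTN : ∀ i x, ((T i) ^ (2 ^ L)) x = x := by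
    intro i x
    simp only [hT]
    rw [addRight_pow]
    have : (2 ^ L) • dirs i = 0 := by
      have e1 : ∀ v : ZMod (2 ^ L), (2 ^ L) • v = 0 := by
        intro v
        have := ZMod.natCast_self (2 ^ L)
        rw [nsmul_eq_mul, this, zero_mul]
      ext m
      rw [Pi.smul_apply, e1]
      rfl
    rw [this, add_zero]
  have key : ∀ i x l, 1 ≤ l → orb (T i) l σ x
      ≤ (4 * (Fintype.card (ι × Bool) * (q / (q - 1)))) * l * σ x := fun i x l hl =>
    orb_all hN (hTN i) (fun x l h4 h5 => h3 i x l h4 (by omega)) x l hl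
  have σpos : ∀ p, 0 < σ p := fun p => lt_of_lt_of_le hc0 ((hgc p).trans (h1 p))
  refine ⟨σ, ?_, ?_, ?_⟩
  · intro x
    have e1 : (f x) ^ (1/q) ≤ σ x := by
      refine le_trans ?_ (h1 x)
      simp only [hg]; linarith
    have := Real.rpow_le_rpow (Real.rpow_nonneg (hf _) _) e1 hq0.le
    rw [← Real.rpow_mul (hf _)] at this
    have e : 1 / q * q = 1 := by field_simp
    rwa [e, Real.rpow_one] at this
  · calc ∑ x, σ x ^ q ≤ 2 ^ q * ∑ p, g p ^ q := h2
      _ ≤ 2 ^ q * (2 * 2 ^ q * S) := mul_le_mul_of_nonneg_left hgq (by positivity)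
      _ = _ := by ring
  · intro m x
    refine ⟨fun t => σpos _, hA1, fun t l hl => ?_, fun t l hl => ?_⟩
    · have := key (m, true) (Function.update x m t) l hl
      unfold orb at this
      simp only [hT, addRight_pow, hdirs, if_true] at this
      refine le_trans (le_of_eq ?_) this
      refine sum_congr rfl fun k _ => ?_
      congr 1
      rw [← Pi.single_smul, upd_add, Function.update_self, Function.update_idem]
      simp
    · have := key (m, false) (Function.update x m t) l hl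
      unfold orb at this
      simp only [hT, addRight_pow, hdirs] at this
      refine le_trans (le_of_eq ?_) this
      refine sum_congr rfl fun k _ => ?_
      congr 1
      simp only [Bool.false_eq_true, if_false]
      rw [← Pi.single_smul, upd_add, Function.update_self, Function.update_idem]
      simp [sub_eq_add_neg]

end HD

end
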