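import Pool.Agent.Helper61.HD.Theta

section
/-!
The corrected cut-off and the decomposition of the coefficients.
-/

open Finset
open scoped Classical

set_option linter.unusedSectionVars false

namespace HD

variable {X : Type} [Fintype X] [DecidableEq X] {ι : Type} [Fintype ι] [DecidableEq ι]

lemma mem_full {L : ℕ} {a : ι → ℕ} : a ∈ lvS L (univ : Finset ι) ↔ ∀ m, a m < L := by
  rw [mem_lvS]
  exact ⟨fun h m => h.1 m (mem_univ m), fun h => ⟨fun m _ => h m, fun m hm => absurd (mem_univ m) hm⟩⟩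

lemma rs_mem' {L : ℕ} {a : ι → ℕ} (ha : ∀ m, a m < L) (T : Finset ι) : rs L T a ∈ lvS L T := by
  rw [mem_lvS]
  refine ⟨fun m hm => ?_, fun m hm => ?_⟩
  · unfold rs; rw [if_pos hm]; exact ha m
  · unfold rs; rw [if_neg hm]

lemma le_rs {L : ℕ} {a : ι → ℕ} (ha : ∀ m, a m < L) (T : Finset ι) : a ≤ rs L T a := by
  intro m
  unfold rs
  split_ifs
  · exact le_rfl
  · exact (ha m).le

/-- the coefficient -/
noncomputable def cc {F : Type} [AddCommGroup F] [Module ℝ F] (D : HDy X) (f : (ι → X) → F)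
    (a : ι → ℕ) (x : ι → X) : F := EE D.toDy a (fun y => hh D univ a y • f y) x

/-- the corrected cut-off -/
noncomputable def Xi (D : HDy X) (θ : Finset ι → (ι → ℕ) → (ι → X) → ℝ) (a : ι → ℕ)
    (x : ι → X) : ℝ :=
  ∑ T ∈ (univ : Finset ι).powerset, (-1) ^ T.card * (hh D Tᶜ a x * θ T (rs D.L T a) x)

variable {D : HDy X} {σ : (ι → X) → ℝ} {A s : ℝ} {θ : Finset ι → (ι → ℕ) → (ι → X) → ℝ}

/-- all the marginals of the corrected cut-off vanish -/
lemma Xi_marg (h : Th D σ A s θ) {a : ι → ℕ} (ha : ∀ m, a m < D.L) (m : ι) (x : ι → X) :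
    EE D.toDy (em D.L m (a m)) (Xi D θ a) x = 0 := by
  have e0 : Xi D θ a = fun x => ∑ T ∈ (univ.erase m).powerset,
      ((-1) ^ T.card * (hh D Tᶜ a x * θ T (rs D.L T a) x)
        + (-1) ^ (insert m T).card * (hh D (insert m T)ᶜ a x *
          θ (insert m T) (rs D.L (insert m T) a) x)) := by
    ext x
    unfold Xi
    rw [← insert_erase (mem_univ m), sum_powerset_insert (notMem_erase m univ), ← sum_add_distrib]
    rw [insert_erase (mem_univ m)]
  rw [e0, EE_sum]
  refine sum_eq_zero fun T hT => ?_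
  rw [mem_powerset] at hT
  have hmT : m ∉ T := fun h => (mem_erase.1 (hT h)).1 rfl
  rw [EE_add, EE_mul, EE_mul]
  have hc : Tᶜ = insert m (insert m T)ᶜ := by
    ext m'
    simp only [mem_compl, mem_insert]
    by_cases e : m' = m
    · subst e; simp [hmT]
    · simp [e]
  have hmc : m ∉ (insert m T)ᶜ := by simp
  have b : BM D.toDy (em D.L m (a m)) (hh D (insert m T)ᶜ a) := hh_BM_em hmc (fun m' _ => ha m') _
  have e1 : EE D.toDy (em D.L m (a m)) (fun y => hh D Tᶜ a y * θ T (rs D.L T a) y) x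
      = hh D (insert m T)ᶜ a x * EE D.toDy (em D.L m (a m))
        (fun y => D.h (a m) (y m) * θ T (rs D.L T a) y) x := by
    rw [← EE_BM_mul b]
    congr 1
    ext y
    rw [hc, hh_insert hmc]; ring
  have e2 := h.marg (insert m T) (rs D.L (insert m T) a) (rs_mem' ha _) m (mem_insert_self _ _) x
  have e3 : rs D.L (insert m T) a m = a m := by unfold rs; rw [if_pos (mem_insert_self _ _)]
  have e4 : Function.update (rs D.L (insert m T) a) m D.L = rs D.L T a := by
    ext m'
    by_cases e : m' = m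
    · subst e
      rw [Function.update_self]; unfold rs; rw [if_neg hmT]
    · rw [Function.update_of_ne e]; unfold rs; simp [e]
  rw [e3, erase_insert hmT, e4] at e2
  rw [e1, EE_BM_mul b, e2, card_insert_of_notMem hmT, pow_succ]
  ring

/-- pairing with a function with zero means -/
lemma EE_f_Xi (h : Th D σ A s θ) {f : (ι → X) → ℝ}
    (hf : ∀ m x, EE D.toDy (em D.L m 0) f x = 0) {a : ι → ℕ} (ha : ∀ m, a m < D.L) (x : ι → X) :
    EE D.toDy a (fun y => f y * Xi D θ a y) x
      = ∑ b ∈ (lvS D.L univ).filter (fun b => a ≤ b),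
        EE D.toDy a (fun y => cc D f b y * EE D.toDy b (fun z => hh D univ b z * Xi D θ a z) y) x := by
  have e0 : (fun y => f y * Xi D θ a y) = fun y => ∑ b ∈ lvS D.L univ,
      (hh D univ b y * cc D f b y) * Xi D θ a y := by
    ext y
    nth_rewrite 1 [expansion hf y]
    rw [sum_mul]
    rfl
  rw [e0, EE_sum, sum_filter]
  refine sum_congr rfl fun b hb => ?_
  rw [mem_full] at hb
  split_ifs with hab
  · rw [← EE_EE_le hab]
    congr 1
    ext y
    have b0 : BM D.toDy b (cc D f b) := EE_BM b _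
    rw [← EE_BM_mul b0]
    refine EE_congr fun z _ => ?_
    ring
  · -- some coordinate is coarser
    have : ∃ m, b m < a m := by
      by_contra hc
      push Not at hc
      exact hab hc
    obtain ⟨m, hm⟩ := this
    rw [← EE_EE_le (le_em (fun m => (ha m).le) m)]
    have b1 : BM D.toDy (em D.L m (a m)) (hh D univ b) := by
      refine hh_BM (fun m' _ => hb m') fun m' _ => ?_
      unfold em
      by_cases e : m' = m
      · subst e; rw [Function.update_self]; exact hm
      · rw [Function.update_of_ne e]; exact hb m'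
    have b2 : BM D.toDy (em D.L m (a m)) (cc D f b) := by
      refine (EE_BM b _).mono ?_
      intro m'
      unfold em
      by_cases e : m' = m
      · subst e; rw [Function.update_self]; exact hm.le
      · rw [Function.update_of_ne e]; exact (hb m').le
    have e1 : EE D.toDy (em D.L m (a m)) (fun y => (hh D univ b y * cc D f b y) * Xi D θ a y)
        = fun _ => 0 := by
      ext y
      rw [EE_BM_mul (b1.comp₂ b2 fun s t => s * t), Xi_marg h ha, mul_zero]
    rw [e1, EE_zero]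

/-- decomposition of the coefficients -/
lemma decomp (h : Th D σ A s θ) {f : (ι → X) → ℝ}
    (hf : ∀ m x, EE D.toDy (em D.L m 0) f x = 0) {a : ι → ℕ} (ha : ∀ m, a m < D.L) (x : ι → X) :
    cc D f a x = EE D.toDy a (fun y => hh D univ a y * (f y * (1 - bad σ s y))) x
      + (∑ b ∈ (lvS D.L univ).filter (fun b => a ≤ b),
        EE D.toDy a (fun y => cc D f b y * EE D.toDy b (fun z => hh D univ b z * Xi D θ a z) y) x)
      - ∑ T ∈ (univ : Finset ι).powerset.erase ∅,
        (-1) ^ T.card * EE D.toDy a (fun y => hh D Tᶜ a y * (f y * θ T (rs D.L T a) y)) x := by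
  rw [← EE_f_Xi h hf ha]
  have e1 : EE D.toDy a (fun y => f y * Xi D θ a y) x = ∑ T ∈ (univ : Finset ι).powerset,
      (-1) ^ T.card * EE D.toDy a (fun y => hh D Tᶜ a y * (f y * θ T (rs D.L T a) y)) x := by
    have : (fun y => f y * Xi D θ a y) = fun y => ∑ T ∈ (univ : Finset ι).powerset,
        (-1) ^ T.card * (hh D Tᶜ a y * (f y * θ T (rs D.L T a) y)) := by
      ext y
      unfold Xi
      rw [mul_sum]
      exact sum_congr rfl fun T _ => by ring
    rw [this, EE_sum]
    exact sum_congr rfl fun T _ => EE_mul _ _ _ _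
  rw [e1, ← add_sum_erase _ _ (empty_mem_powerset (univ : Finset ι)), card_empty, pow_zero, one_mul]
  have e2 : EE D.toDy a (fun y => hh D (∅ : Finset ι)ᶜ a y * (f y * θ ∅ (rs D.L ∅ a) y)) x
      = EE D.toDy a (fun y => hh D univ a y * (f y * bad σ s y)) x := by
    congr 1
    ext y
    rw [compl_empty, h.zero]
  rw [e2]
  have e3 : cc D f a x = EE D.toDy a (fun y => hh D univ a y * (f y * (1 - bad σ s y))) x
      + EE D.toDy a (fun y => hh D univ a y * (f y * bad σ s y)) x := by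
    rw [← EE_add]
    unfold cc
    refine EE_congr fun y _ => ?_
    rw [smul_eq_mul]; ring
  rw [e3]
  ring

/-- orthogonality of different sign functions -/
lemma EE_hh_ne {a b : ι → ℕ} (hb : ∀ m, b m < D.L) (hab : a ≤ b) (hne : a ≠ b) (x : ι → X) :
    EE D.toDy b (fun y => hh D univ b y * hh D univ a y) x = 0 := by
  have : ∃ m, a m < b m := by
    by_contra hc
    push Not at hc
    exact hne (le_antisymm hab hc)
  obtain ⟨m, hm⟩ := this
  rw [← EE_EE_le (le_em (fun m => (hb m).le) m)]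
  have b1 : BM D.toDy (em D.L m (b m)) (hh D (univ.erase m) b) :=
    hh_BM_em (notMem_erase m univ) (fun m' _ => hb m') _
  have b2 : BM D.toDy (em D.L m (b m)) (hh D univ a) := by
    refine hh_BM (fun m' _ => lt_of_le_of_lt (hab m') (hb m')) fun m' _ => ?_
    unfold em
    by_cases e : m' = m
    · subst e; rw [Function.update_self]; exact hm
    · rw [Function.update_of_ne e]; exact lt_of_le_of_lt (hab m') (hb m')
  have e1 : EE D.toDy (em D.L m (b m)) (fun y => hh D univ b y * hh D univ a y) = fun _ => 0 := by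
    ext y
    have : (fun y => hh D univ b y * hh D univ a y)
        = fun y => (hh D (univ.erase m) b y * hh D univ a y) * D.h (b m) (y m) := by
      ext y
      have e2 : hh D univ b y = D.h (b m) (y m) * hh D (univ.erase m) b y := by
        rw [← hh_insert (notMem_erase m univ), insert_erase (mem_univ m)]
      rw [e2]; ring
    rw [this, EE_BM_mul (b1.comp₂ b2 fun s t => s * t), EE_hone (hb m), mul_zero]
  rw [e1, EE_zero]

/-- constant for the supports -/
noncomputable def Bd (ι : Type) [Fintype ι] (A : ℝ) : ℝ :=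
  A ^ Fintype.card ι * Lam ι A ^ Fintype.card ι

lemma Bd_ge [Nonempty ι] {A : ℝ} (hA : 1 ≤ A) : 1 ≤ Bd ι A := by
  unfold Bd
  have h1 : (1:ℝ) ≤ A ^ Fintype.card ι := one_le_pow₀ hA
  have h2 : (1:ℝ) ≤ Lam ι A ^ Fintype.card ι := one_le_pow₀ (by linarith [Lam_ge (ι := ι) hA])
  nlinarith

/-- the pieces of `EE b (hh b Xi)` -/
noncomputable def zT (D : HDy X) (θ : Finset ι → (ι → ℕ) → (ι → X) → ℝ) (a b : ι → ℕ)
    (T : Finset ι) (y : ι → X) : ℝ :=
  EE D.toDy b (fun z => hh D univ b z * (hh D Tᶜ a z * θ T (rs D.L T a) z)) y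

lemma zT_sq_le (a b : ι → ℕ) (T : Finset ι) (y : ι → X) :
    zT D θ a b T y ^ 2 ≤ EE D.toDy b (fun z => θ T (rs D.L T a) z ^ 2) y := by
  unfold zT
  refine (EE_sq_le _ y).trans (le_of_eq ?_)
  congr 1
  ext z
  rw [mul_pow, mul_pow, hh_sq', hh_sq', one_mul, one_mul]

lemma cell_trans {a : ι → ℕ} {x y : ι → X} (h : ∀ m, D.c (a m) (y m) = D.c (a m) (x m)) :
    EE D.toDy a σ y = EE D.toDy a σ x := EE_BM a σ x y h

/-- support of the pieces -/
lemma zT_supp [Nonempty ι] (hW : Wt D σ A) (hs : 0 < s) (h : Th D σ A s θ) {a b : ι → ℕ}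
    (hb : ∀ m, b m < D.L) (hab : a ≤ b) (T : Finset ι) {y : ι → X}
    (hσ : EE D.toDy a σ y ≤ s) (hz : zT D θ a b T y ≠ 0) : EE D.toDy b σ y ≤ Bd ι A * s := by
  have ha : ∀ m, a m < D.L := fun m => lt_of_le_of_lt (hab m) (hb m)
  have hL := Lam_ge (ι := ι) hW.one
  have hA := hW.one
  have hA0 : 0 < A ^ Fintype.card ι := by positivity
  have hL1 : (1:ℝ) ≤ Lam ι A ^ Fintype.card ι := one_le_pow₀ (by linarith)
  have hbL : ∀ m, b m ≤ D.L := fun m => (hb m).le
  have hle : A ^ Fintype.card ι * s ≤ Bd ι A * s := by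
    unfold Bd
    refine mul_le_mul_of_nonneg_right ?_ hs.le
    nlinarith
  rcases T.eq_empty_or_nonempty with hT | hT
  · subst hT
    by_contra hc
    push Not at hc
    have hbad : ∀ z, (∀ m, D.c (b m) (z m) = D.c (b m) (y m)) → bad σ s z = 1 := by
      intro z hz'
      unfold bad
      rw [if_pos]
      have h1 := hW.le hbL z
      rw [cell_trans hz'] at h1
      have h2 : A ^ Fintype.card ι * s < A ^ Fintype.card ι * σ z := by linarith
      exact lt_of_mul_lt_mul_left h2 hA0.le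
    apply hz
    unfold zT
    have e1 : EE D.toDy b (fun z => hh D univ b z * (hh D (∅ : Finset ι)ᶜ a z * θ ∅ (rs D.L ∅ a) z)) y
        = EE D.toDy b (fun z => hh D univ b z * hh D univ a z) y := by
      refine EE_congr fun z hz' => ?_
      rw [compl_empty, h.zero, hbad z hz', mul_one]
    rw [e1]
    by_cases hne : a = b
    · exfalso
      subst hne
      have h3 : s ≤ Bd ι A * s := le_mul_of_one_le_left hs.le (Bd_ge hA)
      linarith
    · exact EE_hh_ne hb hab hne y
  · obtain ⟨z, hz1, hz2⟩ := exists_ne hz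
    have hθ : θ T (rs D.L T a) z ≠ 0 := fun h0 => hz2 (by rw [h0, mul_zero, mul_zero])
    have h1 := h.supp T hT _ (rs_mem' ha T) z hθ
    have h2 : σ z ≤ Lam ι A ^ Fintype.card ι * s := by
      refine h1.trans (mul_le_mul_of_nonneg_right ?_ hs.le)
      exact pow_le_pow_right₀ (by linarith) (card_le_univ T)
    have h3 := hW.le hbL z
    rw [cell_trans hz1] at h3
    unfold Bd
    calc _ ≤ _ := h3
      _ ≤ A ^ Fintype.card ι * (Lam ι A ^ Fintype.card ι * s) :=
          mul_le_mul_of_nonneg_left h2 hA0.le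
      _ = _ := by ring

/-- the constant -/
noncomputable def K3 (ι : Type) [Fintype ι] (A : ℝ) : ℝ :=
  2 ^ Fintype.card ι * (2 ^ Fintype.card ι * ((2 * (Fintype.card ι : ℝ)) ^ Fintype.card ι * Bd ι A))

lemma K3_pos [Nonempty ι] {A : ℝ} (hA : 1 ≤ A) : 0 < K3 ι A := by
  unfold K3
  have := Bd_ge (ι := ι) hA
  have : (0:ℝ) < Fintype.card ι := by exact_mod_cast Fintype.card_pos
  positivity

/-- main local estimate -/
lemma Z_bound [Nonempty ι] (hW : Wt D σ A) (hs : 0 < s) (h : Th D σ A s θ) {ρ : ℝ} (hρ : 0 < ρ)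
    (hρ1 : ρ ≤ 1) {a b : ι → ℕ} (hb : ∀ m, b m < D.L) (hab : a ≤ b) {x : ι → X}
    (hσ : EE D.toDy a σ x ≤ s) :
    EE D.toDy a (fun y => (EE D.toDy b σ y) ^ (1 + ρ) *
        (EE D.toDy b (fun z => hh D univ b z * Xi D θ a z) y) ^ 2) x
      ≤ K3 ι A * ((2:ℝ) ^ (2 * ρ)) ^ (∑ m, (b m - a m)) * ((EE D.toDy a σ x) ^ (1 + ρ)
        * (EE D.toDy a σ x / s) ^ ρ) := by
  have ha : ∀ m, a m < D.L := fun m => lt_of_le_of_lt (hab m) (hb m)
  have hA := hW.one
  have hB := Bd_ge (ι := ι) hA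
  set d := Fintype.card ι with hd
  set t := ∑ m, (b m - a m) with ht
  set sa := EE D.toDy a σ x with hsa
  have sa0 : 0 < sa := EE_pos hW.pos x
  have hcard : (univ : Finset ι).powerset.card = 2 ^ d := by rw [card_powerset, card_univ]
  set U := (Bd ι A * s) ^ (1 - ρ) * (2 ^ t * sa) ^ (2 * ρ) with hU
  have U0 : 0 ≤ U := by positivity
  -- pointwise
  have p1 : ∀ y, (∀ m, D.c (a m) (y m) = D.c (a m) (x m)) →
      (EE D.toDy b σ y) ^ (1 + ρ) * (EE D.toDy b (fun z => hh D univ b z * Xi D θ a z) y) ^ 2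
      ≤ ∑ T ∈ (univ : Finset ι).powerset, (2 ^ d * U) *
        EE D.toDy b (fun z => θ T (rs D.L T a) z ^ 2) y := by
    intro y hy
    have hσy : EE D.toDy a σ y = sa := cell_trans hy
    have sb0 : 0 < EE D.toDy b σ y := EE_pos hW.pos y
    have sb1 : EE D.toDy b σ y ≤ 2 ^ t * sa := by
      rw [← hσy]; exact EE_le_pow hab (fun y => (hW.pos y).le) y
    have e1 : EE D.toDy b (fun z => hh D univ b z * Xi D θ a z) y
        = ∑ T ∈ (univ : Finset ι).powerset, (-1) ^ T.card * zT D θ a b T y := by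
      have : (fun z => hh D univ b z * Xi D θ a z) = fun z => ∑ T ∈ (univ : Finset ι).powerset,
          (-1) ^ T.card * (hh D univ b z * (hh D Tᶜ a z * θ T (rs D.L T a) z)) := by
        ext z
        unfold Xi
        rw [mul_sum]
        exact sum_congr rfl fun T _ => by ring
      rw [this, EE_sum]
      exact sum_congr rfl fun T _ => EE_mul _ _ _ _
    have e2 : (EE D.toDy b (fun z => hh D univ b z * Xi D θ a z) y) ^ 2
        ≤ 2 ^ d * ∑ T ∈ (univ : Finset ι).powerset, zT D θ a b T y ^ 2 := by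
      rw [e1]
      have := sq_sum_le_card_mul_sum_sq (s := (univ : Finset ι).powerset)
        (f := fun T => (-1) ^ T.card * zT D θ a b T y)
      rw [hcard] at this
      push_cast at this
      refine this.trans (le_of_eq ?_)
      congr 1
      refine sum_congr rfl fun T _ => ?_
      rw [mul_pow, ← pow_mul, mul_comm T.card 2, pow_mul]
      norm_num
    have e3 : ∀ T, (EE D.toDy b σ y) ^ (1 + ρ) * zT D θ a b T y ^ 2
        ≤ U * EE D.toDy b (fun z => θ T (rs D.L T a) z ^ 2) y := by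
      intro T
      have q0 := zT_sq_le (D := D) (θ := θ) a b T y
      by_cases hz : zT D θ a b T y = 0
      · rw [hz]
        have : 0 ≤ EE D.toDy b (fun z => θ T (rs D.L T a) z ^ 2) y := EE_nonneg (fun _ => sq_nonneg _) y
        have := mul_nonneg U0 this
        simpa using this
      · have hsup := zT_supp hW hs h hb hab T (by rw [hσy]; exact hσ) hz
        have q1 : (EE D.toDy b σ y) ^ (1 + ρ) ≤ U := by
          have : (EE D.toDy b σ y) ^ (1 + ρ)
              = (EE D.toDy b σ y) ^ (1 - ρ) * (EE D.toDy b σ y) ^ (2 * ρ) := by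
            rw [← Real.rpow_add sb0]; congr 1; ring
          rw [this, hU]
          exact mul_le_mul (Real.rpow_le_rpow sb0.le hsup (by linarith))
            (Real.rpow_le_rpow sb0.le sb1 (by linarith)) (by positivity) (by positivity)
        exact mul_le_mul q1 q0 (sq_nonneg _) U0
    calc _ ≤ (EE D.toDy b σ y) ^ (1 + ρ) * (2 ^ d * ∑ T ∈ (univ : Finset ι).powerset,
          zT D θ a b T y ^ 2) := mul_le_mul_of_nonneg_left e2 (by positivity)
      _ = ∑ T ∈ (univ : Finset ι).powerset, 2 ^ d * ((EE D.toDy b σ y) ^ (1 + ρ)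
          * zT D θ a b T y ^ 2) := by
          rw [mul_sum, mul_sum]
          exact sum_congr rfl fun T _ => by ring
      _ ≤ _ := by
          refine sum_le_sum fun T _ => ?_
          rw [mul_assoc]
          exact mul_le_mul_of_nonneg_left (e3 T) (by positivity)
  refine (EE_mono_box p1).trans ?_
  rw [EE_sum]
  have hbadle : EE D.toDy a (bad σ s) x ≤ sa / s := by
    have : ∀ z, bad σ s z ≤ s⁻¹ * σ z := by
      intro z
      unfold bad
      have := hW.pos z
      split_ifs with hc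
      · rw [inv_mul_eq_div, le_div_iff₀ hs, one_mul]; exact hc.le
      · positivity
    refine (EE_mono this x).trans (le_of_eq ?_)
    rw [EE_mul]
    ring
  have bad0 : 0 ≤ EE D.toDy a (bad σ s) x := EE_nonneg bad_nonneg x
  have h2d : (1:ℝ) ≤ 2 * (d:ℝ) := by
    have : (1:ℝ) ≤ d := by exact_mod_cast Fintype.card_pos
    linarith
  have p2 : ∀ T ∈ (univ : Finset ι).powerset, EE D.toDy a (fun y => (2 ^ d * U) *
        EE D.toDy b (fun z => θ T (rs D.L T a) z ^ 2) y) x
      ≤ (2 ^ d * U) * ((2 * (d:ℝ)) ^ d * (sa / s)) := by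
    intro T _
    rw [EE_mul]
    refine mul_le_mul_of_nonneg_left ?_ (by positivity)
    have e1 := EE_EE_le hab (fun z => θ T (rs D.L T a) z ^ 2) x (D := D.toDy)
    rw [e1]
    refine (h.pt_le T ha x).trans ?_
    refine mul_le_mul ?_ hbadle bad0 (by positivity)
    exact pow_le_pow_right₀ h2d (card_le_univ T)
  refine (sum_le_sum p2).trans ?_
  rw [sum_const, hcard, nsmul_eq_mul]
  push_cast
  -- final computation
  have hUle : U * (sa / s) ≤ Bd ι A * ((2:ℝ) ^ (2 * ρ)) ^ t * (sa ^ (1 + ρ) * (sa / s) ^ ρ) := by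
    have e1 : (Bd ι A * s) ^ (1 - ρ) ≤ Bd ι A * s ^ (1 - ρ) := by
      rw [Real.mul_rpow (by linarith) hs.le]
      refine mul_le_mul_of_nonneg_right ?_ (by positivity)
      calc Bd ι A ^ (1 - ρ) ≤ Bd ι A ^ (1:ℝ) :=
            Real.rpow_le_rpow_of_exponent_le hB (by linarith)
        _ = _ := Real.rpow_one _
    have e2 : ((2:ℝ) ^ t * sa) ^ (2 * ρ) = ((2:ℝ) ^ (2 * ρ)) ^ t * sa ^ (2 * ρ) := by
      rw [Real.mul_rpow (by positivity) sa0.le]
      congr 1
      rw [← Real.rpow_natCast, ← Real.rpow_mul (by norm_num), ← Real.rpow_natCast,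
        ← Real.rpow_mul (by norm_num), mul_comm]
    have e3 : s ^ (1 - ρ) * sa ^ (2 * ρ) * (sa / s) = sa ^ (1 + ρ) * (sa / s) ^ ρ := by
      rw [Real.div_rpow sa0.le hs.le, Real.rpow_add sa0, Real.rpow_one, Real.rpow_sub hs,
        Real.rpow_one, two_mul, Real.rpow_add sa0]
      have : s ^ ρ ≠ 0 := by positivity
      field_simp
    rw [hU, e2]
    calc (Bd ι A * s) ^ (1 - ρ) * (((2:ℝ) ^ (2 * ρ)) ^ t * sa ^ (2 * ρ)) * (sa / s)
        ≤ (Bd ι A * s ^ (1 - ρ)) * (((2:ℝ) ^ (2 * ρ)) ^ t * sa ^ (2 * ρ)) * (sa / s) := by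
          refine mul_le_mul_of_nonneg_right ?_ (by positivity)
          exact mul_le_mul_of_nonneg_right e1 (by positivity)
      _ = Bd ι A * ((2:ℝ) ^ (2 * ρ)) ^ t * (s ^ (1 - ρ) * sa ^ (2 * ρ) * (sa / s)) := by ring
      _ = _ := by rw [e3]
  unfold K3
  rw [← hd]
  calc (2:ℝ) ^ d * (2 ^ d * U * ((2 * (d:ℝ)) ^ d * (sa / s)))
      = (2 ^ d * 2 ^ d * (2 * (d:ℝ)) ^ d) * (U * (sa / s)) := by ring
    _ ≤ (2 ^ d * 2 ^ d * (2 * (d:ℝ)) ^ d) * (Bd ι A * ((2:ℝ) ^ (2 * ρ)) ^ t
          * (sa ^ (1 + ρ) * (sa / s) ^ ρ)) := mul_le_mul_of_nonneg_left hUle (by positivity)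
    _ = _ := by ring

end HD

end

section
/-!
Geometric sums.
-/

open Finset
open scoped Classical

set_option linter.unusedSectionVars false

namespace HD

lemma geom_inj {κ : Type*} {z : ℝ} (h0 : 0 ≤ z) (h1 : z < 1) (s : Finset κ) (g : κ → ℕ)
    (hg : ∀ i ∈ s, ∀ j ∈ s, g i = g j → i = j) : ∑ i ∈ s, z ^ (g i) ≤ (1 - z)⁻¹ := by
  rw [← sum_image (f := fun i => z ^ i) hg]
  have h2 := Summable.sum_le_tsum (s.image g) (fun i _ => pow_nonneg h0 i)
    (summable_geometric_of_lt_one h0 h1)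
  rwa [tsum_geometric_of_lt_one h0 h1] at h2

/-- sums over boxes above -/
lemma sum_box_ge {ι : Type} [Fintype ι] [DecidableEq ι] {w : ℝ} (h0 : 0 ≤ w) (h1 : w < 1) (L : ℕ)
    (a : ι → ℕ) :
    ∑ b ∈ lvS L (univ : Finset ι), (if a ≤ b then w ^ (∑ m, (b m - a m)) else 0)
      ≤ ((1 - w)⁻¹) ^ Fintype.card ι := by
  have e1 : ∀ b : ι → ℕ, (if a ≤ b then w ^ (∑ m, (b m - a m)) else 0)
      = ∏ m, (if a m ≤ b m then w ^ (b m - a m) else 0) := by
    intro b
    split_ifs with h
    · rw [← Finset.prod_pow_eq_pow_sum]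
      exact prod_congr rfl fun m _ => by rw [if_pos (h m)]
    · have : ∃ m, ¬ a m ≤ b m := by
        by_contra hc
        push Not at hc
        exact h hc
      obtain ⟨m, hm⟩ := this
      rw [prod_eq_zero (mem_univ m)]
      rw [if_neg hm]
  have e2 : lvS L (univ : Finset ι) = Fintype.piFinset (fun _ => range L) := by
    unfold lvS; simp
  rw [e2]
  simp only [e1]
  rw [← Finset.prod_univ_sum (fun _ => range L) (fun m j => if a m ≤ j then w ^ (j - a m) else 0)]
  have e3 : ∀ m ∈ (univ : Finset ι), ∑ j ∈ range L, (if a m ≤ j then w ^ (j - a m) else 0)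
      ≤ (1 - w)⁻¹ := by
    intro m _
    rw [← sum_filter]
    refine geom_inj h0 h1 _ (fun j => j - a m) fun i hi j hj hij => ?_
    simp only [mem_filter, mem_range] at hi hj
    have hij' : i - a m = j - a m := hij
    omega
  refine (prod_le_prod (fun m _ => sum_nonneg fun j _ => by split_ifs <;> positivity) e3).trans
    (le_of_eq ?_)
  rw [prod_const, card_univ]

/-- sums over boxes below -/
lemma sum_box_le {ι : Type} [Fintype ι] [DecidableEq ι] {w : ℝ} (h0 : 0 ≤ w) (h1 : w < 1) (L : ℕ)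
    (b : ι → ℕ) :
    ∑ a ∈ lvS L (univ : Finset ι), (if a ≤ b then w ^ (∑ m, (b m - a m)) else 0)
      ≤ ((1 - w)⁻¹) ^ Fintype.card ι := by
  have e1 : ∀ a : ι → ℕ, (if a ≤ b then w ^ (∑ m, (b m - a m)) else 0)
      = ∏ m, (if a m ≤ b m then w ^ (b m - a m) else 0) := by
    intro a
    split_ifs with h
    · rw [← Finset.prod_pow_eq_pow_sum]
      exact prod_congr rfl fun m _ => by rw [if_pos (h m)]
    · have : ∃ m, ¬ a m ≤ b m := by
        by_contra hc
        push Not at hc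
        exact h hc
      obtain ⟨m, hm⟩ := this
      rw [prod_eq_zero (mem_univ m)]
      rw [if_neg hm]
  have e2 : lvS L (univ : Finset ι) = Fintype.piFinset (fun _ => range L) := by
    unfold lvS; simp
  rw [e2]
  simp only [e1]
  rw [← Finset.prod_univ_sum (fun _ => range L) (fun m j => if j ≤ b m then w ^ (b m - j) else 0)]
  have e3 : ∀ m ∈ (univ : Finset ι), ∑ j ∈ range L, (if j ≤ b m then w ^ (b m - j) else 0)
      ≤ (1 - w)⁻¹ := by
    intro m _
    rw [← sum_filter]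
    refine geom_inj h0 h1 _ (fun j => b m - j) fun i hi j hj hij => ?_
    simp only [mem_filter, mem_range] at hi hj
    have hij' : b m - i = b m - j := hij
    omega
  refine (prod_le_prod (fun m _ => sum_nonneg fun j _ => by split_ifs <;> positivity) e3).trans
    (le_of_eq ?_)
  rw [prod_const, card_univ]

lemma inv_two_q {q : ℝ} (hq : 1 ≤ q) : ((2:ℝ) ^ q)⁻¹ ≤ 1/2 := by
  have h1 : (2:ℝ) ≤ 2 ^ q := by
    calc (2:ℝ) = 2 ^ (1:ℝ) := (Real.rpow_one 2).symm
      _ ≤ _ := Real.rpow_le_rpow_of_exponent_le (by norm_num) hq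
  rw [one_div]
  exact inv_anti₀ (by norm_num) h1

lemma zpow_rpow (i : ℤ) (q : ℝ) : ((2:ℝ) ^ i) ^ q = ((2:ℝ) ^ q) ^ i := by
  rw [← Real.rpow_intCast, ← Real.rpow_mul (by norm_num), mul_comm, Real.rpow_mul (by norm_num),
    Real.rpow_intCast]

/-- dyadic levels below `y` -/
lemma sum_zpow_lt {κ : Type*} (J : Finset κ) (e : κ → ℤ) (he : ∀ i ∈ J, ∀ j ∈ J, e i = e j → i = j)
    {q y : ℝ} (hq : 1 ≤ q) (hy : 0 < y) :
    ∑ j ∈ J, (if (2:ℝ) ^ (e j) < y then ((2:ℝ) ^ (e j)) ^ q else 0) ≤ 2 * y ^ q := by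
  set k := Int.clog 2 y with hk
  have h1 : (2:ℝ) ^ (k - 1) < y := by
    have := Int.zpow_pred_clog_lt_self (b := 2) (R := ℝ) (by norm_num) hy
    exact_mod_cast this
  set z : ℝ := ((2:ℝ) ^ q)⁻¹ with hz
  have z0 : 0 < z := by positivity
  have z1 : z ≤ 1/2 := inv_two_q hq
  rw [← sum_filter]
  have h2 : ∀ j ∈ J.filter (fun j => (2:ℝ) ^ (e j) < y), e j ≤ k - 1 := by
    intro j hj
    rw [mem_filter] at hj
    have := (Int.zpow_lt_iff_lt_clog (b := 2) (R := ℝ) (by norm_num) hy (x := e j)).1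
      (by exact_mod_cast hj.2)
    omega
  have h3 : ∀ j ∈ J.filter (fun j => (2:ℝ) ^ (e j) < y),
      ((2:ℝ) ^ (e j)) ^ q = ((2:ℝ) ^ (k - 1)) ^ q * z ^ ((k - 1 - e j).toNat) := by
    intro j hj
    have h4 := h2 j hj
    rw [zpow_rpow, zpow_rpow, hz, inv_pow, ← zpow_natCast, Int.toNat_of_nonneg (by omega),
      ← zpow_neg, ← zpow_add₀ (by positivity)]
    congr 1; ring
  rw [sum_congr rfl h3, ← mul_sum]
  have h5 := geom_inj z0.le (by linarith) (J.filter (fun j => (2:ℝ) ^ (e j) < y))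
    (fun j => (k - 1 - e j).toNat) (fun i hi j hj hij => by
      have a1 := h2 i hi
      have a2 := h2 j hj
      have hij' : (k - 1 - e i).toNat = (k - 1 - e j).toNat := hij
      refine he i (mem_filter.1 hi).1 j (mem_filter.1 hj).1 ?_
      omega)
  have h6 : (1 - z)⁻¹ ≤ 2 := by
    rw [inv_le_comm₀ (by linarith) (by norm_num)]; linarith
  have h7 : ((2:ℝ) ^ (k - 1)) ^ q ≤ y ^ q := Real.rpow_le_rpow (by positivity) h1.le (by linarith)
  calc _ ≤ ((2:ℝ) ^ (k - 1)) ^ q * 2 := mul_le_mul_of_nonneg_left (h5.trans h6) (by positivity)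
    _ ≤ y ^ q * 2 := mul_le_mul_of_nonneg_right h7 (by norm_num)
    _ = _ := by ring

/-- dyadic levels above `y` -/
lemma sum_zpow_ge {κ : Type*} (J : Finset κ) (e : κ → ℤ) (he : ∀ i ∈ J, ∀ j ∈ J, e i = e j → i = j)
    {q y : ℝ} (hq : 1 ≤ q) (hy : 0 < y) :
    ∑ j ∈ J, (if y ≤ (2:ℝ) ^ (e j) then ((2:ℝ) ^ (e j)) ^ (-q) else 0) ≤ 2 * y ^ (-q) := by
  set k := Int.clog 2 y with hk
  have h1 : y ≤ (2:ℝ) ^ k := by
    have := Int.self_le_zpow_clog (b := 2) (R := ℝ) (by norm_num) y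
    exact_mod_cast this
  set z : ℝ := ((2:ℝ) ^ q)⁻¹ with hz
  have z0 : 0 < z := by positivity
  have z1 : z ≤ 1/2 := inv_two_q hq
  rw [← sum_filter]
  have h2 : ∀ j ∈ J.filter (fun j => y ≤ (2:ℝ) ^ (e j)), k ≤ e j := by
    intro j hj
    rw [mem_filter] at hj
    exact (Int.le_zpow_iff_clog_le (b := 2) (R := ℝ) (by norm_num) hy (x := e j)).1
      (by exact_mod_cast hj.2)
  have h3 : ∀ j ∈ J.filter (fun j => y ≤ (2:ℝ) ^ (e j)),
      ((2:ℝ) ^ (e j)) ^ (-q) = ((2:ℝ) ^ k) ^ (-q) * z ^ ((e j - k).toNat) := by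
    intro j hj
    have h4 := h2 j hj
    rw [zpow_rpow, zpow_rpow, hz, Real.rpow_neg (by norm_num), ← zpow_natCast,
      Int.toNat_of_nonneg (by omega), ← zpow_add₀ (by positivity)]
    congr 1; ring
  rw [sum_congr rfl h3, ← mul_sum]
  have h5 := geom_inj z0.le (by linarith) (J.filter (fun j => y ≤ (2:ℝ) ^ (e j)))
    (fun j => (e j - k).toNat) (fun i hi j hj hij => by
      have a1 := h2 i hi
      have a2 := h2 j hj
      have hij' : (e i - k).toNat = (e j - k).toNat := hij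
      refine he i (mem_filter.1 hi).1 j (mem_filter.1 hj).1 ?_
      omega)
  have h6 : (1 - z)⁻¹ ≤ 2 := by
    rw [inv_le_comm₀ (by linarith) (by norm_num)]; linarith
  have h7 : ((2:ℝ) ^ k) ^ (-q) ≤ y ^ (-q) := Real.rpow_le_rpow_of_nonpos hy h1 (by linarith)
  calc _ ≤ ((2:ℝ) ^ k) ^ (-q) * 2 := mul_le_mul_of_nonneg_left (h5.trans h6) (by positivity)
    _ ≤ y ^ (-q) * 2 := mul_le_mul_of_nonneg_right h7 (by norm_num)
    _ = _ := by ring

/-- the dyadic level of a positive number -/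
lemma clog_bounds {y : ℝ} (hy : 0 < y) : y ≤ (2:ℝ) ^ (Int.clog 2 y) ∧ (2:ℝ) ^ (Int.clog 2 y - 1) < y := by
  constructor
  · have := Int.self_le_zpow_clog (b := 2) (R := ℝ) (by norm_num) y
    exact_mod_cast this
  · have := Int.zpow_pred_clog_lt_self (b := 2) (R := ℝ) (by norm_num) hy
    exact_mod_cast this

lemma rpow_clog {y q : ℝ} (hy : 0 < y) (hq : 0 ≤ q) :
    y ^ (-q) ≤ 2 ^ q * ((2:ℝ) ^ (Int.clog 2 y)) ^ (-q) := by
  have h1 := (clog_bounds hy).2
  have h2 : y ^ (-q) ≤ ((2:ℝ) ^ (Int.clog 2 y - 1)) ^ (-q) :=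
    Real.rpow_le_rpow_of_nonpos (by positivity) h1.le (by linarith)
  refine h2.trans (le_of_eq ?_)
  rw [zpow_sub_one₀ (by norm_num), Real.mul_rpow (by positivity) (by norm_num),
    Real.inv_rpow (by norm_num), Real.rpow_neg (by norm_num : (0:ℝ) ≤ 2), inv_inv, mul_comm]

end HD

end
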