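import Pool.Agent.Helper61.HD.Geo
import Pool.Agent.Helper61.HC.StepB

section
/-!
The main dyadic inequality in every dimension.
-/

open Finset
open scoped Classical

set_option linter.unusedSectionVars false

namespace HD

variable {X : Type} [Fintype X] [DecidableEq X] {ι : Type} [Fintype ι] [DecidableEq ι]

section pre
variable {D : HDy X}

/-- weighted Cauchy-Schwarz -/
lemma EE_cs_w {a : ι → ℕ} (g h w : (ι → X) → ℝ) (hw : ∀ y, 0 < w y) (x : ι → X) :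
    (EE D.toDy a (fun y => g y * h y) x) ^ 2
      ≤ EE D.toDy a (fun y => g y ^ 2 * (w y)⁻¹) x * EE D.toDy a (fun y => w y * h y ^ 2) x := by
  unfold EE TT
  simp only [smul_eq_mul]
  refine sum_sq_le_sum_mul_sum_of_sq_le_mul _ (fun y _ => ?_) (fun y _ => ?_) fun y _ => ?_
  · have := hw y
    have := ker_nonneg (D := D.toDy) a x y
    positivity
  · have := hw y
    have := ker_nonneg (D := D.toDy) a x y
    positivity
  · have := (hw y).ne'
    exact le_of_eq (by field_simp)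

/-- splitting of the levels -/
lemma sum_full_split (T : Finset ι) (L : ℕ) (F : (ι → ℕ) → ℝ) :
    ∑ a ∈ lvS L univ, F a = ∑ a' ∈ lvS L T, ∑ a'' ∈ lvS L Tᶜ, F (a' ⊓ a'') := by
  rw [← sum_product']
  refine sum_nbij' (fun a => (rs L T a, rs L Tᶜ a)) (fun p => p.1 ⊓ p.2) ?_ ?_ ?_ ?_ ?_
  · intro a ha
    rw [mem_full] at ha
    rw [mem_product]
    exact ⟨rs_mem' ha T, rs_mem' ha Tᶜ⟩
  · rintro ⟨a', a''⟩ h
    rw [mem_product, mem_lvS, mem_lvS] at h
    rw [mem_full]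
    intro m
    rw [Pi.inf_apply]
    by_cases hm : m ∈ T
    · exact lt_of_le_of_lt (min_le_left _ _) (h.1.1 m hm)
    · exact lt_of_le_of_lt (min_le_right _ _) (h.2.1 m (by simpa using hm))
  · intro a ha
    rw [mem_full] at ha
    have : rs L T a ⊓ rs L Tᶜ a = a := by
      rw [rs_inf (fun m => (ha m).le), union_compl, rs_univ]
    exact this
  · rintro ⟨a', a''⟩ h
    rw [mem_product, mem_lvS, mem_lvS] at h
    have h1 := h.1
    have h2 := h.2
    simp only [mem_compl, not_not] at h1 h2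
    rw [Prod.mk.injEq]
    constructor
    · ext m
      change (if m ∈ T then min (a' m) (a'' m) else L) = a' m
      split_ifs with hm
      · rw [h2.2 m hm]
        exact min_eq_left (h1.1 m hm).le
      · exact (h1.2 m hm).symm
    · ext m
      change (if m ∈ Tᶜ then min (a' m) (a'' m) else L) = a'' m
      split_ifs with hm
      · rw [mem_compl] at hm
        rw [h1.2 m hm]
        exact min_eq_right (h2.1 m hm).le
      · rw [mem_compl, not_not] at hm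
        exact (h2.2 m hm).symm
  · intro a ha
    rw [mem_full] at ha
    have : rs L T a ⊓ rs L Tᶜ a = a := by
      rw [rs_inf (fun m => (ha m).le), union_compl, rs_univ]
    rw [this]

/-- Bessel with a corrector depending on the levels in `T` -/
lemma bess2 (T : Finset ι) (g : (ι → ℕ) → (ι → X) → ℝ) :
    ∑ a ∈ lvS D.L univ, ∑ x, (EE D.toDy a (fun y => hh D Tᶜ a y * g (rs D.L T a) y) x) ^ 2
      ≤ ∑ a ∈ lvS D.L T, ∑ x, g a x ^ 2 := by
  rw [sum_full_split T]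
  refine sum_le_sum fun a' ha' => ?_
  refine le_trans ?_ (bessel (D := D) Tᶜ (g a'))
  refine sum_le_sum fun a'' ha'' => ?_
  have h1 := mem_lvS.1 ha'
  have h2 := mem_lvS.1 ha''
  have e1 : rs D.L T (a' ⊓ a'') = a' := by
    ext m
    unfold rs
    split_ifs with hm
    · rw [Pi.inf_apply, h2.2 m (by simpa using hm)]
      exact min_eq_left (h1.1 m hm).le
    · exact (h1.2 m hm).symm
  have e2 : ∀ y, hh D Tᶜ (a' ⊓ a'') y = hh D Tᶜ a'' y := by
    intro y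
    refine hh_congr (fun m hm => ?_) y
    rw [mem_compl] at hm
    rw [Pi.inf_apply, h1.2 m hm]
    exact min_eq_right (lvS_le ha'' m)
  simp only [e1, e2]
  rw [← sum_EE (D := D.toDy) a' (fun x => (EE D.toDy a'' (fun y => hh D Tᶜ a'' y * g a' y) x) ^ 2)]
  refine sum_le_sum fun x _ => ?_
  rw [← EE_EE]
  exact EE_sq_le _ x

end pre

variable (D : HDy X) (σ : (ι → X) → ℝ)

/-- all the dyadic levels of the averages of `σ` -/
noncomputable def JJ : Finset ℤ :=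
  ((lvS D.L (univ : Finset ι)) ×ˢ (univ : Finset (ι → X))).image
    (fun p => Int.clog 2 (EE D.toDy p.1 σ p.2))

variable {D σ} {A : ℝ}

lemma level_sum (hW : Wt D σ A) {q : ℝ} (hq : 0 ≤ q) (Φ : ℤ → (ι → ℕ) → (ι → X) → ℝ)
    (hΦ : ∀ j a x, 0 ≤ Φ j a x) :
    ∑ a ∈ lvS D.L univ, ∑ x, (EE D.toDy a σ x) ^ (-q) * Φ (Int.clog 2 (EE D.toDy a σ x)) a x
      ≤ ∑ j ∈ JJ D σ, 2 ^ q * ((2:ℝ) ^ j) ^ (-q) * ∑ a ∈ lvS D.L univ, ∑ x, Φ j a x := by
  have e1 : ∀ a ∈ lvS D.L (univ : Finset ι), ∀ x : ι → X,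
      (EE D.toDy a σ x) ^ (-q) * Φ (Int.clog 2 (EE D.toDy a σ x)) a x
      ≤ ∑ j ∈ JJ D σ, 2 ^ q * ((2:ℝ) ^ j) ^ (-q) * Φ j a x := by
    intro a ha x
    have hj : Int.clog 2 (EE D.toDy a σ x) ∈ JJ D σ := by
      unfold JJ
      rw [mem_image]
      exact ⟨(a, x), by rw [mem_product]; exact ⟨ha, mem_univ _⟩, rfl⟩
    refine le_trans ?_ (single_le_sum (f := fun j => 2 ^ q * ((2:ℝ) ^ j) ^ (-q) * Φ j a x)
      (fun j _ => by have := hΦ j a x; positivity) hj)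
    exact mul_le_mul_of_nonneg_right (rpow_clog (EE_pos hW.pos x) hq) (hΦ _ _ _)
  refine (sum_le_sum fun a ha => sum_le_sum fun x _ => e1 a ha x).trans (le_of_eq ?_)
  simp only [mul_sum]
  rw [sum_congr rfl fun a _ => sum_comm, sum_comm]

lemma s_shift (j : ℤ) (N : ℕ) (q : ℝ) :
    ((2:ℝ) ^ j) ^ (-q) = ((2:ℝ) ^ N) ^ q * ((2:ℝ) ^ (j + (N:ℤ))) ^ (-q) := by
  rw [zpow_add₀ (by norm_num), zpow_natCast, Real.mul_rpow (by positivity) (by positivity),
    Real.rpow_neg (by positivity : (0:ℝ) ≤ 2 ^ N)]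
  have : ((2:ℝ) ^ N) ^ q ≠ 0 := by positivity
  field_simp

lemma sq_le_rpow {u v q : ℝ} (hv : 0 < v) (h : |u| ≤ v ^ q) : u ^ 2 ≤ v ^ q * v ^ q := by
  rw [← sq_abs, sq]
  exact mul_le_mul h h (abs_nonneg _) (by positivity)

/-- the part below the cut level -/
lemma partI (hW : Wt D σ A) {q : ℝ} (hq : 1 ≤ q) {f : (ι → X) → ℝ} (hf : ∀ x, |f x| ≤ σ x ^ q)
    (N : ℕ) :
    ∑ a ∈ lvS D.L univ, ∑ x, (EE D.toDy a σ x) ^ (-q) * (EE D.toDy a (fun y => hh D univ a y *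
      (f y * (1 - bad σ ((2:ℝ) ^ (Int.clog 2 (EE D.toDy a σ x) + (N:ℤ))) y))) x) ^ 2
      ≤ (2 ^ q * ((2:ℝ) ^ N) ^ q * 2) * ∑ x, σ x ^ q := by
  refine (level_sum hW (by linarith) (fun j a x => (EE D.toDy a (fun y => hh D univ a y *
      (f y * (1 - bad σ ((2:ℝ) ^ (j + (N:ℤ))) y))) x) ^ 2) (fun _ _ _ => sq_nonneg _)).trans ?_
  have e1 : ∀ j ∈ JJ D σ, 2 ^ q * ((2:ℝ) ^ j) ^ (-q) * ∑ a ∈ lvS D.L univ, ∑ x,
      (EE D.toDy a (fun y => hh D univ a y * (f y * (1 - bad σ ((2:ℝ) ^ (j + (N:ℤ))) y))) x) ^ 2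
      ≤ ∑ x, (2 ^ q * ((2:ℝ) ^ N) ^ q * (σ x ^ q * σ x ^ q)) *
        (if σ x ≤ (2:ℝ) ^ (j + (N:ℤ)) then ((2:ℝ) ^ (j + (N:ℤ))) ^ (-q) else 0) := by
    intro j _
    have b := bessel (D := D) univ (fun y => f y * (1 - bad σ ((2:ℝ) ^ (j + (N:ℤ))) y))
    refine (mul_le_mul_of_nonneg_left b (by positivity)).trans ?_
    rw [mul_sum]
    refine sum_le_sum fun x _ => ?_
    have h0 := hW.pos x
    unfold bad
    by_cases hc : (2:ℝ) ^ (j + (N:ℤ)) < σ x
    · rw [if_pos hc, if_neg (not_le.2 hc)]; simp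
    · rw [if_neg hc, if_pos (not_lt.1 hc), sub_zero, mul_one, s_shift j N q]
      calc 2 ^ q * (((2:ℝ) ^ N) ^ q * ((2:ℝ) ^ (j + (N:ℤ))) ^ (-q)) * f x ^ 2
          ≤ 2 ^ q * (((2:ℝ) ^ N) ^ q * ((2:ℝ) ^ (j + (N:ℤ))) ^ (-q)) * (σ x ^ q * σ x ^ q) :=
            mul_le_mul_of_nonneg_left (sq_le_rpow h0 (hf x)) (by positivity)
        _ = _ := by ring
  refine (sum_le_sum e1).trans ?_
  rw [sum_comm, mul_sum]
  refine sum_le_sum fun x _ => ?_
  have h0 := hW.pos x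
  rw [← mul_sum]
  have h1 := sum_zpow_ge (JJ D σ) (fun j => j + (N:ℤ)) (fun i _ j _ hij => by
    have hij' : i + (N:ℤ) = j + N := hij
    omega) hq h0
  refine (mul_le_mul_of_nonneg_left h1 (by positivity)).trans (le_of_eq ?_)
  rw [Real.rpow_neg h0.le]
  have : σ x ^ q ≠ 0 := by positivity
  field_simp

/-- the corrector terms -/
lemma partII [Nonempty ι] (hW : Wt D σ A) {q : ℝ} (hq : 1 ≤ q) {f : (ι → X) → ℝ}
    (hf : ∀ x, |f x| ≤ σ x ^ q) (N : ℕ) {θ : ℤ → Finset ι → (ι → ℕ) → (ι → X) → ℝ}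
    (hθ : ∀ j : ℤ, Th D σ A ((2:ℝ) ^ (j + (N:ℤ))) (θ j)) {T : Finset ι} (hT : T.Nonempty) :
    ∑ a ∈ lvS D.L univ, ∑ x, (EE D.toDy a σ x) ^ (-q) * (EE D.toDy a (fun y => hh D Tᶜ a y *
      (f y * θ (Int.clog 2 (EE D.toDy a σ x)) T (rs D.L T a) y)) x) ^ 2
      ≤ (2 ^ q * ((2:ℝ) ^ N) ^ q * ((Lam ι A ^ Fintype.card ι) ^ q * (Lam ι A ^ Fintype.card ι) ^ q)
        * (2 * (Fintype.card ι : ℝ)) ^ Fintype.card ι * 2) * ∑ x, σ x ^ q := by
  have hL := Lam_ge (ι := ι) hW.one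
  set d := Fintype.card ι with hd
  have h2d : (1:ℝ) ≤ 2 * (d:ℝ) := by
    have : (1:ℝ) ≤ d := by exact_mod_cast Fintype.card_pos
    linarith
  set Ld := Lam ι A ^ d with hLd
  have hLd0 : 0 < Ld := by positivity
  refine (level_sum hW (by linarith) (fun j a x => (EE D.toDy a (fun y => hh D Tᶜ a y *
      (f y * θ j T (rs D.L T a) y)) x) ^ 2) (fun _ _ _ => sq_nonneg _)).trans ?_
  have e1 : ∀ j ∈ JJ D σ, 2 ^ q * ((2:ℝ) ^ j) ^ (-q) * ∑ a ∈ lvS D.L univ, ∑ x,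
      (EE D.toDy a (fun y => hh D Tᶜ a y * (f y * θ j T (rs D.L T a) y)) x) ^ 2
      ≤ ∑ x, (2 ^ q * ((2:ℝ) ^ N) ^ q * (Ld ^ q * Ld ^ q) * (2 * (d:ℝ)) ^ d) *
        (if (2:ℝ) ^ (j + (N:ℤ)) < σ x then ((2:ℝ) ^ (j + (N:ℤ))) ^ q else 0) := by
    intro j _
    set s := (2:ℝ) ^ (j + (N:ℤ)) with hs
    have s0 : 0 < s := by positivity
    have b := bess2 (D := D) T (fun a y => f y * θ j T a y)
    have b2 : ∑ a ∈ lvS D.L T, ∑ x, (f x * θ j T a x) ^ 2
        ≤ ((Ld * s) ^ q * (Ld * s) ^ q) * ((2 * (d:ℝ)) ^ d * ∑ x, bad σ s x) := by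
      have b3 : ∀ a ∈ lvS D.L T, ∀ x, (f x * θ j T a x) ^ 2
          ≤ ((Ld * s) ^ q * (Ld * s) ^ q) * θ j T a x ^ 2 := by
        intro a ha x
        rw [mul_pow]
        by_cases h0 : θ j T a x = 0
        · rw [h0]; simp
        · have h1 := (hθ j).supp T hT a ha x h0
          have h2 : σ x ≤ Ld * s := by
            refine h1.trans (mul_le_mul_of_nonneg_right ?_ s0.le)
            exact pow_le_pow_right₀ (by linarith) (card_le_univ T)
          have h3 : σ x ^ q ≤ (Ld * s) ^ q := Real.rpow_le_rpow (hW.pos x).le h2 (by linarith)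
          refine mul_le_mul_of_nonneg_right ?_ (sq_nonneg _)
          refine (sq_le_rpow (hW.pos x) (hf x)).trans ?_
          have := hW.pos x
          exact mul_le_mul h3 h3 (by positivity) (by positivity)
      refine (sum_le_sum fun a ha => sum_le_sum fun x _ => b3 a ha x).trans ?_
      simp only [← mul_sum]
      refine mul_le_mul_of_nonneg_left ?_ (by positivity)
      refine ((hθ j).sum_le T).trans ?_
      refine mul_le_mul_of_nonneg_right ?_ (sum_nonneg fun x _ => bad_nonneg x)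
      exact pow_le_pow_right₀ h2d (card_le_univ T)
    refine (mul_le_mul_of_nonneg_left (b.trans b2) (by positivity)).trans (le_of_eq ?_)
    rw [mul_sum, mul_sum, mul_sum]
    refine sum_congr rfl fun x _ => ?_
    unfold bad
    split_ifs with hc
    · rw [s_shift j N q, ← hs, Real.mul_rpow hLd0.le s0.le, Real.rpow_neg s0.le]
      have : s ^ q ≠ 0 := by positivity
      field_simp
    · simp
  refine (sum_le_sum e1).trans ?_
  rw [sum_comm, mul_sum]
  refine sum_le_sum fun x _ => ?_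
  have h0 := hW.pos x
  rw [← mul_sum]
  have h1 := sum_zpow_lt (JJ D σ) (fun j => j + (N:ℤ)) (fun i _ j _ hij => by
    have hij' : i + (N:ℤ) = j + N := hij
    omega) hq h0
  refine (mul_le_mul_of_nonneg_left h1 (by positivity)).trans (le_of_eq ?_)
  ring

variable (D σ)

/-- weighted norm of the coefficients of level `a` -/
noncomputable def SD (f : (ι → X) → ℝ) (q : ℝ) (a : ι → ℕ) : ℝ :=
  ∑ x, (EE D.toDy a σ x) ^ (-q) * cc D f a x ^ 2

/-- level weights -/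
noncomputable def om (ρ : ℝ) (M : ℕ) (a : ι → ℕ) : ℝ :=
  (2:ℝ) ^ (4 * ρ * (((∑ m, a m : ℕ) : ℝ) - M))

variable {D σ}

/-- local form of the estimate of the cross terms -/
lemma loc3 [Nonempty ι] (hW : Wt D σ A) {s : ℝ} (hs : 0 < s)
    {θ : Finset ι → (ι → ℕ) → (ι → X) → ℝ} (h : Th D σ A s θ) {ρ : ℝ} (hρ : 0 < ρ)
    (hρ1 : ρ ≤ 1) (f : (ι → X) → ℝ) {a : ι → ℕ} {x : ι → X} {κ : ℝ}
    (hσ : EE D.toDy a σ x ≤ κ * s) (hκ : κ ≤ 1) :
    (EE D.toDy a σ x) ^ (-(1 + ρ)) * (∑ b ∈ (lvS D.L univ).filter (fun b => a ≤ b),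
        EE D.toDy a (fun y => cc D f b y * EE D.toDy b (fun z => hh D univ b z * Xi D θ a z) y) x) ^ 2
      ≤ ((1 - (2:ℝ) ^ (-ρ))⁻¹) ^ Fintype.card ι * (K3 ι A * κ ^ ρ) *
        ∑ b ∈ (lvS D.L univ).filter (fun b => a ≤ b), ((2:ℝ) ^ (3 * ρ)) ^ (∑ m, (b m - a m)) *
          EE D.toDy a (fun y => cc D f b y ^ 2 * ((EE D.toDy b σ y) ^ (1 + ρ))⁻¹) x := by
  set q := 1 + ρ with hq
  set w := (2:ℝ) ^ (-ρ) with hw
  have w0 : 0 < w := by positivity
  have w1 : w < 1 := Real.rpow_lt_one_of_one_lt_of_neg (by norm_num) (by linarith)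
  set sa := EE D.toDy a σ x with hsa
  have sa0 : 0 < sa := EE_pos hW.pos x
  have hσ1 : sa ≤ s := hσ.trans (by nlinarith)
  have hK3 := K3_pos (ι := ι) hW.one
  set t : (ι → ℕ) → ℕ := fun b => ∑ m, (b m - a m) with ht
  set u : (ι → ℕ) → ℝ := fun b => EE D.toDy a (fun y => cc D f b y *
    EE D.toDy b (fun z => hh D univ b z * Xi D θ a z) y) x with hu
  set S : (ι → ℕ) → ℝ := fun b =>
    EE D.toDy a (fun y => cc D f b y ^ 2 * ((EE D.toDy b σ y) ^ q)⁻¹) x with hS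
  have S0 : ∀ b, 0 ≤ S b := fun b => EE_nonneg (fun y => by
    have := EE_pos (D := D.toDy) (a := b) hW.pos y
    positivity) x
  have c1 := sum_sq_le_sum_mul_sum_of_sq_le_mul ((lvS D.L univ).filter (fun b => a ≤ b))
    (r := u) (f := fun b => w ^ t b) (g := fun b => (w ^ t b)⁻¹ * u b ^ 2)
    (fun b _ => by positivity) (fun b _ => by positivity) (fun b _ => le_of_eq (by field_simp))
  have c2 : ∑ b ∈ (lvS D.L univ).filter (fun b => a ≤ b), w ^ t b ≤ ((1 - w)⁻¹) ^ Fintype.card ι := by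
    rw [sum_filter]
    exact sum_box_ge w0.le w1 D.L a
  have hκ0 : 0 ≤ κ := by
    by_contra hc
    push Not at hc
    have := mul_neg_of_neg_of_pos hc hs
    linarith
  have c3 : ∀ b ∈ (lvS D.L univ).filter (fun b => a ≤ b), (w ^ t b)⁻¹ * u b ^ 2
      ≤ (K3 ι A * κ ^ ρ * sa ^ q) * (((2:ℝ) ^ (3 * ρ)) ^ t b * S b) := by
    intro b hb
    rw [mem_filter, mem_full] at hb
    have d1 : u b ^ 2 ≤ S b * EE D.toDy a (fun y => (EE D.toDy b σ y) ^ q *
        (EE D.toDy b (fun z => hh D univ b z * Xi D θ a z) y) ^ 2) x :=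
      EE_cs_w _ _ (fun y => (EE D.toDy b σ y) ^ q) (fun y => by
        have := EE_pos (D := D.toDy) (a := b) hW.pos y
        positivity) x
    have d2 := Z_bound hW hs h hρ hρ1 hb.1 hb.2 (x := x) hσ1
    rw [← hsa, ← hq] at d2
    have d3 : (sa / s) ^ ρ ≤ κ ^ ρ := by
      refine Real.rpow_le_rpow (by positivity) ?_ hρ.le
      rw [div_le_iff₀ hs]; exact hσ
    have d4 : u b ^ 2 ≤ S b * (K3 ι A * ((2:ℝ) ^ (2 * ρ)) ^ t b * (sa ^ q * κ ^ ρ)) := by
      refine d1.trans (mul_le_mul_of_nonneg_left (d2.trans ?_) (S0 b))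
      refine mul_le_mul_of_nonneg_left ?_ (by positivity)
      exact mul_le_mul_of_nonneg_left d3 (by positivity)
    have d5 : (w ^ t b)⁻¹ * ((2:ℝ) ^ (2 * ρ)) ^ t b = ((2:ℝ) ^ (3 * ρ)) ^ t b := by
      rw [← inv_pow, ← mul_pow]
      congr 1
      rw [hw, Real.rpow_neg (by norm_num), inv_inv, ← Real.rpow_add (by norm_num)]
      congr 1; ring
    calc _ ≤ (w ^ t b)⁻¹ * (S b * (K3 ι A * ((2:ℝ) ^ (2 * ρ)) ^ t b * (sa ^ q * κ ^ ρ))) :=
          mul_le_mul_of_nonneg_left d4 (by positivity)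
      _ = (K3 ι A * κ ^ ρ * sa ^ q) * (((w ^ t b)⁻¹ * ((2:ℝ) ^ (2 * ρ)) ^ t b) * S b) := by ring
      _ = _ := by rw [d5]
  have c4 : (∑ b ∈ (lvS D.L univ).filter (fun b => a ≤ b), u b) ^ 2
      ≤ ((1 - w)⁻¹) ^ Fintype.card ι * ((K3 ι A * κ ^ ρ * sa ^ q) *
        ∑ b ∈ (lvS D.L univ).filter (fun b => a ≤ b), ((2:ℝ) ^ (3 * ρ)) ^ t b * S b) := by
    refine c1.trans ?_
    have c5 := sum_le_sum c3
    rw [← mul_sum] at c5
    refine mul_le_mul c2 c5 (sum_nonneg fun b _ => by positivity) ?_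
    have : 0 < 1 - w := by linarith
    positivity
  have c6 : sa ^ (-q) * sa ^ q = 1 := by rw [← Real.rpow_add sa0]; simp
  calc sa ^ (-q) * (∑ b ∈ (lvS D.L univ).filter (fun b => a ≤ b), u b) ^ 2
      ≤ sa ^ (-q) * (((1 - w)⁻¹) ^ Fintype.card ι * ((K3 ι A * κ ^ ρ * sa ^ q) *
        ∑ b ∈ (lvS D.L univ).filter (fun b => a ≤ b), ((2:ℝ) ^ (3 * ρ)) ^ t b * S b)) :=
        mul_le_mul_of_nonneg_left c4 (by positivity)
    _ = (sa ^ (-q) * sa ^ q) * (((1 - w)⁻¹) ^ Fintype.card ι * (K3 ι A * κ ^ ρ) *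
        ∑ b ∈ (lvS D.L univ).filter (fun b => a ≤ b), ((2:ℝ) ^ (3 * ρ)) ^ t b * S b) := by ring
    _ = _ := by rw [c6, one_mul]

lemma om_shift (ρ : ℝ) (M : ℕ) {a b : ι → ℕ} (hab : a ≤ b) :
    om ρ M a * ((2:ℝ) ^ (3 * ρ)) ^ (∑ m, (b m - a m))
      = om ρ M b * ((2:ℝ) ^ (-ρ)) ^ (∑ m, (b m - a m)) := by
  unfold om
  have e : ((∑ m, (b m - a m) : ℕ) : ℝ) = ((∑ m, b m : ℕ) : ℝ) - ((∑ m, a m : ℕ) : ℝ) := by
    rw [eq_sub_iff_add_eq]
    exact_mod_cast (by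
      rw [← sum_add_distrib]
      exact sum_congr rfl fun m _ => Nat.sub_add_cancel (hab m))
  rw [← Real.rpow_natCast ((2:ℝ) ^ (3 * ρ)), ← Real.rpow_natCast ((2:ℝ) ^ (-ρ)),
    ← Real.rpow_mul (by norm_num), ← Real.rpow_mul (by norm_num), ← Real.rpow_add (by norm_num),
    ← Real.rpow_add (by norm_num), e]
  congr 1
  ring

lemma om_pos (ρ : ℝ) (M : ℕ) (a : ι → ℕ) : 0 < om ρ M a := by unfold om; positivity

lemma SD_nonneg (hW : Wt D σ A) (f : (ι → X) → ℝ) (q : ℝ) (a : ι → ℕ) : 0 ≤ SD D σ f q a :=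
  sum_nonneg fun x _ => mul_nonneg (Real.rpow_nonneg (EE_pos hW.pos x).le _) (sq_nonneg _)

/-- the cross terms -/
lemma partIII [Nonempty ι] (hW : Wt D σ A) {ρ : ℝ} (hρ : 0 < ρ) (hρ1 : ρ ≤ 1)
    (f : (ι → X) → ℝ) (N : ℕ) {θ : ℤ → Finset ι → (ι → ℕ) → (ι → X) → ℝ}
    (hθ : ∀ j : ℤ, Th D σ A ((2:ℝ) ^ (j + (N:ℤ))) (θ j)) (M : ℕ) :
    ∑ a ∈ lvS D.L univ, om ρ M a * ∑ x, (EE D.toDy a σ x) ^ (-(1 + ρ)) *
      (∑ b ∈ (lvS D.L univ).filter (fun b => a ≤ b),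
        EE D.toDy a (fun y => cc D f b y * EE D.toDy b (fun z => hh D univ b z *
          Xi D (θ (Int.clog 2 (EE D.toDy a σ x))) a z) y) x) ^ 2
      ≤ (((1 - (2:ℝ) ^ (-ρ))⁻¹) ^ Fintype.card ι * (((1 - (2:ℝ) ^ (-ρ))⁻¹) ^ Fintype.card ι
        * (K3 ι A * (((2:ℝ) ^ N)⁻¹) ^ ρ))) * ∑ b ∈ lvS D.L univ, om ρ M b * SD D σ f (1 + ρ) b := by
  set G := ((1 - (2:ℝ) ^ (-ρ))⁻¹) ^ Fintype.card ι with hG
  set κ := ((2:ℝ) ^ N)⁻¹ with hκ
  set q := 1 + ρ with hq
  have w1 : (2:ℝ) ^ (-ρ) < 1 := Real.rpow_lt_one_of_one_lt_of_neg (by norm_num) (by linarith)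
  have w0 : 0 < (2:ℝ) ^ (-ρ) := by positivity
  have G0 : 0 < G := by
    have : 0 < 1 - (2:ℝ) ^ (-ρ) := by linarith
    positivity
  have hK3 := K3_pos (ι := ι) hW.one
  have e1 : ∀ a ∈ lvS D.L (univ : Finset ι), ∑ x, (EE D.toDy a σ x) ^ (-q) *
      (∑ b ∈ (lvS D.L univ).filter (fun b => a ≤ b),
        EE D.toDy a (fun y => cc D f b y * EE D.toDy b (fun z => hh D univ b z *
          Xi D (θ (Int.clog 2 (EE D.toDy a σ x))) a z) y) x) ^ 2
      ≤ (G * (K3 ι A * κ ^ ρ)) * ∑ b ∈ (lvS D.L univ).filter (fun b => a ≤ b),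
        ((2:ℝ) ^ (3 * ρ)) ^ (∑ m, (b m - a m)) * SD D σ f q b := by
    intro a _
    have f1 : ∀ x, (EE D.toDy a σ x) ^ (-q) *
      (∑ b ∈ (lvS D.L univ).filter (fun b => a ≤ b),
        EE D.toDy a (fun y => cc D f b y * EE D.toDy b (fun z => hh D univ b z *
          Xi D (θ (Int.clog 2 (EE D.toDy a σ x))) a z) y) x) ^ 2
        ≤ (G * (K3 ι A * κ ^ ρ)) * ∑ b ∈ (lvS D.L univ).filter (fun b => a ≤ b),
          ((2:ℝ) ^ (3 * ρ)) ^ (∑ m, (b m - a m)) *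
          EE D.toDy a (fun y => cc D f b y ^ 2 * ((EE D.toDy b σ y) ^ q)⁻¹) x := by
      intro x
      have hb := (clog_bounds (EE_pos (D := D.toDy) (a := a) hW.pos x)).1
      refine loc3 hW (by positivity) (hθ _) hρ hρ1 f (κ := κ) ?_ ?_
      · refine hb.trans (le_of_eq ?_)
        rw [zpow_add₀ (by norm_num), zpow_natCast, hκ]
        have : (2:ℝ) ^ N ≠ 0 := by positivity
        field_simp
      · rw [hκ]
        exact inv_le_one_of_one_le₀ (one_le_pow₀ (by norm_num))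
    refine (sum_le_sum fun x _ => f1 x).trans (le_of_eq ?_)
    rw [← mul_sum, sum_comm]
    congr 1
    refine sum_congr rfl fun b _ => ?_
    rw [← mul_sum, sum_EE]
    congr 1
    unfold SD
    refine sum_congr rfl fun y _ => ?_
    rw [Real.rpow_neg (EE_pos hW.pos y).le, mul_comm]
  have e2 : ∑ a ∈ lvS D.L (univ : Finset ι), om ρ M a * ∑ b ∈ (lvS D.L univ).filter (fun b => a ≤ b),
        ((2:ℝ) ^ (3 * ρ)) ^ (∑ m, (b m - a m)) * SD D σ f q b
      ≤ G * ∑ b ∈ lvS D.L univ, om ρ M b * SD D σ f q b := by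
    have g1 : ∀ a ∈ lvS D.L (univ : Finset ι),
        om ρ M a * ∑ b ∈ (lvS D.L univ).filter (fun b => a ≤ b),
          ((2:ℝ) ^ (3 * ρ)) ^ (∑ m, (b m - a m)) * SD D σ f q b
        = ∑ b ∈ lvS D.L univ, (om ρ M b * SD D σ f q b) *
          (if a ≤ b then ((2:ℝ) ^ (-ρ)) ^ (∑ m, (b m - a m)) else 0) := by
      intro a _
      rw [mul_sum, sum_filter]
      refine sum_congr rfl fun b _ => ?_
      split_ifs with hab
      · rw [← mul_assoc, om_shift ρ M hab]; ring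
      · rw [mul_zero]
    rw [sum_congr rfl g1, sum_comm, mul_sum]
    refine sum_le_sum fun b _ => ?_
    rw [← mul_sum, mul_comm]
    refine mul_le_mul_of_nonneg_right (sum_box_le w0.le w1 D.L b) ?_
    exact mul_nonneg (om_pos _ _ _).le (SD_nonneg hW _ _ _)
  calc _ ≤ ∑ a ∈ lvS D.L (univ : Finset ι), om ρ M a * ((G * (K3 ι A * κ ^ ρ)) *
        ∑ b ∈ (lvS D.L univ).filter (fun b => a ≤ b),
        ((2:ℝ) ^ (3 * ρ)) ^ (∑ m, (b m - a m)) * SD D σ f q b) :=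
        sum_le_sum fun a ha => mul_le_mul_of_nonneg_left (e1 a ha) (om_pos _ _ _).le
    _ = (G * (K3 ι A * κ ^ ρ)) * ∑ a ∈ lvS D.L (univ : Finset ι), om ρ M a *
        ∑ b ∈ (lvS D.L univ).filter (fun b => a ≤ b),
        ((2:ℝ) ^ (3 * ρ)) ^ (∑ m, (b m - a m)) * SD D σ f q b := by
        rw [mul_sum]
        exact sum_congr rfl fun a _ => by ring
    _ ≤ (G * (K3 ι A * κ ^ ρ)) * (G * ∑ b ∈ lvS D.L univ, om ρ M b * SD D σ f q b) :=
        mul_le_mul_of_nonneg_left e2 (by positivity)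
    _ = _ := by ring

lemma comb_sum {Ω κ : Type*} [Fintype Ω] (S : Finset κ) (v c T1 T3 : Ω → ℝ) (T2 : κ → Ω → ℝ)
    (K : ℝ) (hv : ∀ x, 0 ≤ v x)
    (h : ∀ x, c x ^ 2 ≤ 3 * (T1 x ^ 2 + K * (∑ T ∈ S, T2 T x ^ 2) + T3 x ^ 2)) :
    ∑ x, v x * c x ^ 2 ≤ 3 * ((∑ x, v x * T1 x ^ 2) + K * (∑ T ∈ S, ∑ x, v x * T2 T x ^ 2)
      + ∑ x, v x * T3 x ^ 2) := by
  refine (sum_le_sum fun x _ => mul_le_mul_of_nonneg_left (h x) (hv x)).trans (le_of_eq ?_)
  have e1 : ∀ x, v x * (3 * (T1 x ^ 2 + K * (∑ T ∈ S, T2 T x ^ 2) + T3 x ^ 2))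
      = 3 * (v x * T1 x ^ 2) + 3 * K * (∑ T ∈ S, v x * T2 T x ^ 2) + 3 * (v x * T3 x ^ 2) := by
    intro x
    rw [← mul_sum]; ring
  rw [sum_congr rfl fun x _ => e1 x, sum_add_distrib, sum_add_distrib, ← mul_sum, ← mul_sum,
    ← mul_sum, sum_comm]
  ring

lemma comb_om {S A B C o K : ℝ} (h : S ≤ 3 * (A + K * B + C)) (hA : 0 ≤ A) (hB : 0 ≤ B)
    (hC : 0 ≤ C) (hK : 0 ≤ K) (ho : 0 < o) (ho1 : o ≤ 1) : o * S ≤ 3 * (A + K * B + o * C) := by
  have h1 := mul_le_mul_of_nonneg_left h ho.le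
  have h2 : o * (A + K * B) ≤ 1 * (A + K * B) := mul_le_mul_of_nonneg_right ho1 (by positivity)
  linarith

lemma comb_nn {A B C o K : ℝ} (hA : 0 ≤ A) (hB : 0 ≤ B)
    (hC : 0 ≤ C) (hK : 0 ≤ K) (ho : 0 < o) : 0 ≤ 3 * (A + K * B + o * C) := by positivity

/-- **Main dyadic inequality.** -/
theorem thmD (ι : Type) [Fintype ι] [DecidableEq ι] [Nonempty ι] {A ρ : ℝ} (hA : 1 ≤ A)
    (hρ : 0 < ρ) (hρ1 : ρ ≤ 1) :
    ∃ C : ℝ, 0 ≤ C ∧ ∀ (X : Type) [Fintype X] [DecidableEq X] (D : HDy X) (σ f : (ι → X) → ℝ),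
      Wt D σ A → (∀ x, |f x| ≤ σ x ^ (1 + ρ)) →
      (∀ m x, EE D.toDy (em D.L m 0) f x = 0) → ∀ M : ℕ,
      ∑ a ∈ lvS D.L univ, (if ∑ m, a m < M then om ρ M a * SD D σ f (1 + ρ) a else 0)
        ≤ C * (∑ x, σ x ^ (1 + ρ)
          + ∑ a ∈ lvS D.L univ, (if M ≤ ∑ m, a m then om ρ M a * SD D σ f (1 + ρ) a else 0)) := by
  set q := 1 + ρ with hq
  set d := Fintype.card ι with hd
  set G := ((1 - (2:ℝ) ^ (-ρ))⁻¹) ^ d with hG
  have w1 : (2:ℝ) ^ (-ρ) < 1 := Real.rpow_lt_one_of_one_lt_of_neg (by norm_num) (by linarith)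
  have w0 : 0 < (2:ℝ) ^ (-ρ) := by positivity
  have G0 : 0 < G := by
    have : 0 < 1 - (2:ℝ) ^ (-ρ) := by linarith
    positivity
  have hK3 := K3_pos (ι := ι) hA
  obtain ⟨N, hN⟩ : ∃ N : ℕ, 3 * (G * (G * (K3 ι A * (((2:ℝ) ^ N)⁻¹) ^ ρ))) < 1/2 := by
    have h1 := tendsto_pow_atTop_nhds_zero_of_lt_one w0.le w1
    have h2 := h1.const_mul (3 * (G * (G * K3 ι A)))
    rw [mul_zero] at h2
    obtain ⟨N, hN⟩ := (h2.eventually (gt_mem_nhds (by norm_num : (0:ℝ) < 1/2))).exists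
    refine ⟨N, lt_of_eq_of_lt ?_ hN⟩
    have : (((2:ℝ) ^ N)⁻¹) ^ ρ = ((2:ℝ) ^ (-ρ)) ^ N := by
      rw [Real.inv_rpow (by positivity), Real.rpow_neg (by norm_num), inv_pow,
        ← Real.rpow_natCast, ← Real.rpow_mul (by norm_num), ← Real.rpow_natCast (2 ^ ρ),
        ← Real.rpow_mul (by norm_num), mul_comm]
    rw [this]; ring
  set CI := 2 ^ q * ((2:ℝ) ^ N) ^ q * 2 with hCI
  set CII := 2 ^ q * ((2:ℝ) ^ N) ^ q * ((Lam ι A ^ d) ^ q * (Lam ι A ^ d) ^ q)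
        * (2 * (d : ℝ)) ^ d * 2 with hCII
  have hL := Lam_ge (ι := ι) hA
  have CI0 : 0 ≤ CI := by positivity
  have CII0 : 0 ≤ CII := by positivity
  set C0 := 3 * (CI + 2 ^ d * (2 ^ d * CII)) with hC0
  refine ⟨2 * C0 + 1, by positivity, ?_⟩
  intro X _ _ D σ f hW hf hf0 M
  choose θ hθ using fun j : ℤ => theta_exists (D := D) (σ := σ) (A := A)
    (s := (2:ℝ) ^ (j + (N:ℤ))) hW (by positivity)
  set T1 : (ι → ℕ) → (ι → X) → ℝ := fun a x => EE D.toDy a (fun y => hh D univ a y *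
      (f y * (1 - bad σ ((2:ℝ) ^ (Int.clog 2 (EE D.toDy a σ x) + (N:ℤ))) y))) x with hT1
  set T3 : (ι → ℕ) → (ι → X) → ℝ := fun a x => ∑ b ∈ (lvS D.L univ).filter (fun b => a ≤ b),
        EE D.toDy a (fun y => cc D f b y * EE D.toDy b (fun z => hh D univ b z *
          Xi D (θ (Int.clog 2 (EE D.toDy a σ x))) a z) y) x with hT3
  set T2 : Finset ι → (ι → ℕ) → (ι → X) → ℝ := fun T a x => EE D.toDy a (fun y => hh D Tᶜ a y *
      (f y * θ (Int.clog 2 (EE D.toDy a σ x)) T (rs D.L T a) y)) x with hT2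
  have v0 : ∀ a x, 0 ≤ (EE D.toDy a σ x) ^ (-q) := fun a x =>
    Real.rpow_nonneg (EE_pos hW.pos x).le _
  -- pointwise decomposition
  have dec : ∀ a ∈ lvS D.L (univ : Finset ι), ∀ x, cc D f a x ^ 2
      ≤ 3 * (T1 a x ^ 2 + 2 ^ d * (∑ T ∈ (univ : Finset ι).powerset.erase ∅, T2 T a x ^ 2)
        + T3 a x ^ 2) := by
    intro a ha x
    rw [mem_full] at ha
    have h1 := decomp (hθ (Int.clog 2 (EE D.toDy a σ x))) hf0 ha x
    set P := ∑ T ∈ (univ : Finset ι).powerset.erase ∅, (-1) ^ T.card * T2 T a x with hP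
    have h2 : cc D f a x = T1 a x + T3 a x - P := h1
    have h3 : P ^ 2 ≤ 2 ^ d * ∑ T ∈ (univ : Finset ι).powerset.erase ∅, T2 T a x ^ 2 := by
      have h4 := sq_sum_le_card_mul_sum_sq (s := (univ : Finset ι).powerset.erase ∅)
        (f := fun T => (-1) ^ T.card * T2 T a x)
      refine h4.trans ?_
      have h5 : (((univ : Finset ι).powerset.erase ∅).card : ℝ) ≤ 2 ^ d := by
        have : ((univ : Finset ι).powerset.erase ∅).card ≤ (univ : Finset ι).powerset.card :=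
          card_le_card (erase_subset _ _)
        rw [card_powerset, card_univ] at this
        exact_mod_cast this
      have h6 : ∑ T ∈ (univ : Finset ι).powerset.erase ∅, ((-1) ^ T.card * T2 T a x) ^ 2
          = ∑ T ∈ (univ : Finset ι).powerset.erase ∅, T2 T a x ^ 2 := by
        refine sum_congr rfl fun T _ => ?_
        rw [mul_pow, ← pow_mul, mul_comm T.card 2, pow_mul]
        norm_num
      rw [h6]
      exact mul_le_mul_of_nonneg_right h5 (sum_nonneg fun T _ => sq_nonneg _)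
    rw [h2]
    nlinarith [sq_nonneg (T1 a x - T3 a x), sq_nonneg (T1 a x + P), sq_nonneg (T3 a x + P)]
  -- the three sums
  have s1 : ∑ a ∈ lvS D.L univ, ∑ x, (EE D.toDy a σ x) ^ (-q) * T1 a x ^ 2
      ≤ CI * ∑ x, σ x ^ q := partI hW (by linarith) hf N
  have s2 : ∀ T ∈ (univ : Finset ι).powerset.erase ∅,
      ∑ a ∈ lvS D.L univ, ∑ x, (EE D.toDy a σ x) ^ (-q) * T2 T a x ^ 2
      ≤ CII * ∑ x, σ x ^ q := by
    intro T hT
    rw [mem_erase] at hT
    exact partII hW (by linarith) hf N hθ (nonempty_iff_ne_empty.2 hT.1)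
  have s3 : ∑ a ∈ lvS D.L univ, om ρ M a * ∑ x, (EE D.toDy a σ x) ^ (-q) * T3 a x ^ 2
      ≤ (G * (G * (K3 ι A * (((2:ℝ) ^ N)⁻¹) ^ ρ))) * ∑ b ∈ lvS D.L univ, om ρ M b * SD D σ f q b :=
    partIII hW hρ hρ1 f N hθ M
  set Sg := ∑ x, σ x ^ q with hSg
  set P := ∑ a ∈ lvS D.L univ, (if ∑ m, a m < M then om ρ M a * SD D σ f q a else 0) with hP
  set H := ∑ a ∈ lvS D.L univ, (if M ≤ ∑ m, a m then om ρ M a * SD D σ f q a else 0) with hH
  have hPH : ∑ b ∈ lvS D.L univ, om ρ M b * SD D σ f q b = P + H := by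
    rw [hP, hH, ← sum_add_distrib]
    refine sum_congr rfl fun a _ => ?_
    by_cases hc : ∑ m, a m < M
    · rw [if_pos hc, if_neg (not_le.2 hc), add_zero]
    · rw [if_neg hc, if_pos (not_lt.1 hc), zero_add]
  have Sg0 : 0 ≤ Sg := sum_nonneg fun x _ => Real.rpow_nonneg (hW.pos x).le _
  have P0 : 0 ≤ P := sum_nonneg fun a _ => by
    split_ifs
    · exact mul_nonneg (om_pos _ _ _).le (SD_nonneg hW _ _ _)
    · exact le_rfl
  have H0 : 0 ≤ H := sum_nonneg fun a _ => by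
    split_ifs
    · exact mul_nonneg (om_pos _ _ _).le (SD_nonneg hW _ _ _)
    · exact le_rfl
  -- combination
  have om1 : ∀ a : ι → ℕ, ∑ m, a m < M → om ρ M a ≤ 1 := by
    intro a ha
    unfold om
    refine Real.rpow_le_one_of_one_le_of_nonpos (by norm_num) ?_
    have : ((∑ m, a m : ℕ) : ℝ) ≤ M := by exact_mod_cast ha.le
    have : ((∑ m, a m : ℕ) : ℝ) - M ≤ 0 := by linarith
    exact mul_nonpos_of_nonneg_of_nonpos (by linarith) this
  have main : P ≤ 3 * (CI * Sg + 2 ^ d * (2 ^ d * (CII * Sg))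
      + (G * (G * (K3 ι A * (((2:ℝ) ^ N)⁻¹) ^ ρ))) * (P + H)) := by
    have m1 : ∀ a ∈ lvS D.L (univ : Finset ι), (if ∑ m, a m < M then om ρ M a * SD D σ f q a else 0)
        ≤ 3 * ((∑ x, (EE D.toDy a σ x) ^ (-q) * T1 a x ^ 2)
          + 2 ^ d * (∑ T ∈ (univ : Finset ι).powerset.erase ∅,
            ∑ x, (EE D.toDy a σ x) ^ (-q) * T2 T a x ^ 2)
          + om ρ M a * ∑ x, (EE D.toDy a σ x) ^ (-q) * T3 a x ^ 2) := by
      intro a ha
      have n1 : 0 ≤ ∑ x, (EE D.toDy a σ x) ^ (-q) * T1 a x ^ 2 :=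
        sum_nonneg fun x _ => mul_nonneg (v0 a x) (sq_nonneg _)
      have n2 : 0 ≤ ∑ T ∈ (univ : Finset ι).powerset.erase ∅,
            ∑ x, (EE D.toDy a σ x) ^ (-q) * T2 T a x ^ 2 :=
        sum_nonneg fun T _ => sum_nonneg fun x _ => mul_nonneg (v0 a x) (sq_nonneg _)
      have n3 : 0 ≤ ∑ x, (EE D.toDy a σ x) ^ (-q) * T3 a x ^ 2 :=
        sum_nonneg fun x _ => mul_nonneg (v0 a x) (sq_nonneg _)
      have o0 := om_pos ρ M a
      split_ifs with hc
      · exact comb_om (comb_sum _ _ _ _ _ _ _ (v0 a) (dec a ha)) n1 n2 n3 (by positivity) o0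
          (om1 a hc)
      · exact comb_nn n1 n2 n3 (by positivity) o0
    refine (sum_le_sum m1).trans ?_
    rw [← mul_sum]
    refine mul_le_mul_of_nonneg_left ?_ (by norm_num)
    rw [sum_add_distrib, sum_add_distrib]
    rw [hPH] at s3
    refine add_le_add (add_le_add s1 ?_) s3
    rw [← mul_sum, sum_comm]
    refine mul_le_mul_of_nonneg_left ?_ (by positivity)
    refine (sum_le_sum s2).trans ?_
    rw [sum_const, nsmul_eq_mul]
    have h5 : (((univ : Finset ι).powerset.erase ∅).card : ℝ) ≤ 2 ^ d := by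
      have : ((univ : Finset ι).powerset.erase ∅).card ≤ (univ : Finset ι).powerset.card :=
        card_le_card (erase_subset _ _)
      rw [card_powerset, card_univ] at this
      exact_mod_cast this
    exact mul_le_mul_of_nonneg_right h5 (by positivity)
  set κ := 3 * (G * (G * (K3 ι A * (((2:ℝ) ^ N)⁻¹) ^ ρ))) with hκ
  have main2 : P ≤ C0 * Sg + κ * (P + H) := by
    refine main.trans (le_of_eq ?_)
    rw [hC0, hκ]; ring
  have hκ1 : κ * (P + H) ≤ (1/2) * (P + H) := mul_le_mul_of_nonneg_right hN.le (by positivity)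
  have C00 : 0 ≤ C0 := by positivity
  have : P ≤ 2 * C0 * Sg + H := by linarith
  nlinarith [mul_nonneg C00 H0]

end HD

end

section
/-!
The concrete filtration, duality for the `ℓ¹` norm, complex versions.
-/

open Finset
open scoped Classical

set_option linter.unusedSectionVars false

namespace HD

section conc

/-- sign function of level `j` on `ZMod (2^L)` -/
noncomputable def hs (L j : ℕ) (x : ZMod (2 ^ L)) : ℝ :=
  if x.val / HC.ell L (j+1) % 2 = 0 then 1 else -1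

lemma ell_succ {L j : ℕ} (h : j < L) : HC.ell L j = HC.ell L (j+1) * 2 := by
  unfold HC.ell
  rw [← pow_succ]; congr 1; omega

/-- the dyadic filtration with signs -/
noncomputable def hdy (L : ℕ) : HDy (ZMod (2 ^ L)) where
  toDy := HC.dy L
  L := L
  top x y h := by
    have h' : x.val / HC.ell L L = y.val / HC.ell L L := h
    rw [HC.ell_top le_rfl, Nat.div_one, Nat.div_one] at h'
    exact ZMod.val_injective _ h'
  h := hs L
  hsq j x := by unfold hs; split_ifs <;> norm_num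
  hk j hj x y := by
    have e1 : ∀ i, ek (HC.dy L) i x y = if y.val / HC.ell L i = x.val / HC.ell L i
      then ((HC.ell L i : ℕ) : ℝ)⁻¹ else 0 := fun i => rfl
    rw [e1, e1]
    unfold hs
    rw [ell_succ hj, ← Nat.div_div_eq_div_mul, ← Nat.div_div_eq_div_mul]
    set u := x.val / HC.ell L (j+1)
    set v := y.val / HC.ell L (j+1)
    have hl : (0:ℝ) < (HC.ell L (j+1) : ℕ) := by exact_mod_cast HC.ell_pos L (j+1)
    push_cast
    by_cases h1 : v / 2 = u / 2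
    · by_cases h2 : v = u
      · rw [if_pos h2, if_pos h1, h2]
        split_ifs <;> field_simp <;> norm_num
      · rw [if_neg h2, if_pos h1]
        by_cases h3 : u % 2 = 0
        · have h4 : ¬ v % 2 = 0 := by omega
          rw [if_pos h3, if_neg h4]; ring
        · have h4 : v % 2 = 0 := by omega
          rw [if_neg h3, if_pos h4]; ring
    · have h2 : v ≠ u := fun h => h1 (by rw [h])
      rw [if_neg h2, if_neg h1]; ring

end conc

variable {X : Type} [Fintype X] [DecidableEq X] {ι : Type} [Fintype ι] [DecidableEq ι]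
variable {D : HDy X} {σ : (ι → X) → ℝ} {A : ℝ}

lemma cc_BM {F : Type} [AddCommGroup F] [Module ℝ F] (f : (ι → X) → F) (a : ι → ℕ) :
    BM D.toDy a (cc D f a) := EE_BM a _

/-- upper level sums -/
lemma level_sum_up [Nonempty ι] (hW : Wt D σ A) {q : ℝ} (hq : 1 ≤ q) (g : (ι → X) → ℝ)
    (hg : ∀ x, |g x| ≤ 1) :
    ∑ a ∈ lvS D.L univ, ∑ x, (EE D.toDy a σ x) ^ q * cc D g a x ^ 2
      ≤ (2 ^ q * (2 * (A ^ Fintype.card ι) ^ q)) * ∑ x, σ x ^ q := by
  have hA := hW.one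
  set Ad := A ^ Fintype.card ι with hAd
  have hAd0 : 0 < Ad := by positivity
  set ind : ℤ → (ι → X) → ℝ := fun j y => if (2:ℝ) ^ (j - 1) < Ad * σ y then 1 else 0 with hind
  have e1 : ∀ a ∈ lvS D.L (univ : Finset ι), ∀ x : ι → X,
      (EE D.toDy a σ x) ^ q * cc D g a x ^ 2
      ≤ ∑ j ∈ JJ D σ, ((2:ℝ) ^ j) ^ q *
        (EE D.toDy a (fun y => hh D univ a y * (g y * ind j y)) x) ^ 2 := by
    intro a ha x
    have hj : Int.clog 2 (EE D.toDy a σ x) ∈ JJ D σ := by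
      unfold JJ
      rw [mem_image]
      exact ⟨(a, x), by rw [mem_product]; exact ⟨ha, mem_univ _⟩, rfl⟩
    refine le_trans ?_ (single_le_sum (f := fun j => ((2:ℝ) ^ j) ^ q *
        (EE D.toDy a (fun y => hh D univ a y * (g y * ind j y)) x) ^ 2)
      (fun j _ => by positivity) hj)
    have hb := clog_bounds (EE_pos (D := D.toDy) (a := a) hW.pos x)
    have e2 : cc D g a x = EE D.toDy a (fun y => hh D univ a y *
        (g y * ind (Int.clog 2 (EE D.toDy a σ x)) y)) x := by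
      unfold cc
      refine EE_congr fun y hy => ?_
      have h1 := hW.le (lvS_le ha) y
      rw [cell_trans hy] at h1
      simp only [hind]
      rw [if_pos (lt_of_lt_of_le hb.2 h1), mul_one, smul_eq_mul]
    rw [e2]
    refine mul_le_mul_of_nonneg_right ?_ (sq_nonneg _)
    exact Real.rpow_le_rpow (EE_pos hW.pos x).le hb.1 (by linarith)
  refine (sum_le_sum fun a ha => sum_le_sum fun x _ => e1 a ha x).trans ?_
  have e3 : ∑ a ∈ lvS D.L (univ : Finset ι), ∑ x, ∑ j ∈ JJ D σ, ((2:ℝ) ^ j) ^ q *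
        (EE D.toDy a (fun y => hh D univ a y * (g y * ind j y)) x) ^ 2
      = ∑ j ∈ JJ D σ, ((2:ℝ) ^ j) ^ q * ∑ a ∈ lvS D.L univ, ∑ x,
        (EE D.toDy a (fun y => hh D univ a y * (g y * ind j y)) x) ^ 2 := by
    simp only [mul_sum]
    rw [sum_congr rfl fun a _ => sum_comm, sum_comm]
  rw [e3]
  have e4 : ∀ j ∈ JJ D σ, ((2:ℝ) ^ j) ^ q * ∑ a ∈ lvS D.L univ, ∑ x,
        (EE D.toDy a (fun y => hh D univ a y * (g y * ind j y)) x) ^ 2
      ≤ ∑ x, 2 ^ q * (if (2:ℝ) ^ (j - 1) < Ad * σ x then ((2:ℝ) ^ (j - 1)) ^ q else 0) := by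
    intro j _
    have b := bessel (D := D) univ (fun y => g y * ind j y)
    refine (mul_le_mul_of_nonneg_left b (by positivity)).trans ?_
    rw [mul_sum]
    refine sum_le_sum fun x _ => ?_
    simp only [hind]
    split_ifs with hc
    · rw [mul_one]
      have h2 : g x ^ 2 ≤ 1 := by
        rw [← sq_abs]; exact pow_le_one₀ (abs_nonneg _) (hg x)
      have h3 : ((2:ℝ) ^ j) ^ q = 2 ^ q * ((2:ℝ) ^ (j - 1)) ^ q := by
        rw [← Real.mul_rpow (by norm_num) (by positivity)]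
        congr 1
        rw [zpow_sub_one₀ (by norm_num)]
        ring
      rw [h3]
      calc 2 ^ q * ((2:ℝ) ^ (j - 1)) ^ q * g x ^ 2 ≤ 2 ^ q * ((2:ℝ) ^ (j - 1)) ^ q * 1 :=
            mul_le_mul_of_nonneg_left h2 (by positivity)
        _ = _ := mul_one _
    · simp
  refine (sum_le_sum e4).trans ?_
  rw [sum_comm, mul_sum]
  refine sum_le_sum fun x _ => ?_
  have h0 := hW.pos x
  rw [← mul_sum]
  have h1 := sum_zpow_lt (JJ D σ) (fun j => j - 1) (fun i _ j _ hij => by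
    have hij' : i - 1 = j - 1 := hij
    omega) hq (mul_pos hAd0 h0)
  refine (mul_le_mul_of_nonneg_left h1 (by positivity)).trans (le_of_eq ?_)
  rw [Real.mul_rpow hAd0.le h0.le]
  ring

/-- duality -/
theorem dual_l1 [Nonempty ι] (hW : Wt D σ A) {q : ℝ} (hq : 1 ≤ q) {f : (ι → X) → ℝ}
    (hf : ∀ m x, EE D.toDy (em D.L m 0) f x = 0) :
    (∑ x, |f x|) ^ 2 ≤ ((2 ^ q * (2 * (A ^ Fintype.card ι) ^ q)) * ∑ x, σ x ^ q) *
      ∑ a ∈ lvS D.L univ, SD D σ f q a := by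
  set g : (ι → X) → ℝ := fun x => SignType.sign (f x) with hg
  have hfg : ∀ x, |f x| = f x * g x := fun x => by
    simp only [hg]; exact (self_mul_sign (f x)).symm
  have hg2 : ∀ x, |g x| ≤ 1 := by
    intro x
    simp only [hg]
    rcases lt_trichotomy (f x) 0 with h | h | h
    · simp [sign_neg h]
    · simp [h]
    · simp [sign_pos h]
  have e1 : ∑ x, |f x| = ∑ a ∈ lvS D.L univ, ∑ x, cc D f a x * cc D g a x := by
    calc ∑ x, |f x| = ∑ x, (∑ a ∈ lvS D.L univ, hh D univ a x * cc D f a x) * g x := by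
          refine sum_congr rfl fun x _ => ?_
          rw [hfg]
          nth_rewrite 1 [expansion hf x]
          rfl
      _ = ∑ a ∈ lvS D.L univ, ∑ x, cc D f a x * (hh D univ a x * g x) := by
          simp only [sum_mul]
          rw [sum_comm]
          exact sum_congr rfl fun a _ => sum_congr rfl fun x _ => by ring
      _ = _ := by
          refine sum_congr rfl fun a _ => ?_
          rw [← sum_BM_mul (cc_BM f a)]
          rfl
  rw [e1]
  have cs : (∑ p ∈ (lvS D.L (univ : Finset ι)) ×ˢ (univ : Finset (ι → X)),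
        cc D f p.1 p.2 * cc D g p.1 p.2) ^ 2
      ≤ (∑ p ∈ (lvS D.L (univ : Finset ι)) ×ˢ (univ : Finset (ι → X)),
          (EE D.toDy p.1 σ p.2) ^ q * cc D g p.1 p.2 ^ 2)
        * ∑ p ∈ (lvS D.L (univ : Finset ι)) ×ˢ (univ : Finset (ι → X)),
          (EE D.toDy p.1 σ p.2) ^ (-q) * cc D f p.1 p.2 ^ 2 := by
    refine sum_sq_le_sum_mul_sum_of_sq_le_mul _
      (fun p _ => ?_) (fun p _ => ?_) fun p _ => le_of_eq ?_
    · have := EE_pos (D := D.toDy) (a := p.1) hW.pos p.2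
      positivity
    · have := EE_pos (D := D.toDy) (a := p.1) hW.pos p.2
      positivity
    · have := EE_pos (D := D.toDy) (a := p.1) hW.pos p.2
      rw [Real.rpow_neg this.le]
      have : (EE D.toDy p.1 σ p.2) ^ q ≠ 0 := by positivity
      field_simp
  simp only [sum_product] at cs
  refine cs.trans ?_
  refine mul_le_mul_of_nonneg_right (level_sum_up hW hq g hg2) ?_
  exact sum_nonneg fun a _ => sum_nonneg fun x _ =>
    mul_nonneg (Real.rpow_nonneg (EE_pos hW.pos x).le _) (sq_nonneg _)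

section cplx

lemma TT_re (p : ι → X → X → ℝ) (g : (ι → X) → ℂ) (x : ι → X) :
    (TT p g x).re = TT p (fun y => (g y).re) x := by
  unfold TT
  rw [Complex.re_sum]
  refine sum_congr rfl fun y _ => ?_
  rw [Complex.real_smul, Complex.re_ofReal_mul, smul_eq_mul]

lemma TT_im (p : ι → X → X → ℝ) (g : (ι → X) → ℂ) (x : ι → X) :
    (TT p g x).im = TT p (fun y => (g y).im) x := by
  unfold TT
  rw [Complex.im_sum]
  refine sum_congr rfl fun y _ => ?_
  rw [Complex.real_smul, Complex.im_ofReal_mul, smul_eq_mul]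

lemma EE_re (a : ι → ℕ) (g : (ι → X) → ℂ) (x : ι → X) :
    (EE D.toDy a g x).re = EE D.toDy a (fun y => (g y).re) x := TT_re _ _ _

lemma EE_im (a : ι → ℕ) (g : (ι → X) → ℂ) (x : ι → X) :
    (EE D.toDy a g x).im = EE D.toDy a (fun y => (g y).im) x := TT_im _ _ _

lemma cc_re (f : (ι → X) → ℂ) (a : ι → ℕ) (x : ι → X) :
    (cc D f a x).re = cc D (fun y => (f y).re) a x := by
  unfold cc
  rw [EE_re]
  congr 1
  ext y
  rw [Complex.real_smul, Complex.re_ofReal_mul, smul_eq_mul]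

lemma cc_im (f : (ι → X) → ℂ) (a : ι → ℕ) (x : ι → X) :
    (cc D f a x).im = cc D (fun y => (f y).im) a x := by
  unfold cc
  rw [EE_im]
  congr 1
  ext y
  rw [Complex.real_smul, Complex.im_ofReal_mul, smul_eq_mul]

variable (D σ) in
/-- weighted norm of the coefficients, complex functions, with the fine weight -/
noncomputable def DC (f : (ι → X) → ℂ) (q : ℝ) (a : ι → ℕ) : ℝ :=
  ∑ x, σ x ^ (-q) * ‖cc D f a x‖ ^ 2

lemma DC_nonneg (hσ : ∀ x, 0 < σ x) (f : (ι → X) → ℂ) (q : ℝ) (a : ι → ℕ) : 0 ≤ DC D σ f q a :=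
  sum_nonneg fun x _ => mul_nonneg (Real.rpow_nonneg (hσ x).le _) (sq_nonneg _)

lemma norm_cc_sq (f : (ι → X) → ℂ) (a : ι → ℕ) (x : ι → X) :
    ‖cc D f a x‖ ^ 2 = cc D (fun y => (f y).re) a x ^ 2 + cc D (fun y => (f y).im) a x ^ 2 := by
  rw [Complex.sq_norm, Complex.normSq_apply, cc_re, cc_im]; ring

lemma SD_le_DC (hW : Wt D σ A) {q : ℝ} (hq : 0 ≤ q) (f : (ι → X) → ℂ) (a : ι → ℕ) :
    SD D σ (fun y => (f y).re) q a + SD D σ (fun y => (f y).im) q a ≤ DC D σ f q a := by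
  unfold SD DC
  rw [← sum_add_distrib]
  have b : BM D.toDy a (fun x => ‖cc D f a x‖ ^ 2) := (cc_BM f a).comp fun t => ‖t‖ ^ 2
  have e1 := sum_BM_mul b (fun y => σ y ^ (-q))
  calc _ ≤ ∑ x, ‖cc D f a x‖ ^ 2 * EE D.toDy a (fun y => σ y ^ (-q)) x := by
        refine sum_le_sum fun x _ => ?_
        have h1 := EE_jensen_neg (D := D.toDy) (a := a) hW.pos hq x
        have h2 : 0 ≤ ‖cc D f a x‖ ^ 2 := sq_nonneg _
        rw [← mul_add, ← norm_cc_sq, mul_comm]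
        exact mul_le_mul_of_nonneg_left h1 h2
    _ = ∑ x, ‖cc D f a x‖ ^ 2 * σ x ^ (-q) := e1
    _ = _ := sum_congr rfl fun x _ => by ring

lemma DC_le_SD (hW : Wt D σ A) {q : ℝ} (hq : 0 ≤ q) (f : (ι → X) → ℂ) {a : ι → ℕ}
    (ha : ∀ m, a m ≤ D.L) :
    DC D σ f q a ≤ (A ^ Fintype.card ι) ^ q *
      (SD D σ (fun y => (f y).re) q a + SD D σ (fun y => (f y).im) q a) := by
  have hA := hW.one
  have hA0 : 0 < A ^ Fintype.card ι := by positivity
  unfold SD DC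
  rw [← sum_add_distrib, mul_sum]
  refine sum_le_sum fun x _ => ?_
  have h0 := hW.pos x
  have h1 := hW.le ha x
  have hE := EE_pos (D := D.toDy) (a := a) hW.pos x
  have h2 : σ x ^ (-q) ≤ (A ^ Fintype.card ι) ^ q * (EE D.toDy a σ x) ^ (-q) := by
    have h3 : EE D.toDy a σ x / A ^ Fintype.card ι ≤ σ x := by rw [div_le_iff₀ hA0]; linarith
    have h4 := Real.rpow_le_rpow_of_nonpos (div_pos hE hA0) h3 (by linarith : -q ≤ 0)
    refine h4.trans (le_of_eq ?_)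
    rw [Real.div_rpow hE.le hA0.le, Real.rpow_neg hA0.le, div_eq_mul_inv, inv_inv, mul_comm]
  rw [← mul_add, ← norm_cc_sq, ← mul_assoc]
  exact mul_le_mul_of_nonneg_right h2 (sq_nonneg _)

/-- complex form of the main inequality -/
theorem thmDC (ι : Type) [Fintype ι] [DecidableEq ι] [Nonempty ι] {A ρ : ℝ} (hA : 1 ≤ A)
    (hρ : 0 < ρ) (hρ1 : ρ ≤ 1) :
    ∃ C : ℝ, 0 ≤ C ∧ ∀ (X : Type) [Fintype X] [DecidableEq X] (D : HDy X) (σ : (ι → X) → ℝ)
      (f : (ι → X) → ℂ), Wt D σ A → (∀ x, ‖f x‖ ≤ σ x ^ (1 + ρ)) →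
      (∀ m x, EE D.toDy (em D.L m 0) f x = 0) → ∀ M : ℕ,
      ∑ a ∈ lvS D.L univ, (if ∑ m, a m < M then om ρ M a * DC D σ f (1 + ρ) a else 0)
        ≤ C * (∑ x, σ x ^ (1 + ρ)
          + ∑ a ∈ lvS D.L univ, (if M ≤ ∑ m, a m then om ρ M a * DC D σ f (1 + ρ) a else 0)) := by
  obtain ⟨C, hC, h⟩ := thmD ι hA hρ hρ1
  set Ad := (A ^ Fintype.card ι) ^ (1 + ρ) with hAd
  have hAd0 : 0 < Ad := by positivity
  refine ⟨Ad * (2 * C), by positivity, ?_⟩
  intro X _ _ D σ f hW hf hf0 M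
  have h1 := h X D σ (fun y => (f y).re) hW (fun x => (Complex.abs_re_le_norm _).trans (hf x))
    (fun m x => by rw [← EE_re, hf0]; rfl) M
  have h2 := h X D σ (fun y => (f y).im) hW (fun x => (Complex.abs_im_le_norm _).trans (hf x))
    (fun m x => by rw [← EE_im, hf0]; rfl) M
  have Sg0 : 0 ≤ ∑ x, σ x ^ (1 + ρ) := sum_nonneg fun x _ => Real.rpow_nonneg (hW.pos x).le _
  -- low part
  have l1 : ∑ a ∈ lvS D.L univ, (if ∑ m, a m < M then om ρ M a * DC D σ f (1 + ρ) a else 0)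
      ≤ Ad * (∑ a ∈ lvS D.L univ, (if ∑ m, a m < M then
          om ρ M a * SD D σ (fun y => (f y).re) (1 + ρ) a else 0)
        + ∑ a ∈ lvS D.L univ, (if ∑ m, a m < M then
          om ρ M a * SD D σ (fun y => (f y).im) (1 + ρ) a else 0)) := by
    rw [← sum_add_distrib, mul_sum]
    refine sum_le_sum fun a ha => ?_
    split_ifs
    · have := mul_le_mul_of_nonneg_left (DC_le_SD hW (by linarith : 0 ≤ 1 + ρ) f (lvS_le ha))
        (om_pos ρ M a).le
      refine this.trans (le_of_eq ?_)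
      rw [← hAd]; ring
    · simp
  have l2 : ∑ a ∈ lvS D.L univ, (if M ≤ ∑ m, a m then
          om ρ M a * SD D σ (fun y => (f y).re) (1 + ρ) a else 0)
        + ∑ a ∈ lvS D.L univ, (if M ≤ ∑ m, a m then
          om ρ M a * SD D σ (fun y => (f y).im) (1 + ρ) a else 0)
      ≤ ∑ a ∈ lvS D.L univ, (if M ≤ ∑ m, a m then om ρ M a * DC D σ f (1 + ρ) a else 0) := by
    rw [← sum_add_distrib]
    refine sum_le_sum fun a _ => ?_
    split_ifs
    · rw [← mul_add]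
      exact mul_le_mul_of_nonneg_left (SD_le_DC hW (by linarith) f a) (om_pos ρ M a).le
    · simp
  refine l1.trans ?_
  rw [mul_assoc]
  refine mul_le_mul_of_nonneg_left ?_ hAd0.le
  set H := ∑ a ∈ lvS D.L univ, (if M ≤ ∑ m, a m then om ρ M a * DC D σ f (1 + ρ) a else 0)
  set H1 := ∑ a ∈ lvS D.L univ, (if M ≤ ∑ m, a m then
          om ρ M a * SD D σ (fun y => (f y).re) (1 + ρ) a else 0)
  set H2 := ∑ a ∈ lvS D.L univ, (if M ≤ ∑ m, a m then
          om ρ M a * SD D σ (fun y => (f y).im) (1 + ρ) a else 0)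
  have hH0 : 0 ≤ H := sum_nonneg fun a _ => by
    split_ifs
    · exact mul_nonneg (om_pos _ _ _).le (DC_nonneg hW.pos _ _ _)
    · exact le_rfl
  have := mul_le_mul_of_nonneg_left l2 hC
  nlinarith [mul_nonneg hC hH0]

/-- complex duality -/
theorem dual_l1C [Nonempty ι] (hW : Wt D σ A) {q : ℝ} (hq : 1 ≤ q) {f : (ι → X) → ℂ}
    (hf : ∀ m x, EE D.toDy (em D.L m 0) f x = 0) :
    (∑ x, ‖f x‖) ^ 2 ≤ (2 * (2 ^ q * (2 * (A ^ Fintype.card ι) ^ q)) * ∑ x, σ x ^ q) *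
      ∑ a ∈ lvS D.L univ, DC D σ f q a := by
  have hA := hW.one
  have h1 := dual_l1 hW hq (f := fun y => (f y).re) (fun m x => by rw [← EE_re, hf]; rfl)
  have h2 := dual_l1 hW hq (f := fun y => (f y).im) (fun m x => by rw [← EE_im, hf]; rfl)
  set K := (2 ^ q * (2 * (A ^ Fintype.card ι) ^ q)) * ∑ x, σ x ^ q with hK
  have K0 : 0 ≤ K := by
    have : 0 ≤ ∑ x, σ x ^ q := sum_nonneg fun x _ => Real.rpow_nonneg (hW.pos x).le _
    positivity
  have h3 : ∑ a ∈ lvS D.L univ, SD D σ (fun y => (f y).re) q a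
      + ∑ a ∈ lvS D.L univ, SD D σ (fun y => (f y).im) q a ≤ ∑ a ∈ lvS D.L univ, DC D σ f q a := by
    rw [← sum_add_distrib]
    exact sum_le_sum fun a _ => SD_le_DC hW (by linarith) f a
  have h4 : ∑ x, ‖f x‖ ≤ ∑ x, |(f x).re| + ∑ x, |(f x).im| := by
    rw [← sum_add_distrib]
    exact sum_le_sum fun x _ => Complex.norm_le_abs_re_add_abs_im _
  have n0 : 0 ≤ ∑ x, ‖f x‖ := sum_nonneg fun x _ => norm_nonneg _
  have h5 := pow_le_pow_left₀ n0 h4 2
  have h6 := mul_le_mul_of_nonneg_left h3 K0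
  set P := ∑ x, |(f x).re|
  set Q := ∑ x, |(f x).im|
  have e : 2 * (2 ^ q * (2 * (A ^ Fintype.card ι) ^ q)) * ∑ x, σ x ^ q = 2 * K := by
    rw [hK]; ring
  rw [e]
  nlinarith [sq_nonneg (P - Q)]

end cplx

end HD

end

section
/-!
One-dimensional kernels for the transfer.
-/

open Finset
open scoped Classical

set_option linter.unusedSectionVars false

namespace HD

open HC

variable {L : ℕ}

/-- convolution kernel -/
noncomputable def cvk (L : ℕ) (g : ℝ → ℂ) (s : ℕ) (x y : ZMod (2 ^ L)) : ℂ := kap L g s (x - y)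

/-- Poisson-type kernel -/
noncomputable def avk (L s : ℕ) (x y : ZMod (2 ^ L)) : ℝ := Pk (ell L s) (x - y)

/-- point mass -/
noncomputable def dlt (y x : ZMod (2 ^ L)) : ℝ := if x = y then 1 else 0

/-- kernel of the combined operator -/
noncomputable def abk (L s i : ℕ) (x y : ZMod (2 ^ L)) : ℝ := AB L s i (dlt y) x

lemma ell_pos' (L s : ℕ) : (0:ℝ) < ell L s := by exact_mod_cast ell_pos L s

lemma avk_nonneg (s : ℕ) (x y : ZMod (2 ^ L)) : 0 ≤ avk L s x y := (Pk_pos (ell_pos' L s) _).le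

lemma dlt_nonneg (y x : ZMod (2 ^ L)) : 0 ≤ dlt y x := by unfold dlt; split_ifs <;> norm_num

lemma abk_nonneg (s i : ℕ) (x y : ZMod (2 ^ L)) : 0 ≤ abk L s i x y :=
  AB_nonneg (fun z => dlt_nonneg y z) x

lemma cv_eq_k (g : ℝ → ℂ) (s : ℕ) (u : ZMod (2 ^ L) → ℂ) (x : ZMod (2 ^ L)) :
    cv L g s u x = ∑ y, cvk L g s x y * u y := by
  unfold cv cvk
  rw [← Equiv.sum_comp (Equiv.subLeft x)]
  refine sum_congr rfl fun z _ => ?_
  simp only [Equiv.subLeft_apply, sub_sub_cancel]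

lemma Av_eq_k (s : ℕ) (h : ZMod (2 ^ L) → ℝ) (x : ZMod (2 ^ L)) :
    Av (ell L s) h x = ∑ y, avk L s x y * h y := by
  unfold Av avk
  rw [← Equiv.sum_comp (Equiv.subLeft x)]
  refine sum_congr rfl fun z _ => ?_
  simp only [Equiv.subLeft_apply, sub_sub_cancel]

lemma AB_eq_k (s i : ℕ) (h : ZMod (2 ^ L) → ℝ) (x : ZMod (2 ^ L)) :
    AB L s i h x = ∑ y, abk L s i x y * h y := by
  have e : h = fun z => ∑ y, h y * dlt y z := by
    ext z
    unfold dlt
    simp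
  nth_rewrite 1 [e]
  rw [AB_lin]
  refine sum_congr rfl fun y _ => ?_
  unfold abk
  rw [mul_comm]

lemma kc_av_ab (s i : ℕ) (x z : ZMod (2 ^ L)) : kc (avk L s) (abk L s i) x z ≤ 80 * abk L s i x z := by
  have h := Av_AB (s := s) (i := i) (fun y => dlt_nonneg z y) x
  rw [Av_eq_k] at h
  exact h

lemma kc_nonneg {p p' : ZMod (2 ^ L) → ZMod (2 ^ L) → ℝ} (h : ∀ x y, 0 ≤ p x y)
    (h' : ∀ x y, 0 ≤ p' x y) (x z : ZMod (2 ^ L)) : 0 ≤ kc p p' x z :=
  sum_nonneg fun y _ => mul_nonneg (h x y) (h' y z)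

/-- signs followed by averages -/
noncomputable def hek (L i : ℕ) (y z : ZMod (2 ^ L)) : ℂ := ((hs L i y * ek (dy L) i y z : ℝ) : ℂ)

/-- averages of signs -/
noncomputable def ekh (L i : ℕ) (y z : ZMod (2 ^ L)) : ℂ := ((ek (dy L) i y z * hs L i z : ℝ) : ℂ)

lemma E_ofReal {X : Type} [Fintype X] {D : Dy X} (j : ℕ) (g : X → ℝ) (x : X) :
    D.E j (fun y => ((g y : ℝ) : ℂ)) x = ((D.E j g x : ℝ) : ℂ) := by
  unfold Dy.E
  rw [← Complex.ofReal_sum, Complex.real_smul, ← Complex.ofReal_mul, smul_eq_mul]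

lemma cv_hek {g : ℝ → ℂ} {B : ℝ} (hg : Sm g B) {s i : ℕ} (hs' : s + 4 ≤ L) (hi : i < L)
    (x z : ZMod (2 ^ L)) :
    ‖kc (cvk L g s) (hek L i) x z‖ ≤ (1600 * B) * kc (abk L s i) (ek (dy L) i) x z := by
  have e1 : kc (cvk L g s) (hek L i) x z = cv L g s (fun y => hek L i y z) x := by
    rw [cv_eq_k]; rfl
  have hu : (dy L).Meas (i+1) (fun y => hek L i y z) := by
    intro y y' h
    unfold hek
    have h1 : hs L i y = hs L i y' := h_meas (D := hdy L) hi h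
    have h2 : ek (dy L) i y z = ek (dy L) i y' z := by
      have h3 : (dy L).c i y = (dy L).c i y' := (dy L).nest i y y' h
      unfold ek
      rw [h3]
    simp only [h1, h2]
  have h0 : ∀ w, (dy L).E i (fun y => hek L i y z) w = 0 := by
    intro w
    unfold hek
    rw [E_ofReal]
    have h4 : (dy L).E i (fun y => hs L i y * ek (dy L) i y z) w
        = (dy L).E i (hs L i) w * ek (dy L) i w z := by
      have hm : (dy L).Meas i (fun y => ek (dy L) i y z) := by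
        intro y y' h
        simp only [ek, h]
      exact Dy.E_meas_mul hm w
    rw [h4]
    have h5 : (dy L).E i (hs L i) w = 0 := by
      rw [E_eq]
      exact sum_ek_h (D := hdy L) hi w
    rw [h5, zero_mul, Complex.ofReal_zero]
  rw [e1]
  refine (cv_block hg hs' hi hu h0 x).trans (le_of_eq ?_)
  congr 1
  rw [AB_eq_k]
  unfold kc
  refine sum_congr rfl fun y _ => ?_
  congr 1
  unfold hek
  rw [Complex.norm_real, Real.norm_eq_abs, abs_mul, abs_of_nonneg (ek_nonneg _ _ _)]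
  have : |hs L i y| = 1 := h_abs (D := hdy L) i y
  rw [this, one_mul]

lemma ekh_cv {g : ℝ → ℂ} {B : ℝ} (hg : Sm g B) {s i : ℕ} (hs' : s + 4 ≤ L) (hi : i < L)
    (x z : ZMod (2 ^ L)) :
    ‖kc (ekh L i) (cvk L g s) x z‖ ≤ (3200 * B * (1/2) ^ (ad i s)) *
      ∑ e : Fin 4, avk L s (ept L s i e x) z := by
  have e0 : (fun y => cvk L g s y z) = cv L g s (fun y => ((dlt z y : ℝ) : ℂ)) := by
    ext y
    rw [cv_eq_k, Finset.sum_eq_single z]
    · simp [dlt]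
    · intro b _ hb
      simp [dlt, hb]
    · intro h
      exact absurd (mem_univ z) h
  have e1 : kc (ekh L i) (cvk L g s) x z = (dy L).E i (fun y => hs L i y • cvk L g s y z) x := by
    rw [E_eq]
    unfold kc
    refine sum_congr rfl fun y _ => ?_
    unfold ekh
    rw [Complex.real_smul, Complex.real_smul]
    push_cast
    ring
  have e2 : ‖kc (ekh L i) (cvk L g s) x z‖ = ‖(dy L).del i (fun y => cvk L g s y z) x‖ := by
    have h1 := del_eq (D := hdy L) hi (fun y => cvk L g s y z) x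
    have h1' : (dy L).del i (fun y => cvk L g s y z) x
        = hs L i x • (dy L).E i (fun y => hs L i y • cvk L g s y z) x := h1
    rw [h1', e1, norm_smul, Real.norm_eq_abs]
    have : |hs L i x| = 1 := h_abs (D := hdy L) i x
    rw [this, one_mul]
  rw [e2, e0]
  refine (del_cv hg hs' hi _ x).trans (le_of_eq ?_)
  congr 1
  refine sum_congr rfl fun e _ => ?_
  rw [Av_eq_k]
  have : ∀ y, ‖((dlt z y : ℝ) : ℂ)‖ = if y = z then 1 else 0 := by
    intro y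
    rw [Complex.norm_real, Real.norm_eq_abs, abs_of_nonneg (dlt_nonneg z y)]
    rfl
  simp only [this]
  simp

end HD

end
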