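import Pool.Agent.Helper61.HD.ExWd
import Pool.Agent.Helper61.HC.Main2c

section
/-!
The discrete theorem in every dimension: inequalities between the weights, zero means, shifts.
-/

open Finset
open scoped Classical

set_option linter.unusedSectionVars false

namespace HD

open HC

variable {L : ℕ} {ι : Type} [Fintype ι] [DecidableEq ι]

/-- level weights of the blocks -/
noncomputable def wd (ρ : ℝ) (I : ℕ) : ℝ := (((2:ℝ) ^ (2 * ρ))⁻¹) ^ (2 * I)

lemma wd_pos (ρ : ℝ) (I : ℕ) : 0 < wd ρ I := by unfold wd; positivity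

lemma xx_le_Rd {ρ : ℝ} (hρ : ρ ≤ 1/8) : xx ≤ ((2:ℝ) ^ (2 * ρ))⁻¹ := by
  unfold xx
  refine inv_anti₀ (by positivity) ?_
  exact Real.rpow_le_rpow_of_exponent_le (by norm_num) (by linarith)

lemma XX_pow (a s : ι → ℕ) : XX a s = xx ^ (∑ m, ad (a m) (s m)) := by
  unfold XX
  rw [prod_pow_eq_pow_sum]

lemma th_pow (a s : ι → ℕ) : ∏ m, th (a m) (s m)
    = xx ^ (8 * (∑ m, (a m - s m)) + 3 * ∑ m, (s m - a m)) := by
  unfold th
  rw [prod_pow_eq_pow_sum, sum_add_distrib, mul_sum, mul_sum]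

lemma sum_ad (a s : ι → ℕ) : ∑ m, ad (a m) (s m) = (∑ m, (a m - s m)) + ∑ m, (s m - a m) := by
  rw [← sum_add_distrib]
  exact sum_congr rfl fun m _ => by unfold ad; omega

lemma sum_bal (a s : ι → ℕ) : (∑ m, a m) + (∑ m, (s m - a m)) = (∑ m, s m) + ∑ m, (a m - s m) := by
  rw [← sum_add_distrib, ← sum_add_distrib]
  exact sum_congr rfl fun m _ => by omega

lemma om_eq {ρ : ℝ} (M : ℕ) (a : ι → ℕ) :
    om ρ M a = ((2:ℝ) ^ (2 * ρ)) ^ (2 * (∑ m, a m)) * (((2:ℝ) ^ (2 * ρ))⁻¹) ^ (2 * M) := by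
  unfold om
  rw [← Real.rpow_natCast, ← Real.rpow_natCast, ← Real.rpow_mul (by norm_num),
    ← Real.rpow_neg (by norm_num), ← Real.rpow_mul (by norm_num), ← Real.rpow_add (by norm_num)]
  congr 1
  push_cast
  ring

/-- inequality for step 1 -/
lemma ineq1d {ρ : ℝ} (hρ0 : 0 ≤ ρ) (hρ : ρ ≤ 1/8) {n K : ℕ} {s : ι → ℕ} (hs : ∑ m, s m ≤ n)
    (a : ι → ℕ) :
    wd ρ (n - ∑ m, s m) * XX a s ^ 2 ≤ ((2:ℝ) ^ (2 * ρ)) ^ (2 * K) * om ρ (n + K) a := by
  have x0 := xx_pos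
  rw [om_eq]
  unfold wd
  set R := (2:ℝ) ^ (2 * ρ) with hR
  have R0 : 0 < R := by positivity
  have R1 : 1 ≤ R := Real.one_le_rpow (by norm_num) (by linarith)
  have hxR : xx ≤ R⁻¹ := xx_le_Rd hρ
  have Ri : R⁻¹ ≤ 1 := inv_le_one_of_one_le₀ R1
  have Ri0 : 0 < R⁻¹ := inv_pos.2 R0
  have e1 : XX a s ^ 2 ≤ (R⁻¹) ^ (2 * ∑ m, ad (a m) (s m)) := by
    rw [XX_pow, ← pow_mul, mul_comm _ 2]
    exact pow_le_pow_left₀ x0.le hxR _
  have h1 := sum_ad a s
  have h2 := sum_bal a s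
  set P := ∑ m, (a m - s m)
  set Q := ∑ m, (s m - a m)
  set ad' := ∑ m, ad (a m) (s m)
  set S := ∑ m, s m
  set Aa := ∑ m, a m
  have e2 : R ^ (2 * K) * (R ^ (2 * Aa) * R⁻¹ ^ (2 * (n + K)))
      = R ^ (2 * Aa) * R⁻¹ ^ (2 * n) := by
    have : 2 * (n + K) = 2 * n + 2 * K := by ring
    rw [this, pow_add, inv_pow, inv_pow]
    field_simp
  rw [e2]
  calc (R⁻¹) ^ (2 * (n - S)) * XX a s ^ 2
      ≤ (R⁻¹) ^ (2 * (n - S)) * (R⁻¹) ^ (2 * ad') := mul_le_mul_of_nonneg_left e1 (by positivity)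
    _ = R ^ (2 * Aa) * ((R⁻¹) ^ (2 * Aa) * ((R⁻¹) ^ (2 * (n - S)) * (R⁻¹) ^ (2 * ad'))) := by
        rw [← mul_assoc (R ^ (2 * Aa)), ← mul_pow, mul_inv_cancel₀ R0.ne', one_pow, one_mul]
    _ = R ^ (2 * Aa) * (R⁻¹) ^ (2 * Aa + (2 * (n - S) + 2 * ad')) := by
        rw [pow_add _ (2 * Aa), pow_add _ (2 * (n - S))]
    _ ≤ R ^ (2 * Aa) * (R⁻¹) ^ (2 * n) := by
        refine mul_le_mul_of_nonneg_left ?_ (by positivity)
        refine pow_le_pow_of_le_one Ri0.le Ri ?_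
        omega

/-- inequality for the high part -/
lemma ineq2d {ρ : ℝ} (hρ0 : 0 ≤ ρ) (hρ : ρ ≤ 1/8) {n K : ℕ} {s a : ι → ℕ} (hs : ∑ m, s m ≤ n)
    (ha : n + K ≤ ∑ m, a m) :
    om ρ (n + K) a * ((XX s a)⁻¹ * ∏ m, th (a m) (s m))
      ≤ (1/2) ^ K * wd ρ (n - ∑ m, s m) * XX a s := by
  have x0 := xx_pos
  have x1 : xx ≤ 1 := by have := xx_lt; linarith
  have hxR := xx_le_Rd hρ
  have hw : xx ^ (2 * (n - ∑ m, s m)) ≤ wd ρ (n - ∑ m, s m) := by
    unfold wd; exact pow_le_pow_left₀ x0.le hxR _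
  have half : (1/2:ℝ) = xx ^ 4 := xx_pow.symm
  have two : (2:ℝ) = (xx ^ 4)⁻¹ := by rw [xx_pow]; norm_num
  rw [XX_comm s a, XX_pow, th_pow]
  have h1 := sum_ad a s
  have h2 := sum_bal a s
  have e0 : om ρ (n + K) a ≤ (2:ℝ) ^ ((∑ m, a m) - (n + K)) := by
    unfold om
    rw [← Real.rpow_natCast]
    refine Real.rpow_le_rpow_of_exponent_le (by norm_num) ?_
    rw [Nat.cast_sub ha]
    have h3 : (0:ℝ) ≤ ((∑ m, a m : ℕ) : ℝ) - ((n + K : ℕ) : ℝ) := by
      rw [sub_nonneg]; exact_mod_cast ha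
    nlinarith
  set P := ∑ m, (a m - s m)
  set Q := ∑ m, (s m - a m)
  set ad' := ∑ m, ad (a m) (s m)
  set S := ∑ m, s m
  set Aa := ∑ m, a m
  have e1 : (2:ℝ) ^ (Aa - (n + K)) = (xx ^ (4 * (Aa - (n + K))))⁻¹ := by
    nth_rewrite 1 [two]
    rw [inv_pow, ← pow_mul]
  have key : xx ^ (8 * P + 3 * Q) ≤ xx ^ (4 * (Aa - (n + K))) * xx ^ ad'
      * (xx ^ (4 * K) * xx ^ (2 * (n - S)) * xx ^ ad') := by
    rw [← pow_add, ← pow_add, ← pow_add, ← pow_add]
    refine pow_le_pow_of_le_one x0.le x1 ?_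
    omega
  have p1 : 0 < xx ^ (4 * (Aa - (n + K))) := by positivity
  have p2 : 0 < xx ^ ad' := by positivity
  calc om ρ (n + K) a * ((xx ^ ad')⁻¹ * xx ^ (8 * P + 3 * Q))
      ≤ (xx ^ (4 * (Aa - (n + K))))⁻¹ * ((xx ^ ad')⁻¹ *
        (xx ^ (4 * (Aa - (n + K))) * xx ^ ad'
      * (xx ^ (4 * K) * xx ^ (2 * (n - S)) * xx ^ ad'))) := by
        rw [e1] at e0
        refine mul_le_mul e0 ?_ (by positivity) (by positivity)
        exact mul_le_mul_of_nonneg_left key (by positivity)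
    _ = xx ^ (4 * K) * xx ^ (2 * (n - S)) * xx ^ ad' := by
        field_simp
    _ ≤ xx ^ (4 * K) * wd ρ (n - S) * xx ^ ad' := by
        refine mul_le_mul_of_nonneg_right ?_ (by positivity)
        exact mul_le_mul_of_nonneg_left hw (by positivity)
    _ = _ := by rw [pow_mul, ← half]

lemma ineq3d (s a : ι → ℕ) : (XX s a)⁻¹ * ∏ m, th (a m) (s m) ≤ XX a s := by
  have x0 := xx_pos
  have x1 : xx ≤ 1 := by have := xx_lt; linarith
  rw [inv_mul_le_iff₀ (XX_pos s a), XX_comm s a, XX_pow, th_pow, ← pow_add]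
  refine pow_le_pow_of_le_one x0.le x1 ?_
  have h1 := sum_ad a s
  omega

/-! ### zero means -/

/-- complex averaging kernel -/
noncomputable def ekc (L i : ℕ) (x y : ZMod (2 ^ L)) : ℂ := ((ek (dy L) i x y : ℝ) : ℂ)

lemma EE_ekc (a : ι → ℕ) (f : (ι → ZMod (2 ^ L)) → ℂ) (x : ι → ZMod (2 ^ L)) :
    EE (hdy L).toDy a f x = TT (fun m => ekc L (a m)) f x := by
  unfold EE TT
  refine sum_congr rfl fun y _ => ?_
  unfold ekc
  rw [Complex.real_smul, smul_eq_mul]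
  push_cast
  rfl

lemma ek0 (x y : ZMod (2 ^ L)) : ek (dy L) 0 x y = ((2:ℝ) ^ L)⁻¹ := by
  unfold ek
  have e : ell L 0 = 2 ^ L := by unfold ell; rw [Nat.sub_zero]
  have h1 : (dy L).c 0 y = (dy L).c 0 x := by
    change y.val / ell L 0 = x.val / ell L 0
    rw [e, Nat.div_eq_of_lt (ZMod.val_lt y), Nat.div_eq_of_lt (ZMod.val_lt x)]
  rw [if_pos h1]
  have h2 : ((dy L).n 0 : ℝ) = 2 ^ L := by
    change ((ell L 0 : ℕ) : ℝ) = 2 ^ L
    unfold ell; push_cast; rfl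
  rw [h2]

lemma sum_cvk_left (g : ℝ → ℂ) (s : ℕ) (z : ZMod (2 ^ L)) :
    ∑ y, cvk L g s y z = ∑ t, kap L g s t := by
  unfold cvk
  exact Equiv.sum_comp (Equiv.subRight z) (fun t => kap L g s t)

lemma sum_cvk_right (g : ℝ → ℂ) (s : ℕ) (x : ZMod (2 ^ L)) :
    ∑ y, cvk L g s x y = ∑ t, kap L g s t := by
  unfold cvk
  exact Equiv.sum_comp (Equiv.subLeft x) (fun t => kap L g s t)

lemma kc_ekc_cvk (g : ℝ → ℂ) (s : ℕ) :
    kc (ekc L 0) (cvk L g s) = kc (cvk L g s) (ekc L 0) := by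
  ext x z
  unfold kc ekc
  simp only [ek0]
  rw [← mul_sum, ← sum_mul, sum_cvk_left, sum_cvk_right, mul_comm]

lemma EE_cvT (g : ℝ → ℂ) (s : ι → ℕ) (f : (ι → ZMod (2 ^ L)) → ℂ) (m : ι)
    (hf : ∀ x, EE (hdy L).toDy (em L m 0) f x = 0) (x : ι → ZMod (2 ^ L)) :
    EE (hdy L).toDy (em L m 0) (cvT g s f) x = 0 := by
  have hek : ekc L L = dl := by
    ext x y
    unfold ekc
    have := ek_top (D := hdy L)
    have h2 : ek (dy L) L x y = dl x y := by
      rw [show ek (dy L) L = dl from this]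
    rw [h2]
    unfold dl
    split_ifs <;> simp
  rw [EE_ekc]
  unfold cvT
  rw [TT_comp]
  have e1 : (fun m' => kc (ekc L (em L m 0 m')) (cvk L g (s m')))
      = fun m' => kc (cvk L g (s m')) (ekc L (em L m 0 m')) := by
    ext m' x z
    unfold em
    by_cases e : m' = m
    · subst e
      rw [Function.update_self, kc_ekc_cvk]
    · rw [Function.update_of_ne e, hek, kc_dl_left, kc_dl_right]
  rw [e1, ← TT_comp]
  have e2 : TT (fun m' => ekc L (em L m 0 m')) f = fun _ => 0 := by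
    ext y
    rw [← EE_ekc, hf]
  rw [e2, TT_zero]

/-! ### shifts -/

lemma AA.shift {σ : (ι → ZMod (2 ^ L)) → ℝ} {A : ℝ} (h : AA σ A) (ω : ι → ZMod (2 ^ L)) :
    AA (shd ω σ) A := by
  intro m x
  have h1 := (h m (x + ω)).shift (ω m)
  have e1 : (fun t => shd ω σ (Function.update x m t))
      = fun t => σ (Function.update (x + ω) m (t + ω m)) := by
    ext t
    unfold shd
    congr 1
    ext m'
    by_cases e : m' = m
    · subst e; simp
    · simp [e]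
  rw [e1]
  exact h1

lemma sum_shd {M : Type*} [AddCommMonoid M] (ω : ι → ZMod (2 ^ L))
    (Φ : (ι → ZMod (2 ^ L)) → M) : ∑ x, Φ (x + ω) = ∑ x, Φ x :=
  Equiv.sum_comp (Equiv.addRight ω) Φ

lemma ekc_shift (x y w : ZMod (2 ^ L)) : ekc L 0 (x + w) (y + w) = ekc L 0 x y := by
  unfold ekc
  rw [ek0, ek0]

lemma EE_shd {f : (ι → ZMod (2 ^ L)) → ℂ} {m : ι}
    (hf : ∀ x, EE (hdy L).toDy (em L m 0) f x = 0) (ω x : ι → ZMod (2 ^ L)) :
    EE (hdy L).toDy (em L m 0) (shd ω f) x = 0 := by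
  have hek : ekc L L = dl := by
    ext x y
    unfold ekc
    have := ek_top (D := hdy L)
    have h2 : ek (dy L) L x y = dl x y := by
      rw [show ek (dy L) L = dl from this]
    rw [h2]
    unfold dl
    split_ifs <;> simp
  rw [EE_ekc]
  have h1 := TT_shiftC (p := fun m' => ekc L (em L m 0 m')) (fun m' x y w => by
    unfold em
    by_cases e : m' = m
    · subst e
      rw [Function.update_self, ekc_shift]
    · rw [Function.update_of_ne e, hek]
      unfold dl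
      simp) f ω x
  have h2 : TT (fun m' => ekc L (em L m 0 m')) (shd ω f) x
      = TT (fun m' => ekc L (em L m 0 m')) f (x + ω) := h1
  rw [h2, ← EE_ekc, hf]

end HD

end

section
/-!
The discrete theorem in every dimension.
-/

open Finset
open scoped Classical

set_option linter.unusedSectionVars false
set_option linter.unusedVariables false

namespace HD

open HC

variable {L : ℕ} {ι : Type} [Fintype ι] [DecidableEq ι]

/-- weighted norm of an averaged block -/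
noncomputable def SSd (σ : (ι → ZMod (2 ^ L)) → ℝ) (q : ℝ) (s : ι → ℕ)
    (u : (ι → ZMod (2 ^ L)) → ℂ) : ℝ := ∑ x, σ x ^ (-q) * (gg s u x) ^ 2

/-- the global functional -/
noncomputable def Gd (ρ : ℝ) (σ : (ι → ZMod (2 ^ L)) → ℝ) (q : ℝ) (n : ℕ)
    (u : (ι → ℕ) → (ι → ZMod (2 ^ L)) → ℂ) : ℝ :=
  ∑ s ∈ lvS (n+1) (univ : Finset ι), wd ρ (n - ∑ m, s m) * SSd σ q s (u s)

/-- high part -/
noncomputable def Hid (ρ : ℝ) (σ : (ι → ZMod (2 ^ L)) → ℝ) (f : (ι → ZMod (2 ^ L)) → ℂ) (q : ℝ)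
    (M : ℕ) : ℝ :=
  ∑ a ∈ lvS L (univ : Finset ι), (if M ≤ ∑ m, a m then om ρ M a * DC (hdy L) σ f q a else 0)

lemma SSd_shd (σ : (ι → ZMod (2 ^ L)) → ℝ) (q : ℝ) (s : ι → ℕ)
    (u : (ι → ZMod (2 ^ L)) → ℂ) (ω : ι → ZMod (2 ^ L)) :
    SSd (shd ω σ) q s (shd ω u) = SSd σ q s u := by
  unfold SSd
  rw [← sum_shd ω (fun x => σ x ^ (-q) * (gg s u x) ^ 2)]
  refine sum_congr rfl fun x _ => ?_
  rw [gg_shd]
  rfl

lemma SSd_nonneg [Nonempty ι] {σ : (ι → ZMod (2 ^ L)) → ℝ} {A q : ℝ} (hσ : AA σ A) (s : ι → ℕ)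
    (u : (ι → ZMod (2 ^ L)) → ℂ) : 0 ≤ SSd σ q s u :=
  sum_nonneg fun x _ => mul_nonneg (Real.rpow_nonneg (hσ.pos x).le _) (sq_nonneg _)

lemma SSd_zero {σ : (ι → ZMod (2 ^ L)) → ℝ} {q : ℝ} {s : ι → ℕ}
    {u : (ι → ZMod (2 ^ L)) → ℂ} (hu : ∀ x, u x = 0) : SSd σ q s u = 0 := by
  unfold SSd
  refine sum_eq_zero fun x _ => ?_
  have : gg s u x = 0 := by
    unfold gg
    have e : (fun y => ‖u y‖) = fun _ => (0:ℝ) := by ext y; rw [hu, norm_zero]
    rw [e, TT_zero]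
  rw [this]; ring

lemma Gd_nonneg [Nonempty ι] {ρ : ℝ} {σ : (ι → ZMod (2 ^ L)) → ℝ} {A q : ℝ} (hσ : AA σ A) (n : ℕ)
    (u : (ι → ℕ) → (ι → ZMod (2 ^ L)) → ℂ) : 0 ≤ Gd ρ σ q n u :=
  sum_nonneg fun s _ => mul_nonneg (wd_pos _ _).le (SSd_nonneg hσ _ _)

lemma Hid_nonneg [Nonempty ι] {ρ : ℝ} {σ : (ι → ZMod (2 ^ L)) → ℝ} {A q : ℝ} (hσ : AA σ A)
    (f : (ι → ZMod (2 ^ L)) → ℂ) (M : ℕ) : 0 ≤ Hid ρ σ f q M := by
  refine sum_nonneg fun a _ => ?_
  have := DC_nonneg (D := hdy L) hσ.pos f q a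
  have := om_pos ρ M a
  split_ifs <;> positivity

lemma CAd_nonneg {B A : ℝ} (hA : 0 ≤ A) : 0 ≤ CAd ι B A := by
  unfold CAd
  positivity

lemma CBd_nonneg (B A : ℝ) : 0 ≤ CBd ι B A := by
  unfold CBd
  positivity

section main
variable [Nonempty ι] {σ : (ι → ZMod (2 ^ L)) → ℝ} {A ρ : ℝ}
  (hσ : AA σ A) (hρ0 : 0 < ρ) (hρ : ρ ≤ 1/8)
  {f : (ι → ZMod (2 ^ L)) → ℂ}
include hσ hρ0 hρ

lemma step1d {C : ℝ} (hC : 0 ≤ C)
    (hD : ∀ ω : ι → ZMod (2 ^ L), ∀ M : ℕ,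
      ∑ a ∈ lvS L univ, (if ∑ m, a m < M then
        om ρ M a * DC (hdy L) (shd ω σ) (shd ω f) (1 + ρ) a else 0)
        ≤ C * (∑ x, shd ω σ x ^ (1 + ρ) + Hid ρ (shd ω σ) (shd ω f) (1 + ρ) M))
    {g : ℝ → ℂ} {B : ℝ} (hg : Sm g B) {n K : ℕ} (hL : n + K + 4 ≤ L)
    (hf0 : ∀ m x, EE (hdy L).toDy (em L m 0) f x = 0)
    (hu : ∀ s ∈ lvS (n+1) (univ : Finset ι), n < ∑ m, s m → ∀ x, cvT g s f x = 0)
    (ω : ι → ZMod (2 ^ L)) :
    Gd ρ σ (1 + ρ) n (fun s => cvT g s f)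
      ≤ (CAd ι B A * 14 ^ Fintype.card ι * (C + 1)) * ((2:ℝ) ^ (2 * ρ)) ^ (2 * K)
        * (∑ x, σ x ^ (1 + ρ) + Hid ρ (shd ω σ) (shd ω f) (1 + ρ) (n + K)) := by
  have hA := hσ.one
  have hCA := CAd_nonneg (ι := ι) (B := B) (A := A) (by linarith)
  set q := 1 + ρ with hq
  set R := (2:ℝ) ^ (2 * ρ) with hR
  have R0 : 0 < R := by positivity
  have hσω := hσ.shift ω
  set Dq : (ι → ℕ) → ℝ := fun a => DC (hdy L) (shd ω σ) (shd ω f) q a with hDq
  have Dq0 : ∀ a, 0 ≤ Dq a := fun a => DC_nonneg hσω.pos _ _ _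
  have hhi := Hid_nonneg (ρ := ρ) (q := q) hσω (shd ω f) (n + K)
  have hσ0 : 0 ≤ ∑ x, σ x ^ q := sum_nonneg fun x _ => Real.rpow_nonneg (hσ.pos x).le _
  have eσ : ∑ x, shd ω σ x ^ q = ∑ x, σ x ^ q := sum_shd ω (fun x => σ x ^ q)
  have X0 : ∀ a s : ι → ℕ, 0 < XX a s := XX_pos
  have om0 : ∀ a : ι → ℕ, 0 < om ρ (n + K) a := fun a => om_pos _ _ _
  -- step A for each block
  have p1 : ∀ s ∈ lvS (n+1) (univ : Finset ι), wd ρ (n - ∑ m, s m) * SSd σ q s (cvT g s f)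
      ≤ CAd ι B A * ∑ a ∈ lvS L univ, (R ^ (2 * K) * om ρ (n + K) a * Dq a) * XX a s := by
    intro s hs
    have hs' := (mem_full).1 hs
    have RHS0 : 0 ≤ CAd ι B A * ∑ a ∈ lvS L (univ : Finset ι),
        (R ^ (2 * K) * om ρ (n + K) a * Dq a) * XX a s := by
      refine mul_nonneg hCA (sum_nonneg fun a _ => ?_)
      have := Dq0 a
      have := X0 a s
      have := om0 a
      positivity
    rcases lt_or_ge n (∑ m, s m) with h | h
    · rw [SSd_zero (hu s hs h), mul_zero]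
      exact RHS0
    · have e1 : cvT g s (shd ω f) = shd ω (cvT g s f) := by
        ext x; exact cvT_shd g s f ω x
      have e2 : SSd σ q s (cvT g s f) = SSd (shd ω σ) q s (cvT g s (shd ω f)) := by
        rw [e1, SSd_shd]
      have hA' := stepAd hg (s := s) (fun m => by have := hs' m; omega) (σ := shd ω σ) (A := A)
        (q := q) hσω (by linarith) (by linarith) (f := shd ω f)
        (fun m x => EE_shd (fun x => hf0 m x) ω x)
      have hA2 : SSd σ q s (cvT g s f) ≤ CAd ι B A * ∑ a ∈ lvS L univ, XX a s ^ 3 * Dq a := by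
        rw [e2]; exact hA'
      have hA3 := mul_le_mul_of_nonneg_left hA2 (wd_pos ρ (n - ∑ m, s m)).le
      refine hA3.trans ?_
      rw [mul_left_comm]
      refine mul_le_mul_of_nonneg_left ?_ hCA
      rw [mul_sum]
      refine sum_le_sum fun a _ => ?_
      have h3 := ineq1d hρ0.le hρ (K := K) h a
      calc wd ρ (n - ∑ m, s m) * (XX a s ^ 3 * Dq a)
          = (wd ρ (n - ∑ m, s m) * XX a s ^ 2) * (Dq a * XX a s) := by ring
        _ ≤ (R ^ (2 * K) * om ρ (n + K) a) * (Dq a * XX a s) := by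
            refine mul_le_mul_of_nonneg_right h3 ?_
            have := Dq0 a
            have := X0 a s
            positivity
        _ = _ := by ring
  have p2 : Gd ρ σ q n (fun s => cvT g s f) ≤ CAd ι B A * (14 ^ Fintype.card ι * (R ^ (2 * K) *
      ∑ a ∈ lvS L univ, om ρ (n + K) a * Dq a)) := by
    unfold Gd
    refine (sum_le_sum fun s hs => p1 s hs).trans ?_
    rw [← mul_sum]
    refine mul_le_mul_of_nonneg_left ?_ hCA
    rw [sum_comm]
    have e1 : ∀ a, ∑ s ∈ lvS (n+1) (univ : Finset ι),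
        (R ^ (2 * K) * om ρ (n + K) a * Dq a) * XX a s
        = (R ^ (2 * K) * om ρ (n + K) a * Dq a) * ∑ s ∈ lvS (n+1) (univ : Finset ι), XX a s := by
      intro a; rw [mul_sum]
    calc _ = ∑ a ∈ lvS L univ, (R ^ (2 * K) * om ρ (n + K) a * Dq a)
          * ∑ s ∈ lvS (n+1) (univ : Finset ι), XX a s := sum_congr rfl fun a _ => e1 a
      _ ≤ ∑ a ∈ lvS L univ, (R ^ (2 * K) * om ρ (n + K) a * Dq a) * 14 ^ Fintype.card ι := by
          refine sum_le_sum fun a _ => ?_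
          have := Dq0 a
          have := om0 a
          exact mul_le_mul_of_nonneg_left (sum_XX' _ _) (by positivity)
      _ = _ := by
          rw [← sum_mul, mul_sum]
          have : ∀ a : ι → ℕ, R ^ (2 * K) * om ρ (n + K) a * Dq a
              = R ^ (2 * K) * (om ρ (n + K) a * Dq a) := fun a => by ring
          rw [sum_congr rfl fun a _ => this a]
          ring
  have p3 : ∑ a ∈ lvS L univ, om ρ (n + K) a * Dq a
      = ∑ a ∈ lvS L univ, (if ∑ m, a m < n + K then om ρ (n + K) a * Dq a else 0)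
        + Hid ρ (shd ω σ) (shd ω f) q (n + K) := by
    unfold Hid
    rw [← sum_add_distrib]
    refine sum_congr rfl fun a _ => ?_
    by_cases h : ∑ m, a m < n + K
    · rw [if_pos h, if_neg (by omega), add_zero]
    · rw [if_neg h, if_pos (by omega), zero_add]
  have p4 := hD ω (n + K)
  rw [eσ] at p4
  rw [p3] at p2
  refine p2.trans ?_
  set H := Hid ρ (shd ω σ) (shd ω f) q (n + K) with hH
  set T := ∑ x, σ x ^ q with hT
  have p5 : C * (T + H) + H ≤ (C + 1) * (T + H) := by nlinarith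
  calc CAd ι B A * (14 ^ Fintype.card ι * (R ^ (2 * K) *
        (∑ a ∈ lvS L univ, (if ∑ m, a m < n + K then om ρ (n + K) a * Dq a else 0) + H)))
      ≤ CAd ι B A * (14 ^ Fintype.card ι * (R ^ (2 * K) * ((C + 1) * (T + H)))) := by
        refine mul_le_mul_of_nonneg_left ?_ hCA
        refine mul_le_mul_of_nonneg_left ?_ (by positivity)
        refine mul_le_mul_of_nonneg_left ?_ (by positivity)
        exact (add_le_add_left p4 H).trans p5
    _ = _ := by ring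

lemma stepBd_sum {g : ℝ → ℂ} {B : ℝ} (hg : Sm g B) {n : ℕ} (hn : n + 4 ≤ L)
    (w : (ι → ℕ) → ℝ) (w0 : ∀ a, 0 ≤ w a)
    {C : ℝ} (hC : 0 ≤ C) (c : (ι → ℕ) → ℝ) (u : (ι → ℕ) → (ι → ZMod (2 ^ L)) → ℂ)
    (hc : ∀ s ∈ lvS (n+1) (univ : Finset ι), ∀ a : ι → ℕ,
      w a * ((XX s a)⁻¹ * (c s ^ 2 * ((∏ m, th (a m) (s m)) * SSd σ (1 + ρ) s (u s))))
      ≤ (C * (wd ρ (n - ∑ m, s m) * SSd σ (1 + ρ) s (u s))) * XX s a) :
    ∑ ω, ∑ a ∈ lvS L univ, w a * DC (hdy L) (shd ω σ) (shd ω (fun x =>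
        ∑ s ∈ lvS (n+1) (univ : Finset ι), (c s : ℂ) * cvT g s (u s) x)) (1 + ρ) a
      ≤ Fintype.card (ι → ZMod (2 ^ L)) * (CBd ι B A *
        (C * (14 ^ Fintype.card ι * Gd ρ σ (1 + ρ) n u))) := by
  set q := 1 + ρ with hq
  set W : (ι → ZMod (2 ^ L)) → ℂ := fun x =>
        ∑ s ∈ lvS (n+1) (univ : Finset ι), (c s : ℂ) * cvT g s (u s) x with hW
  have hCB := CBd_nonneg (ι := ι) B A
  have S0 : ∀ s, 0 ≤ SSd σ q s (u s) := fun s => SSd_nonneg hσ _ _
  rw [sum_comm]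
  have h2 : ∀ a ∈ lvS L (univ : Finset ι), ∑ ω, w a * DC (hdy L) (shd ω σ) (shd ω W) q a
      ≤ w a * (Fintype.card (ι → ZMod (2 ^ L)) * (CBd ι B A *
        ∑ s ∈ lvS (n+1) (univ : Finset ι),
        (XX s a)⁻¹ * (c s ^ 2 * ((∏ m, th (a m) (s m)) * SSd σ q s (u s))))) := by
    intro a ha
    rw [← mul_sum]
    exact mul_le_mul_of_nonneg_left (stepBd hg (show n + 1 + 3 ≤ L by omega) hσ
      (by linarith) (by linarith) c u ((mem_full).1 ha)) (w0 a)
  refine (sum_le_sum h2).trans ?_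
  have h3 : ∑ a ∈ lvS L (univ : Finset ι), w a * ∑ s ∈ lvS (n+1) (univ : Finset ι),
        (XX s a)⁻¹ * (c s ^ 2 * ((∏ m, th (a m) (s m)) * SSd σ q s (u s)))
      ≤ C * (14 ^ Fintype.card ι * Gd ρ σ q n u) := by
    calc _ ≤ ∑ a ∈ lvS L (univ : Finset ι), ∑ s ∈ lvS (n+1) (univ : Finset ι),
          (C * (wd ρ (n - ∑ m, s m) * SSd σ q s (u s))) * XX s a := by
          refine sum_le_sum fun a _ => ?_
          rw [mul_sum]
          exact sum_le_sum fun s hs => hc s hs a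
      _ = ∑ s ∈ lvS (n+1) (univ : Finset ι), (C * (wd ρ (n - ∑ m, s m) * SSd σ q s (u s))) *
            ∑ a ∈ lvS L (univ : Finset ι), XX s a := by
          rw [sum_comm]
          exact sum_congr rfl fun s _ => by rw [mul_sum]
      _ ≤ ∑ s ∈ lvS (n+1) (univ : Finset ι), (C * (wd ρ (n - ∑ m, s m) * SSd σ q s (u s))) *
            14 ^ Fintype.card ι := by
          refine sum_le_sum fun s _ => ?_
          have := (wd_pos ρ (n - ∑ m, s m)).le
          have := S0 s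
          exact mul_le_mul_of_nonneg_left (sum_XX' _ _) (by positivity)
      _ = _ := by
          unfold Gd
          rw [mul_sum, mul_sum]
          exact sum_congr rfl fun s _ => by ring
  have h4 : ∑ a ∈ lvS L (univ : Finset ι), w a * (Fintype.card (ι → ZMod (2 ^ L)) * (CBd ι B A *
        ∑ s ∈ lvS (n+1) (univ : Finset ι),
        (XX s a)⁻¹ * (c s ^ 2 * ((∏ m, th (a m) (s m)) * SSd σ q s (u s)))))
      = Fintype.card (ι → ZMod (2 ^ L)) * (CBd ι B A * ∑ a ∈ lvS L (univ : Finset ι), w a *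
        ∑ s ∈ lvS (n+1) (univ : Finset ι),
        (XX s a)⁻¹ * (c s ^ 2 * ((∏ m, th (a m) (s m)) * SSd σ q s (u s)))) := by
    rw [mul_sum, mul_sum]
    exact sum_congr rfl fun a _ => by ring
  rw [h4]
  exact mul_le_mul_of_nonneg_left (mul_le_mul_of_nonneg_left h3 hCB) (by positivity)

lemma step2d {g h : ℝ → ℂ} {B : ℝ} (hh : Sm h B) {n K : ℕ} (hL : n + K + 4 ≤ L)
    (hu : ∀ s ∈ lvS (n+1) (univ : Finset ι), n < ∑ m, s m → ∀ x, cvT g s f x = 0)
    (hrep : ∀ x, f x = ∑ s ∈ lvS (n+1) (univ : Finset ι), cvT h s (cvT g s f) x) :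
    ∑ ω, Hid ρ (shd ω σ) (shd ω f) (1 + ρ) (n + K)
      ≤ Fintype.card (ι → ZMod (2 ^ L)) * (CBd ι B A * ((1/2) ^ K *
        (14 ^ Fintype.card ι * Gd ρ σ (1 + ρ) n (fun s => cvT g s f)))) := by
  set w : (ι → ℕ) → ℝ := fun a => if n + K ≤ ∑ m, a m then om ρ (n + K) a else 0 with hw
  have w0 : ∀ a, 0 ≤ w a := by
    intro a
    have := om_pos ρ (n + K) a
    simp only [hw]; split_ifs <;> positivity
  have h1 := stepBd_sum hσ hρ0 hρ hh (show n + 4 ≤ L by omega) w w0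
    (C := (1/2) ^ K) (by positivity) (fun _ => 1) (fun s => cvT g s f) (by
      intro s hs a
      rcases lt_or_ge n (∑ m, s m) with h2 | h2
      · rw [SSd_zero (hu s hs h2)]
        simp
      · have S0 : 0 ≤ SSd σ (1 + ρ) s (cvT g s f) := SSd_nonneg hσ _ _
        simp only [hw]
        split_ifs with h3
        · have h4 := mul_le_mul_of_nonneg_right (ineq2d hρ0.le hρ h2 h3) S0
          refine le_trans (le_of_eq ?_) (h4.trans (le_of_eq ?_))
          · ring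
          · rw [XX_comm a s]; ring
        · rw [zero_mul]
          have := (wd_pos ρ (n - ∑ m, s m)).le
          have := XX_pos s a
          positivity)
  have e1 : f = fun x => ∑ s ∈ lvS (n+1) (univ : Finset ι),
      (((1:ℝ)) : ℂ) * cvT h s (cvT g s f) x := by
    ext x
    rw [hrep]
    simp
  rw [← e1] at h1
  refine le_trans (le_of_eq ?_) h1
  refine sum_congr rfl fun ω _ => ?_
  unfold Hid
  refine sum_congr rfl fun a _ => ?_
  simp only [hw]
  split_ifs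
  · rfl
  · rw [zero_mul]

lemma step3d {g z : ℝ → ℂ} {B : ℝ} (hz : Sm z B) {n : ℕ} (hL : n + 4 ≤ L)
    {R : ℝ} (hR0 : 0 ≤ R) (hR : R ≤ ((2:ℝ) ^ (2 * ρ))⁻¹) :
    ∑ ω, ∑ a ∈ lvS L univ, DC (hdy L) (shd ω σ) (shd ω (fun x =>
        ∑ s ∈ lvS (n+1) (univ : Finset ι), ((R ^ (n - ∑ m, s m) : ℝ) : ℂ)
          * cvT z s (cvT g s f) x)) (1 + ρ) a
      ≤ Fintype.card (ι → ZMod (2 ^ L)) * (CBd ι B A * (14 ^ Fintype.card ι *
        Gd ρ σ (1 + ρ) n (fun s => cvT g s f))) := by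
  have h1 := stepBd_sum hσ hρ0 hρ hz hL (fun _ => 1) (fun _ => zero_le_one) (C := 1)
    zero_le_one (fun s => R ^ (n - ∑ m, s m)) (fun s => cvT g s f) (by
      intro s _ a
      have S0 : 0 ≤ SSd σ (1 + ρ) s (cvT g s f) := SSd_nonneg hσ _ _
      have e1 : (R ^ (n - ∑ m, s m)) ^ 2 ≤ wd ρ (n - ∑ m, s m) := by
        unfold wd
        rw [← pow_mul, mul_comm _ 2]
        exact pow_le_pow_left₀ hR0 hR _
      have e2 := mul_le_mul e1 (ineq3d s a) (by
        have := XX_pos s a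
        have : 0 ≤ ∏ m, th (a m) (s m) := prod_nonneg fun m _ => (th_pos _ _).le
        positivity) (wd_pos _ _).le
      have e3 := mul_le_mul_of_nonneg_right e2 S0
      refine le_trans (le_of_eq ?_) (e3.trans (le_of_eq ?_))
      · ring
      · rw [XX_comm a s]; ring)
  rw [one_mul] at h1
  refine le_trans (le_of_eq ?_) h1
  refine sum_congr rfl fun ω _ => sum_congr rfl fun a _ => ?_
  rw [one_mul]

end main

end HD

end

section
/-!
The discrete theorem in every dimension: conclusion.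
-/

open Finset
open scoped Classical

set_option linter.unusedSectionVars false
set_option linter.unusedVariables false

namespace HD

open HC

/-- the discrete theorem, abstract form -/
theorem mainD (ι : Type) [Fintype ι] [DecidableEq ι] [Nonempty ι] {g h z : ℝ → ℂ} {B : ℝ}
    (hg : Sm g B) (hh : Sm h B) (hz : Sm z B) {r : ℝ} (hr : 0 < r) :
    ∃ C : ℝ, 0 ≤ C ∧ ∃ K : ℕ, ∀ n L : ℕ, n + K + 4 ≤ L →
      ∀ f : (ι → ZMod (2 ^ L)) → ℂ,
      (∀ m x, EE (hdy L).toDy (em L m 0) f x = 0) →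
      (∀ s ∈ lvS (n+1) (univ : Finset ι), n < ∑ m, s m → ∀ x, cvT g s f x = 0) →
      (∀ x, f x = ∑ s ∈ lvS (n+1) (univ : Finset ι), cvT h s (cvT g s f) x) →
      ∑ x, ‖∑ s ∈ lvS (n+1) (univ : Finset ι),
        ((((2:ℝ) ^ (-r)) ^ (n - ∑ m, s m) : ℝ) : ℂ) * cvT z s (cvT g s f) x‖
        ≤ C * ∑ x, ‖f x‖ := by
  set ρ := min (r/2) (1/16) with hρd
  have hρ0 : 0 < ρ := lt_min (by linarith) (by norm_num)
  have hρr : 2 * ρ ≤ r := by have := min_le_left (r/2) (1/16 : ℝ); linarith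
  have hρ16 : ρ ≤ 1/16 := min_le_right _ _
  have hρ : ρ ≤ 1/8 := by linarith
  set q := 1 + ρ with hqd
  have hq1 : 1 < q := by linarith
  obtain ⟨A, hA, hexw⟩ := exists_weightD ι hq1
  obtain ⟨C, hC, hD⟩ := thmDC ι (A := 2 * A) (ρ := ρ) (by linarith) hρ0 (by linarith)
  set R := (2:ℝ) ^ (2 * ρ) with hR
  have R0 : 0 < R := by positivity
  have hRr : (2:ℝ) ^ (-r) ≤ R⁻¹ := by
    rw [hR, ← Real.rpow_neg (by norm_num)]
    exact Real.rpow_le_rpow_of_exponent_le (by norm_num) (by linarith)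
  -- R^2/2 < 1
  have hR2 : R ^ 2 * (1/2) < 1 := by
    have h1 : R ^ 2 = (2:ℝ) ^ (4 * ρ) := by
      rw [hR, ← Real.rpow_natCast, ← Real.rpow_mul (by norm_num)]
      congr 1
      push_cast
      ring
    have h2 : (2:ℝ) ^ (4 * ρ) < 2 ^ (1:ℝ) :=
      Real.rpow_lt_rpow_of_exponent_lt (by norm_num) (by linarith)
    rw [Real.rpow_one] at h2
    rw [h1]; linarith
  set E : ℝ := 14 ^ Fintype.card ι with hE
  have E0 : 0 < E := by positivity
  have hCA := CAd_nonneg (ι := ι) (B := B) (A := A) (by linarith)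
  have hCB := CBd_nonneg (ι := ι) B A
  set c1 := CAd ι B A * E * (C + 1) with hc1
  have c10 : 0 ≤ c1 := by positivity
  set c2 := c1 * (CBd ι B A * E) with hc2
  have c20 : 0 ≤ c2 := by positivity
  obtain ⟨K, hK⟩ : ∃ K : ℕ, c2 * (R ^ 2 * (1/2)) ^ K < 1/2 := by
    have h1 := tendsto_pow_atTop_nhds_zero_of_lt_one (r := R ^ 2 * (1/2)) (by positivity) hR2
    have h2 := h1.const_mul c2
    rw [mul_zero] at h2
    exact ((h2.eventually (gt_mem_nhds (by norm_num : (0:ℝ) < 1/2))).exists)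
  set C1 := c1 * R ^ (2 * K) with hC1
  have C10 : 0 ≤ C1 := by positivity
  set C0 : ℝ := (2 ^ q * (2 * 2 ^ q)) with hC0
  set Cl : ℝ := 2 * (2 ^ q * (2 * ((2 * A) ^ Fintype.card ι) ^ q)) with hCl
  have Cl0 : 0 ≤ Cl := by positivity
  set C3 := Cl * (CBd ι B A * (E * (2 * C1))) with hC3
  have C30 : 0 ≤ C3 := by positivity
  refine ⟨Real.sqrt C3 * C0, by positivity, K, ?_⟩
  intro n L hL f hf0 hu hrep
  set F : (ι → ZMod (2 ^ L)) → ℂ := fun x => ∑ s ∈ lvS (n+1) (univ : Finset ι),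
        ((((2:ℝ) ^ (-r)) ^ (n - ∑ m, s m) : ℝ) : ℂ) * cvT z s (cvT g s f) x with hF
  have f0 : 0 ≤ ∑ x, ‖f x‖ := sum_nonneg fun x _ => norm_nonneg _
  rcases f0.eq_or_lt with h0 | hpos
  · -- f = 0
    have hz0 : f = fun _ => 0 := by
      ext x
      have h1 := (sum_eq_zero_iff_of_nonneg (fun x _ => norm_nonneg _)).1 h0.symm x (mem_univ x)
      exact norm_eq_zero.1 h1
    have hcv0 : ∀ (g : ℝ → ℂ) (s : ι → ℕ), cvT g s (fun _ : ι → ZMod (2 ^ L) => (0:ℂ))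
        = fun _ => 0 := by
      intro g s
      ext x
      unfold cvT
      rw [TT_zero]
    have : ∀ x, ‖F x‖ = 0 := by
      intro x
      rw [norm_eq_zero]
      simp only [hF]
      refine sum_eq_zero fun s _ => ?_
      rw [hz0, hcv0, hcv0, mul_zero]
    rw [← h0, mul_zero]
    exact le_of_eq (sum_eq_zero fun x _ => this x)
  · obtain ⟨σ, hfσ, hσsum, hσ⟩ := hexw L (fun x => ‖f x‖) (fun x => norm_nonneg _) hpos
    set T := ∑ x, σ x ^ q with hT
    have T0 : 0 ≤ T := sum_nonneg fun x _ => Real.rpow_nonneg (hσ.pos x).le _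
    set G := Gd ρ σ q n (fun s => cvT g s f) with hG
    have G0 : 0 ≤ G := Gd_nonneg hσ n _
    set N : ℝ := ((Fintype.card (ι → ZMod (2 ^ L)) : ℕ) : ℝ) with hN
    have N0 : 0 < N := by rw [hN]; exact_mod_cast Fintype.card_pos
    have card : ∀ c : ℝ, ∑ _ω : ι → ZMod (2 ^ L), c = N * c := by
      intro c
      rw [sum_const, card_univ, nsmul_eq_mul]
    -- bound of G
    have hGT : G ≤ 2 * C1 * T := by
      have s1 : ∀ ω, G ≤ C1 * (T + Hid ρ (shd ω σ) (shd ω f) q (n + K)) := fun ω =>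
        step1d hσ hρ0 hρ hC (fun ω M => hD (ZMod (2 ^ L)) (hdy L) (shd ω σ) (shd ω f)
          ((hσ.shift ω).wt) (fun x => hfσ _) (fun m x => EE_shd (fun x => hf0 m x) ω x) M)
          hg hL hf0 hu ω
      have s2 := sum_le_sum fun ω (_ : ω ∈ (univ : Finset (ι → ZMod (2 ^ L)))) => s1 ω
      simp only [← mul_sum, sum_add_distrib] at s2
      rw [card, card] at s2
      have s3 := step2d hσ hρ0 hρ hh hL hu hrep
      have s4 : N * G ≤ C1 * (N * T + N * (CBd ι B A * ((1/2) ^ K * (E * G)))) :=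
        s2.trans (mul_le_mul_of_nonneg_left (by linarith) C10)
      have s5 : G ≤ C1 * T + c2 * (R ^ 2 * (1/2)) ^ K * G := by
        refine le_of_mul_le_mul_left (s4.trans (le_of_eq ?_)) N0
        rw [hC1, hc2, mul_pow, pow_mul]
        ring
      have s7 := mul_le_mul_of_nonneg_right hK.le G0
      linarith
    -- F
    have hF0 : ∀ m x, EE (hdy L).toDy (em L m 0) F x = 0 := by
      intro m x
      simp only [hF]
      rw [EE_ekc, TT_sum]
      refine sum_eq_zero fun s _ => ?_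
      rw [TT_mul, ← EE_ekc, EE_cvT z s _ m (fun x => EE_cvT g s f m (fun x => hf0 m x) x), mul_zero]
    have t1 : ∀ ω : ι → ZMod (2 ^ L), (∑ x, ‖F x‖) ^ 2 ≤ (Cl * T) *
        ∑ a ∈ lvS L univ, DC (hdy L) (shd ω σ) (shd ω F) q a := by
      intro ω
      have u1 := dual_l1C (D := hdy L) ((hσ.shift ω).wt) hq1.le (f := shd ω F)
        (fun m x => EE_shd (fun x => hF0 m x) ω x)
      have e1 : ∑ x, ‖shd ω F x‖ = ∑ x, ‖F x‖ := sum_shd ω (fun x => ‖F x‖)
      have e2 : ∑ x, shd ω σ x ^ q = T := sum_shd ω (fun x => σ x ^ q)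
      rw [e1, e2] at u1
      exact u1
    have t1' := sum_le_sum fun ω (_ : ω ∈ (univ : Finset (ι → ZMod (2 ^ L)))) => t1 ω
    rw [card] at t1'
    rw [← mul_sum] at t1'
    have t2 := step3d hσ hρ0 hρ hz (g := g) (f := f) (show n + 4 ≤ L by omega)
      (R := (2:ℝ) ^ (-r)) (by positivity) hRr
    have t3 : N * (∑ x, ‖F x‖) ^ 2 ≤ (Cl * T) * (N * (CBd ι B A * (E * G))) :=
      t1'.trans (mul_le_mul_of_nonneg_left t2 (by positivity))
    have t4 : (∑ x, ‖F x‖) ^ 2 ≤ C3 * T ^ 2 := by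
      refine le_of_mul_le_mul_left (t3.trans ?_) N0
      have t5 : (Cl * T) * (N * (CBd ι B A * (E * G)))
          ≤ (Cl * T) * (N * (CBd ι B A * (E * (2 * C1 * T)))) := by
        refine mul_le_mul_of_nonneg_left ?_ (by positivity)
        refine mul_le_mul_of_nonneg_left ?_ N0.le
        refine mul_le_mul_of_nonneg_left ?_ hCB
        exact mul_le_mul_of_nonneg_left hGT E0.le
      refine t5.trans (le_of_eq ?_)
      rw [hC3]
      ring
    have F0 : 0 ≤ ∑ x, ‖F x‖ := sum_nonneg fun x _ => norm_nonneg _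
    have t7 : ∑ x, ‖F x‖ ≤ Real.sqrt C3 * T := by
      refine (pow_le_pow_iff_left₀ F0 (by positivity) two_ne_zero).1 ?_
      rw [mul_pow, Real.sq_sqrt C30]
      exact t4
    calc _ ≤ Real.sqrt C3 * T := t7
      _ ≤ Real.sqrt C3 * (C0 * ∑ x, ‖f x‖) :=
          mul_le_mul_of_nonneg_left hσsum (Real.sqrt_nonneg _)
      _ = _ := by ring

end HD

end
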