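import Pool.Agent.Helper61.HD.Bess

section
/-!
The marginal problem on a good set.
-/

open Finset
open scoped Classical

set_option linter.unusedSectionVars false

namespace HD

variable {X : Type} [Fintype X] [DecidableEq X] {ι : Type} [Fintype ι] [DecidableEq ι]

/-- density threshold -/
noncomputable def eta (ι : Type) [Fintype ι] : ℝ :=
  (2 * (Fintype.card ι : ℝ) * 2 ^ Fintype.card ι)⁻¹

/-- level ratio -/
noncomputable def Lam (ι : Type) [Fintype ι] (A : ℝ) : ℝ :=
  2 * A ^ Fintype.card ι * ((eta ι)⁻¹) ^ Fintype.card ι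

lemma eta_pos [Nonempty ι] : 0 < eta ι := by
  unfold eta
  have : (0:ℝ) < Fintype.card ι := by exact_mod_cast Fintype.card_pos
  positivity

lemma eta_le_one [Nonempty ι] : eta ι ≤ 1 := by
  unfold eta
  have h1 : (1:ℝ) ≤ Fintype.card ι := by exact_mod_cast Fintype.card_pos
  have h2 : (1:ℝ) ≤ 2 ^ Fintype.card ι := one_le_pow₀ (by norm_num)
  apply inv_le_one_of_one_le₀
  nlinarith

lemma Lam_ge [Nonempty ι] {A : ℝ} (hA : 1 ≤ A) : 2 ≤ Lam ι A := by
  unfold Lam
  have h1 : (1:ℝ) ≤ A ^ Fintype.card ι := one_le_pow₀ hA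
  have h2 : (1:ℝ) ≤ ((eta ι)⁻¹) ^ Fintype.card ι :=
    one_le_pow₀ ((one_le_inv₀ eta_pos).2 eta_le_one)
  nlinarith

section
variable (D : HDy X) (σ : (ι → X) → ℝ) (s : ℝ) (T : Finset ι) (a : ι → ℕ)

/-- indicator of the bad set -/
noncomputable def bad (x : ι → X) : ℝ := if s < σ x then 1 else 0

/-- partial densities of the bad set -/
noncomputable def dn (S : Finset ι) (x : ι → X) : ℝ := EE D.toDy (rs D.L S a) (bad σ s) x

/-- marginal good sets -/
def Gm (m : ι) (x : ι → X) : Prop := ∀ S ⊆ T, m ∈ S → dn D σ s a S x < eta ι ^ S.card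

/-- the good set -/
def Gam (x : ι → X) : Prop := ∀ S ⊆ T, dn D σ s a S x < eta ι ^ S.card

/-- indicator of the good set -/
noncomputable def gi (x : ι → X) : ℝ := if Gam D σ s T a x then 1 else 0

variable {D σ s T a}

lemma gi_nonneg (x : ι → X) : 0 ≤ gi D σ s T a x := by unfold gi; split_ifs <;> norm_num

lemma gi_le_one (x : ι → X) : gi D σ s T a x ≤ 1 := by unfold gi; split_ifs <;> norm_num

lemma gi_sq (x : ι → X) : gi D σ s T a x * gi D σ s T a x = gi D σ s T a x := by
  unfold gi; split_ifs <;> norm_num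

lemma dn_empty (x : ι → X) : dn D σ s a ∅ x = bad σ s x := by
  unfold dn; rw [rs_empty, EE_top]

lemma Gam_le {x : ι → X} (h : Gam D σ s T a x) : σ x ≤ s := by
  have := h ∅ (empty_subset _)
  rw [dn_empty, card_empty, pow_zero] at this
  unfold bad at this
  split_ifs at this with hc
  · exact absurd this (lt_irrefl _)
  · exact not_lt.1 hc

lemma bad_nonneg (x : ι → X) : 0 ≤ bad σ s x := by unfold bad; split_ifs <;> norm_num

lemma dn_nonneg (S : Finset ι) (x : ι → X) : 0 ≤ dn D σ s a S x := EE_nonneg bad_nonneg x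

lemma rs_le_em {S : Finset ι} (ha : ∀ m, a m ≤ D.L) {m : ι} (hm : m ∈ S) :
    rs D.L S a ≤ em D.L m (a m) := by
  intro m'
  unfold rs em
  by_cases e : m' = m
  · subst e; rw [Function.update_self, if_pos hm]
  · rw [Function.update_of_ne e]
    split_ifs
    · exact ha m'
    · exact le_rfl

lemma dn_cell {S : Finset ι} (ha : ∀ m, a m ≤ D.L) {m : ι} (hm : m ∈ S) :
    BM D.toDy (em D.L m (a m)) (dn D σ s a S) :=
  (EE_BM _ _).mono (rs_le_em ha hm)

lemma EE_dn {S : Finset ι} (ha : ∀ m, a m ≤ D.L) (m : ι) (x : ι → X) :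
    EE D.toDy (em D.L m (a m)) (dn D σ s a S) x = dn D σ s a (insert m S) x := by
  unfold dn
  rw [← rs_single, EE_EE, rs_inf ha, ← insert_eq]

/-- the good set has almost full density in the marginal good cells -/
lemma bad_density [Nonempty ι] (ha : ∀ m, a m ≤ D.L) {m : ι} (hm : m ∈ T) {x : ι → X}
    (hx : Gm D σ s T a m x) :
    EE D.toDy (em D.L m (a m)) (fun y => 1 - gi D σ s T a y) x ≤ (2 * (Fintype.card ι : ℝ))⁻¹ := by
  have e0 := eta_pos (ι := ι)
  have h1 : ∀ y, (∀ m', D.c (em D.L m (a m) m') (y m') = D.c (em D.L m (a m) m') (x m')) →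
      1 - gi D σ s T a y ≤ ∑ S ∈ (T.erase m).powerset, (eta ι ^ S.card)⁻¹ * dn D σ s a S y := by
    intro y hy
    have hnn : ∀ S ∈ (T.erase m).powerset, 0 ≤ (eta ι ^ S.card)⁻¹ * dn D σ s a S y := fun S _ =>
      mul_nonneg (by positivity) (dn_nonneg S y)
    unfold gi
    split_ifs with hG
    · rw [sub_self]; exact sum_nonneg hnn
    · rw [sub_zero]
      unfold Gam at hG
      push Not at hG
      obtain ⟨S, hS, hlt⟩ := hG
      have hmS : m ∉ S := by
        intro hmS
        have h2 := hx S hS hmS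
        rw [← dn_cell (σ := σ) (s := s) ha hmS x y hy] at h2
        linarith
      have hS' : S ∈ (T.erase m).powerset := by
        rw [mem_powerset]
        intro m' hm'
        exact mem_erase.2 ⟨fun e => hmS (by rw [← e]; exact hm'), hS hm'⟩
      refine le_trans ?_ (single_le_sum hnn hS')
      rw [inv_mul_eq_div, le_div_iff₀ (by positivity), one_mul]
      exact hlt
  refine (EE_mono_box h1).trans ?_
  rw [EE_sum]
  simp only [EE_mul, EE_dn ha]
  have h2 : ∀ S ∈ (T.erase m).powerset, (eta ι ^ S.card)⁻¹ * dn D σ s a (insert m S) x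
      ≤ eta ι := by
    intro S hS
    rw [mem_powerset] at hS
    have hmS : m ∉ S := fun h => (mem_erase.1 (hS h)).1 rfl
    have h3 := hx (insert m S) (insert_subset hm (hS.trans (erase_subset _ _)))
      (mem_insert_self _ _)
    rw [card_insert_of_notMem hmS, pow_succ] at h3
    have h4 : 0 < eta ι ^ S.card := by positivity
    rw [inv_mul_eq_div, div_le_iff₀ h4, mul_comm]
    exact h3.le
  refine (sum_le_sum h2).trans ?_
  rw [sum_const, card_powerset, nsmul_eq_mul]
  have h3 : ((2 ^ (T.erase m).card : ℕ) : ℝ) ≤ 2 ^ Fintype.card ι := by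
    push_cast
    exact pow_le_pow_right₀ (by norm_num) (card_le_univ _)
  refine (mul_le_mul_of_nonneg_right h3 e0.le).trans (le_of_eq ?_)
  unfold eta
  have : (0:ℝ) < Fintype.card ι := by exact_mod_cast Fintype.card_pos
  field_simp

variable (D σ s T a)

/-- compatible marginals supported on the marginal good sets -/
def NN : Submodule ℝ (ι → (ι → X) → ℝ) where
  carrier := {k | (∀ m, m ∉ T → ∀ x, k m x = 0) ∧ (∀ m ∈ T, BM D.toDy (em D.L m (a m)) (k m)) ∧
    (∀ m ∈ T, ∀ x, ¬ Gm D σ s T a m x → k m x = 0) ∧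
    (∀ m ∈ T, ∀ m' ∈ T, ∀ x, EE D.toDy (em D.L m' (a m')) (k m) x
      = EE D.toDy (em D.L m (a m)) (k m') x)}
  add_mem' := by
    rintro k l ⟨h1, h2, h3, h4⟩ ⟨g1, g2, g3, g4⟩
    refine ⟨fun m hm x => ?_, fun m hm => ?_, fun m hm x hx => ?_, fun m hm m' hm' x => ?_⟩
    · rw [Pi.add_apply, Pi.add_apply, h1 m hm, g1 m hm, add_zero]
    · exact (h2 m hm).comp₂ (g2 m hm) fun s t => s + t
    · rw [Pi.add_apply, Pi.add_apply, h3 m hm x hx, g3 m hm x hx, add_zero]
    · have e1 := EE_add (D := D.toDy) (em D.L m' (a m')) (k m) (l m) x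
      have e2 := EE_add (D := D.toDy) (em D.L m (a m)) (k m') (l m') x
      rw [h4 m hm m' hm' x, g4 m hm m' hm' x, ← e2] at e1
      exact e1
  zero_mem' := by
    refine ⟨fun m _ x => rfl, fun m _ => BM.const _ _, fun m _ x _ => rfl, fun m _ m' _ x => ?_⟩
    have e1 := EE_zero (D := D.toDy) (F := ℝ) (em D.L m' (a m')) x
    have e2 := EE_zero (D := D.toDy) (F := ℝ) (em D.L m (a m)) x
    exact e1.trans e2.symm
  smul_mem' := by
    rintro c k ⟨h1, h2, h3, h4⟩
    refine ⟨fun m hm x => ?_, fun m hm => ?_, fun m hm x hx => ?_, fun m hm m' hm' x => ?_⟩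
    · rw [Pi.smul_apply, Pi.smul_apply, h1 m hm, smul_zero]
    · exact (h2 m hm).comp fun t => c • t
    · rw [Pi.smul_apply, Pi.smul_apply, h3 m hm x hx, smul_zero]
    · have e1 := EE_smul (D := D.toDy) (em D.L m' (a m')) c (k m) x
      have e2 := EE_smul (D := D.toDy) (em D.L m (a m)) c (k m') x
      rw [h4 m hm m' hm' x, ← e2] at e1
      exact e1

/-- the marginals of the restricted sum -/
noncomputable def TTm : (ι → (ι → X) → ℝ) →ₗ[ℝ] (ι → (ι → X) → ℝ) where
  toFun k m x := if m ∈ T then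
    EE D.toDy (em D.L m (a m)) (fun y => gi D σ s T a y * ∑ m' ∈ T, k m' y) x else 0
  map_add' k l := by
    ext m x
    simp only [Pi.add_apply]
    split_ifs
    · rw [← EE_add]
      congr 1
      ext y
      rw [sum_add_distrib, mul_add]
    · rw [add_zero]
  map_smul' c k := by
    ext m x
    simp only [Pi.smul_apply, RingHom.id_apply]
    split_ifs
    · rw [← EE_smul]
      congr 1
      ext y
      simp only [smul_eq_mul, ← mul_sum]
      ring
    · rw [smul_zero]

variable {D σ s T a}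

lemma TTm_apply {k : ι → (ι → X) → ℝ} {m : ι} (hm : m ∈ T) (x : ι → X) :
    TTm D σ s T a k m x
      = EE D.toDy (em D.L m (a m)) (fun y => gi D σ s T a y * ∑ m' ∈ T, k m' y) x := by
  change (if m ∈ T then _ else _) = _
  rw [if_pos hm]

lemma TTm_mem (ha : ∀ m, a m ≤ D.L) (k : ι → (ι → X) → ℝ) : TTm D σ s T a k ∈ NN D σ s T a := by
  refine ⟨fun m hm x => ?_, fun m hm => ?_, fun m hm x hx => ?_, fun m hm m' hm' x => ?_⟩
  · change (if m ∈ T then _ else _) = _
    rw [if_neg hm]
  · have : TTm D σ s T a k m = EE D.toDy (em D.L m (a m))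
        (fun y => gi D σ s T a y * ∑ m' ∈ T, k m' y) := by
      ext x; exact TTm_apply hm x
    rw [this]
    exact EE_BM _ _
  · rw [TTm_apply hm]
    have : EE D.toDy (em D.L m (a m)) (fun y => gi D σ s T a y * ∑ m' ∈ T, k m' y) x
        = EE D.toDy (em D.L m (a m)) (fun _ => 0) x := by
      refine EE_congr fun y hy => ?_
      have : gi D σ s T a y = 0 := by
        unfold gi
        rw [if_neg]
        intro hG
        apply hx
        intro S hS hmS
        rw [← dn_cell (σ := σ) (s := s) ha hmS x y hy]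
        exact hG S hS
      rw [this, zero_mul]
    rw [this, EE_zero]
  · have e1 : TTm D σ s T a k m = EE D.toDy (em D.L m (a m))
        (fun y => gi D σ s T a y * ∑ m' ∈ T, k m' y) := by
      ext x; exact TTm_apply hm x
    have e2 : TTm D σ s T a k m' = EE D.toDy (em D.L m' (a m'))
        (fun y => gi D σ s T a y * ∑ m' ∈ T, k m' y) := by
      ext x; exact TTm_apply hm' x
    rw [e1, e2, EE_comm]

/-- levels of one coordinate are finer -/
lemma le_em (ha : ∀ m, a m ≤ D.L) (m : ι) : a ≤ em D.L m (a m) := by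
  intro m'
  unfold em
  by_cases e : m' = m
  · subst e; rw [Function.update_self]
  · rw [Function.update_of_ne e]; exact ha m'

lemma cross {k : ι → (ι → X) → ℝ} (hk : k ∈ NN D σ s T a) (ha : ∀ m, a m ≤ D.L)
    {w : (ι → X) → ℝ} (hw : BM D.toDy a w) {m m' : ι} (hm : m ∈ T) (hm' : m' ∈ T) :
    ∑ x, w x * (k m x * k m' x) = ∑ x, w x * (EE D.toDy (em D.L m (a m)) (k m') x) ^ 2 := by
  obtain ⟨_, h2, _, h4⟩ := hk
  have b1 : BM D.toDy (em D.L m (a m)) (fun x => w x * k m x) :=
    (hw.mono (le_em ha m)).comp₂ (h2 m hm) fun s t => s * t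
  have b2 : BM D.toDy (em D.L m' (a m')) (fun x => w x * EE D.toDy (em D.L m' (a m')) (k m) x) :=
    (hw.mono (le_em ha m')).comp₂ (EE_BM _ _) fun s t => s * t
  have e1 := sum_BM_mul b1 (k m')
  have e2 := sum_BM_mul b2 (k m)
  calc ∑ x, w x * (k m x * k m' x) = ∑ x, w x * k m x * k m' x :=
        sum_congr rfl fun x _ => by ring
    _ = ∑ x, w x * k m x * EE D.toDy (em D.L m (a m)) (k m') x := e1.symm
    _ = ∑ x, w x * EE D.toDy (em D.L m' (a m')) (k m) x * k m x :=
        sum_congr rfl fun x _ => by rw [h4 m hm m' hm' x]; ring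
    _ = ∑ x, w x * EE D.toDy (em D.L m' (a m')) (k m) x * EE D.toDy (em D.L m' (a m')) (k m) x :=
        e2.symm
    _ = _ := sum_congr rfl fun x _ => by rw [h4 m hm m' hm' x]; ring

lemma Q_ge [Nonempty ι] {k : ι → (ι → X) → ℝ} (hk : k ∈ NN D σ s T a) (ha : ∀ m, a m ≤ D.L)
    {w : (ι → X) → ℝ} (hw : BM D.toDy a w) (hw0 : ∀ x, 0 ≤ w x) :
    (1/2) * ∑ m ∈ T, ∑ x, w x * k m x ^ 2
      ≤ ∑ x, w x * (gi D σ s T a x * (∑ m ∈ T, k m x) ^ 2) := by
  obtain ⟨h1, h2, h3, h4⟩ := hk
  set K := ∑ m ∈ T, ∑ x, w x * k m x ^ 2 with hK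
  -- full sum
  have p1 : K ≤ ∑ x, w x * (∑ m ∈ T, k m x) ^ 2 := by
    have e1 : ∑ x, w x * (∑ m ∈ T, k m x) ^ 2
        = ∑ m ∈ T, ∑ m' ∈ T, ∑ x, w x * (k m x * k m' x) := by
      have : ∀ x, w x * (∑ m ∈ T, k m x) ^ 2 = ∑ m ∈ T, ∑ m' ∈ T, w x * (k m x * k m' x) := by
        intro x
        rw [sq, sum_mul_sum, mul_sum]
        exact sum_congr rfl fun m _ => by rw [mul_sum]
      rw [sum_congr rfl fun x _ => this x, sum_comm]
      exact sum_congr rfl fun m _ => sum_comm
    rw [e1, hK]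
    refine sum_le_sum fun m hm => ?_
    have e2 : ∑ x, w x * k m x ^ 2 = ∑ x, w x * (k m x * k m x) :=
      sum_congr rfl fun x _ => by ring
    rw [e2]
    refine single_le_sum (f := fun m' => ∑ x, w x * (k m x * k m' x)) (fun m' hm' => ?_) hm
    rw [cross ⟨h1, h2, h3, h4⟩ ha hw hm hm']
    exact sum_nonneg fun x _ => mul_nonneg (hw0 x) (sq_nonneg _)
  -- bad part
  have p2 : ∑ x, w x * ((1 - gi D σ s T a x) * (∑ m ∈ T, k m x) ^ 2) ≤ (1/2) * K := by
    have e1 : ∀ x, w x * ((1 - gi D σ s T a x) * (∑ m ∈ T, k m x) ^ 2)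
        ≤ ∑ m ∈ T, (Fintype.card ι : ℝ) * ((w x * k m x ^ 2) * (1 - gi D σ s T a x)) := by
      intro x
      have c1 : (∑ m ∈ T, k m x) ^ 2 ≤ T.card * ∑ m ∈ T, k m x ^ 2 := sq_sum_le_card_mul_sum_sq
      have c2 : (T.card : ℝ) * ∑ m ∈ T, k m x ^ 2 ≤ Fintype.card ι * ∑ m ∈ T, k m x ^ 2 := by
        refine mul_le_mul_of_nonneg_right ?_ (sum_nonneg fun m _ => sq_nonneg _)
        exact_mod_cast card_le_univ T
      have c3 : 0 ≤ 1 - gi D σ s T a x := by have := gi_le_one (D := D) (σ := σ) (s := s) (T := T) (a := a) x; linarith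
      calc _ ≤ w x * ((1 - gi D σ s T a x) * (Fintype.card ι * ∑ m ∈ T, k m x ^ 2)) :=
            mul_le_mul_of_nonneg_left (mul_le_mul_of_nonneg_left (c1.trans c2) c3) (hw0 x)
        _ = _ := by
            simp only [mul_sum]
            exact sum_congr rfl fun m _ => by ring
    refine (sum_le_sum fun x _ => e1 x).trans ?_
    rw [sum_comm, hK, mul_sum]
    refine sum_le_sum fun m hm => ?_
    rw [← mul_sum]
    have b1 : BM D.toDy (em D.L m (a m)) (fun x => w x * k m x ^ 2) :=
      (hw.mono (le_em ha m)).comp₂ (h2 m hm) fun s t => s * t ^ 2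
    rw [← sum_BM_mul b1]
    have hc : (0:ℝ) < Fintype.card ι := by exact_mod_cast Fintype.card_pos
    have e2 : ∀ x, w x * k m x ^ 2 * EE D.toDy (em D.L m (a m)) (fun y => 1 - gi D σ s T a y) x
        ≤ w x * k m x ^ 2 * (2 * (Fintype.card ι : ℝ))⁻¹ := by
      intro x
      by_cases hG : Gm D σ s T a m x
      · exact mul_le_mul_of_nonneg_left (bad_density ha hm hG) (mul_nonneg (hw0 x) (sq_nonneg _))
      · rw [h3 m hm x hG]; simp
    have e3 := mul_le_mul_of_nonneg_left (sum_le_sum fun x (_ : x ∈ univ) => e2 x) hc.le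
    refine e3.trans (le_of_eq ?_)
    rw [← sum_mul]
    field_simp
  have p3 : ∑ x, w x * (∑ m ∈ T, k m x) ^ 2
      = ∑ x, w x * (gi D σ s T a x * (∑ m ∈ T, k m x) ^ 2)
        + ∑ x, w x * ((1 - gi D σ s T a x) * (∑ m ∈ T, k m x) ^ 2) := by
    rw [← sum_add_distrib]
    exact sum_congr rfl fun x _ => by ring
  linarith

/-- the pairing with the marginals -/
lemma pairing {k : ι → (ι → X) → ℝ} (hk : k ∈ NN D σ s T a) (ha : ∀ m, a m ≤ D.L)
    {w : (ι → X) → ℝ} (hw : BM D.toDy a w) :
    ∑ m ∈ T, ∑ x, w x * (TTm D σ s T a k m x * k m x)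
      = ∑ x, w x * (gi D σ s T a x * (∑ m ∈ T, k m x) ^ 2) := by
  obtain ⟨_, h2, _, _⟩ := hk
  have e1 : ∀ m ∈ T, ∑ x, w x * (TTm D σ s T a k m x * k m x)
      = ∑ x, w x * k m x * (gi D σ s T a x * ∑ m' ∈ T, k m' x) := by
    intro m hm
    have b1 : BM D.toDy (em D.L m (a m)) (fun x => w x * k m x) :=
      (hw.mono (le_em ha m)).comp₂ (h2 m hm) fun s t => s * t
    rw [← sum_BM_mul b1]
    refine sum_congr rfl fun x _ => ?_
    rw [TTm_apply hm]; ring
  rw [sum_congr rfl e1, sum_comm]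
  refine sum_congr rfl fun x _ => ?_
  rw [← sum_mul, ← mul_sum]
  ring

/-- **Solution of the marginal problem.** -/
theorem marginal [Nonempty ι] (ha : ∀ m, a m ≤ D.L) {n : ι → (ι → X) → ℝ} (hn : n ∈ NN D σ s T a) :
    ∃ Ξ : (ι → X) → ℝ, (∀ m ∈ T, ∀ x, EE D.toDy (em D.L m (a m)) Ξ x = n m x) ∧
      (∀ x, Ξ x ≠ 0 → σ x ≤ s) ∧
      ∀ w : (ι → X) → ℝ, BM D.toDy a w → (∀ x, 0 ≤ w x) →
        ∑ x, w x * Ξ x ^ 2 ≤ 2 * ∑ m ∈ T, ∑ x, w x * n m x ^ 2 := by
  set R : NN D σ s T a →ₗ[ℝ] NN D σ s T a :=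
    (TTm D σ s T a).restrict (fun k _ => TTm_mem ha k) with hR
  have hinj : Function.Injective R := by
    rw [injective_iff_map_eq_zero]
    rintro ⟨k, hk⟩ h0
    have h1 : TTm D σ s T a k = 0 := by
      have := congrArg Subtype.val h0
      exact this
    have h2 := pairing hk ha (w := fun _ => 1) (BM.const _ _)
    have h3 := Q_ge hk ha (w := fun _ => 1) (BM.const _ _) (fun _ => zero_le_one)
    rw [← h2, h1] at h3
    simp only [Pi.zero_apply, zero_mul, mul_zero, sum_const_zero, one_mul] at h3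
    have h4 : ∑ m ∈ T, ∑ x, k m x ^ 2 ≤ 0 := by linarith
    have h5 : ∀ m ∈ T, ∀ x, k m x = 0 := by
      intro m hm x
      have h6 : k m x ^ 2 ≤ 0 :=
        ((single_le_sum (f := fun x => k m x ^ 2) (fun x _ => sq_nonneg _) (mem_univ x)).trans
          (single_le_sum (f := fun m => ∑ x, k m x ^ 2)
            (fun m _ => sum_nonneg fun x _ => sq_nonneg _) hm)).trans h4
      exact pow_eq_zero_iff (two_ne_zero) |>.1 (le_antisymm h6 (sq_nonneg _))
    apply Subtype.ext
    change k = 0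
    ext m x
    by_cases hm : m ∈ T
    · exact h5 m hm x
    · exact hk.1 m hm x
  have hsurj : Function.Surjective R := LinearMap.injective_iff_surjective.1 hinj
  obtain ⟨⟨k, hk⟩, hkn⟩ := hsurj ⟨n, hn⟩
  have hkn' : TTm D σ s T a k = n := congrArg Subtype.val hkn
  refine ⟨fun x => gi D σ s T a x * ∑ m ∈ T, k m x, ?_, ?_, ?_⟩
  · intro m hm x
    rw [← hkn', TTm_apply hm]
  · intro x hx
    have : gi D σ s T a x ≠ 0 := fun h => hx (by simp only [h, zero_mul])
    unfold gi at this
    split_ifs at this with hG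
    · exact Gam_le hG
    · exact absurd rfl this
  · intro w hw hw0
    set Q := ∑ x, w x * (gi D σ s T a x * (∑ m ∈ T, k m x) ^ 2) with hQ
    have e1 : ∑ x, w x * (gi D σ s T a x * ∑ m ∈ T, k m x) ^ 2 = Q := by
      refine sum_congr rfl fun x _ => ?_
      rw [mul_pow, sq (gi D σ s T a x), gi_sq]
    have e2 := pairing hk ha hw
    have e3 := Q_ge hk ha hw hw0
    rw [hkn', ← hQ] at e2
    rw [← hQ] at e3
    rw [e1]
    have e4 : ∑ m ∈ T, ∑ x, w x * (n m x * k m x)
        ≤ ∑ m ∈ T, ∑ x, w x * n m x ^ 2 + (1/4) * ∑ m ∈ T, ∑ x, w x * k m x ^ 2 := by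
      rw [mul_sum, ← sum_add_distrib]
      refine sum_le_sum fun m _ => ?_
      rw [mul_sum, ← sum_add_distrib]
      refine sum_le_sum fun x _ => ?_
      have := mul_nonneg (hw0 x) (sq_nonneg (n m x - (1/2) * k m x))
      nlinarith
    linarith

/-- support condition for the marginals -/
lemma Gm_of_le [Nonempty ι] {A s0 : ℝ} (hW : Wt D σ A) (ha : ∀ m, a m ≤ D.L) (hs0 : 0 < s0)
    {m : ι} {x y : ι → X}
    (hy : ∀ m', D.c (em D.L m (a m) m') (y m') = D.c (em D.L m (a m) m') (x m'))
    (hσy : σ y ≤ s0) : Gm D σ (Lam ι A * s0) T a m x := by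
  intro S hS hmS
  rw [← dn_cell (σ := σ) (s := Lam ι A * s0) ha hmS x y hy]
  have e0 := eta_pos (ι := ι)
  have e1 := eta_le_one (ι := ι)
  have hL := Lam_ge (ι := ι) hW.one
  have hs1 : 0 < Lam ι A * s0 := by positivity
  have h1 : dn D σ (Lam ι A * s0) a S y ≤ (Lam ι A * s0)⁻¹ * (A ^ Fintype.card ι * s0) := by
    unfold dn
    have h2 : ∀ z, bad σ (Lam ι A * s0) z ≤ (Lam ι A * s0)⁻¹ * σ z := by
      intro z
      unfold bad
      have := hW.pos z
      split_ifs with hc
      · rw [inv_mul_eq_div, le_div_iff₀ hs1, one_mul]; exact hc.le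
      · positivity
    refine (EE_mono h2 y).trans ?_
    rw [EE_mul]
    refine mul_le_mul_of_nonneg_left ?_ (by positivity)
    refine (hW.rs_le' ha S y).trans ?_
    exact mul_le_mul_of_nonneg_left hσy (pow_nonneg (by linarith [hW.one]) _)
  refine lt_of_le_of_lt h1 ?_
  have hA0 : 0 < A ^ Fintype.card ι := by have := hW.one; positivity
  have h3 : (Lam ι A * s0)⁻¹ * (A ^ Fintype.card ι * s0) = (1/2) * eta ι ^ Fintype.card ι := by
    unfold Lam
    have : eta ι ^ Fintype.card ι ≠ 0 := by positivity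
    rw [inv_pow]
    field_simp
  rw [h3]
  have h4 : eta ι ^ Fintype.card ι ≤ eta ι ^ S.card :=
    pow_le_pow_of_le_one e0.le e1 (card_le_univ S)
  have h5 : 0 < eta ι ^ Fintype.card ι := by positivity
  linarith

end

end HD

end

section
/-!
The family of correctors.
-/

open Finset
open scoped Classical

set_option linter.unusedSectionVars false

namespace HD

variable {X : Type} [Fintype X] [DecidableEq X] {ι : Type} [Fintype ι] [DecidableEq ι]

section
variable {D : HDy X}

lemma hone_BM {m m' : ι} (h : m ≠ m') (j j' : ℕ) :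
    BM D.toDy (em D.L m' j') (fun y : ι → X => D.h j (y m)) := by
  intro x y hxy
  have h1 := hxy m
  unfold em at h1
  rw [Function.update_of_ne h] at h1
  have : y m = x m := D.top _ _ h1
  simp only [this]

lemma EE_hone {m : ι} {j : ℕ} (hj : j < D.L) (x : ι → X) :
    EE D.toDy (em D.L m j) (fun y : ι → X => D.h j (y m)) x = 0 := by
  rw [EE_single]
  simp only [Function.update_self]
  rw [E_eq]
  exact sum_ek_h hj (x m)

end

variable (D : HDy X) (σ : (ι → X) → ℝ) (A s : ℝ)

/-- the correctors -/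
structure Th (θ : Finset ι → (ι → ℕ) → (ι → X) → ℝ) : Prop where
  zero : ∀ a x, θ ∅ a x = bad σ s x
  marg : ∀ T : Finset ι, ∀ a ∈ lvS D.L T, ∀ m ∈ T, ∀ x, EE D.toDy (em D.L m (a m)) (θ T a) x
    = EE D.toDy (em D.L m (a m))
        (fun y => D.h (a m) (y m) * θ (T.erase m) (Function.update a m D.L) y) x
  supp : ∀ T : Finset ι, T.Nonempty → ∀ a ∈ lvS D.L T, ∀ x, θ T a x ≠ 0 →
    σ x ≤ Lam ι A ^ T.card * s
  norm : ∀ T : Finset ι, T.Nonempty → ∀ a ∈ lvS D.L T, ∀ w : (ι → X) → ℝ, BM D.toDy a w →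
    (∀ x, 0 ≤ w x) → ∑ x, w x * θ T a x ^ 2 ≤ 2 * ∑ m ∈ T, ∑ x, w x *
      (EE D.toDy (em D.L m (a m))
        (fun y => D.h (a m) (y m) * θ (T.erase m) (Function.update a m D.L) y) x) ^ 2

variable {D σ A s}

lemma erase_mem {T : Finset ι} {L : ℕ} {a : ι → ℕ} (ha : a ∈ lvS L T) (m : ι) :
    Function.update a m L ∈ lvS L (T.erase m) := by
  rw [mem_lvS] at ha ⊢
  refine ⟨fun m' hm' => ?_, fun m' hm' => ?_⟩
  · rw [mem_erase] at hm'
    rw [Function.update_of_ne hm'.1]
    exact ha.1 m' hm'.2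
  · by_cases e : m' = m
    · subst e; rw [Function.update_self]
    · rw [Function.update_of_ne e]
      exact ha.2 m' fun hh => hm' (mem_erase.2 ⟨e, hh⟩)

/-- one step of the construction -/
lemma theta_step [Nonempty ι] (hW : Wt D σ A) (hs : 0 < s)
    (θ : Finset ι → (ι → ℕ) → (ι → X) → ℝ) {T : Finset ι} (hT : T.Nonempty)
    (h0 : ∀ a x, θ ∅ a x = bad σ s x)
    (h1 : ∀ m ∈ T, ∀ a ∈ lvS D.L (T.erase m), ∀ m' ∈ T.erase m, ∀ x,
      EE D.toDy (em D.L m' (a m')) (θ (T.erase m) a) x
      = EE D.toDy (em D.L m' (a m'))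
        (fun y => D.h (a m') (y m') * θ ((T.erase m).erase m') (Function.update a m' D.L) y) x)
    (h2 : ∀ m ∈ T, (T.erase m).Nonempty → ∀ a ∈ lvS D.L (T.erase m), ∀ x, θ (T.erase m) a x ≠ 0 →
      σ x ≤ Lam ι A ^ (T.erase m).card * s)
    {a : ι → ℕ} (ha : a ∈ lvS D.L T) :
    ∃ Ξ : (ι → X) → ℝ, (∀ m ∈ T, ∀ x, EE D.toDy (em D.L m (a m)) Ξ x
      = EE D.toDy (em D.L m (a m))
        (fun y => D.h (a m) (y m) * θ (T.erase m) (Function.update a m D.L) y) x) ∧
      (∀ x, Ξ x ≠ 0 → σ x ≤ Lam ι A ^ T.card * s) ∧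
      ∀ w : (ι → X) → ℝ, BM D.toDy a w → (∀ x, 0 ≤ w x) →
        ∑ x, w x * Ξ x ^ 2 ≤ 2 * ∑ m ∈ T, ∑ x, w x * (EE D.toDy (em D.L m (a m))
        (fun y => D.h (a m) (y m) * θ (T.erase m) (Function.update a m D.L) y) x) ^ 2 := by
  have haL : ∀ m, a m ≤ D.L := lvS_le ha
  have hLam := Lam_ge (ι := ι) hW.one
  set n : ι → (ι → X) → ℝ := fun m => if m ∈ T then EE D.toDy (em D.L m (a m))
        (fun y => D.h (a m) (y m) * θ (T.erase m) (Function.update a m D.L) y) else fun _ => 0
    with hn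
  have hnT : ∀ m ∈ T, n m = EE D.toDy (em D.L m (a m))
        (fun y => D.h (a m) (y m) * θ (T.erase m) (Function.update a m D.L) y) := by
    intro m hm; simp only [hn, if_pos hm]
  set s0 := Lam ι A ^ (T.card - 1) * s with hs0
  have hs0' : 0 < s0 := by positivity
  have hcard : 0 < T.card := card_pos.2 hT
  have hs1 : Lam ι A * s0 = Lam ι A ^ T.card * s := by
    rw [hs0, ← mul_assoc, ← pow_succ']
    congr 2; omega
  have hmem : n ∈ NN D σ (Lam ι A * s0) T a := by
    refine ⟨fun m hm x => ?_, fun m hm => ?_, fun m hm x hx => ?_, fun m hm m' hm' x => ?_⟩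
    · simp only [hn, if_neg hm]
    · rw [hnT m hm]; exact EE_BM _ _
    · by_contra hne
      apply hx
      rw [hnT m hm] at hne
      rcases (T.erase m).eq_empty_or_nonempty with he | he
      · -- singleton
        have hz := EE_hone (D := D) (m := m) (j := a m) ((mem_lvS.1 ha).1 m hm) x
        have e1 : EE D.toDy (em D.L m (a m)) (fun y => D.h (a m) (y m) * (1 - bad σ s y)) x ≠ 0 := by
          have e2 : EE D.toDy (em D.L m (a m)) (fun y => D.h (a m) (y m) * (1 - bad σ s y)) x
              = - EE D.toDy (em D.L m (a m))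
                (fun y => D.h (a m) (y m) * θ (T.erase m) (Function.update a m D.L) y) x := by
            have e3 : (fun y : ι → X => D.h (a m) (y m) * (1 - bad σ s y))
                = fun y => D.h (a m) (y m)
                  - D.h (a m) (y m) * θ (T.erase m) (Function.update a m D.L) y := by
              ext y
              rw [he, h0]; ring
            rw [e3, EE_sub, hz, zero_sub]
          rw [e2]
          exact neg_ne_zero.2 hne
        obtain ⟨y, hy, hy2⟩ := exists_ne e1
        have hσy : σ y ≤ s0 := by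
          have : T.card = 1 := by
            have := card_erase_of_mem hm
            rw [he, card_empty] at this
            omega
          rw [hs0, this]
          simp only [Nat.sub_self, pow_zero, one_mul]
          by_contra hc
          push Not at hc
          apply hy2
          unfold bad
          rw [if_pos hc, sub_self, mul_zero]
        exact Gm_of_le hW haL hs0' hy hσy
      · obtain ⟨y, hy, hy2⟩ := exists_ne hne
        have hθ : θ (T.erase m) (Function.update a m D.L) y ≠ 0 := fun h => hy2 (by rw [h, mul_zero])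
        have hσy := h2 m hm he _ (erase_mem ha m) y hθ
        rw [card_erase_of_mem hm] at hσy
        exact Gm_of_le hW haL hs0' hy hσy
    · by_cases hmm : m = m'
      · subst hmm; rfl
      · rw [hnT m hm, hnT m' hm']
        -- both sides are symmetric double averages
        have key : ∀ p ∈ T, ∀ p' ∈ T, p ≠ p' →
            EE D.toDy (em D.L p' (a p')) (EE D.toDy (em D.L p (a p))
              (fun y => D.h (a p) (y p) * θ (T.erase p) (Function.update a p D.L) y)) x
            = EE D.toDy (em D.L p (a p)) (EE D.toDy (em D.L p' (a p'))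
              (fun y => D.h (a p) (y p) * (D.h (a p') (y p') * θ ((T.erase p).erase p')
                (Function.update (Function.update a p D.L) p' D.L) y))) x := by
          intro p hp p' hp' hne
          rw [EE_comm]
          congr 1
          ext z
          rw [EE_BM_mul (hone_BM hne (a p) (a p')), EE_BM_mul (hone_BM hne (a p) (a p'))]
          congr 1
          have h3 := h1 p hp (Function.update a p D.L) (erase_mem ha p) p'
            (mem_erase.2 ⟨fun e => hne e.symm, hp'⟩) z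
          rw [Function.update_of_ne (fun e => hne e.symm)] at h3
          exact h3
        rw [key m hm m' hm' hmm, key m' hm' m hm (fun e => hmm e.symm), EE_comm]
        congr 1
        ext z
        congr 1
        ext y
        rw [erase_right_comm, Function.update_comm hmm]
        ring
  obtain ⟨Ξ, g1, g2, g3⟩ := marginal haL hmem
  refine ⟨Ξ, fun m hm x => ?_, fun x hx => ?_, fun w hw hw0 => ?_⟩
  · rw [g1 m hm, hnT m hm]
  · rw [← hs1]; exact g2 x hx
  · refine (g3 w hw hw0).trans (le_of_eq ?_)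
    congr 1
    exact sum_congr rfl fun m hm => by rw [hnT m hm]

/-- existence of the correctors -/
theorem theta_exists [Nonempty ι] (hW : Wt D σ A) (hs : 0 < s) :
    ∃ θ : Finset ι → (ι → ℕ) → (ι → X) → ℝ, Th D σ A s θ := by
  have main : ∀ n : ℕ, ∃ θ : Finset ι → (ι → ℕ) → (ι → X) → ℝ,
      (∀ a x, θ ∅ a x = bad σ s x) ∧
      (∀ T : Finset ι, T.card ≤ n → ∀ a ∈ lvS D.L T, ∀ m ∈ T, ∀ x,
        EE D.toDy (em D.L m (a m)) (θ T a) x
        = EE D.toDy (em D.L m (a m))
          (fun y => D.h (a m) (y m) * θ (T.erase m) (Function.update a m D.L) y) x) ∧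
      (∀ T : Finset ι, T.card ≤ n → T.Nonempty → ∀ a ∈ lvS D.L T, ∀ x, θ T a x ≠ 0 →
        σ x ≤ Lam ι A ^ T.card * s) ∧
      (∀ T : Finset ι, T.card ≤ n → T.Nonempty → ∀ a ∈ lvS D.L T, ∀ w : (ι → X) → ℝ,
        BM D.toDy a w → (∀ x, 0 ≤ w x) → ∑ x, w x * θ T a x ^ 2 ≤ 2 * ∑ m ∈ T, ∑ x, w x *
        (EE D.toDy (em D.L m (a m))
          (fun y => D.h (a m) (y m) * θ (T.erase m) (Function.update a m D.L) y) x) ^ 2) := by
    intro n
    induction n with
    | zero =>
      refine ⟨fun _ _ x => bad σ s x, fun _ _ => rfl, ?_, ?_, ?_⟩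
      · intro T hT a ha m hm
        rw [card_eq_zero.1 (Nat.le_zero.1 hT)] at hm
        simp at hm
      · intro T hT hne
        rw [card_eq_zero.1 (Nat.le_zero.1 hT)] at hne
        simp at hne
      · intro T hT hne
        rw [card_eq_zero.1 (Nat.le_zero.1 hT)] at hne
        simp at hne
    | succ n ih =>
      obtain ⟨θ, i0, i1, i2, i3⟩ := ih
      have hex : ∀ T : Finset ι, T.card = n + 1 → ∀ a ∈ lvS D.L T,
          ∃ Ξ : (ι → X) → ℝ, (∀ m ∈ T, ∀ x, EE D.toDy (em D.L m (a m)) Ξ x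
            = EE D.toDy (em D.L m (a m))
              (fun y => D.h (a m) (y m) * θ (T.erase m) (Function.update a m D.L) y) x) ∧
            (∀ x, Ξ x ≠ 0 → σ x ≤ Lam ι A ^ T.card * s) ∧
            ∀ w : (ι → X) → ℝ, BM D.toDy a w → (∀ x, 0 ≤ w x) →
              ∑ x, w x * Ξ x ^ 2 ≤ 2 * ∑ m ∈ T, ∑ x, w x * (EE D.toDy (em D.L m (a m))
              (fun y => D.h (a m) (y m) * θ (T.erase m) (Function.update a m D.L) y) x) ^ 2 := by
        intro T hT a ha
        refine theta_step hW hs θ (card_pos.1 (by omega)) i0 ?_ ?_ ha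
        · intro m hm b hb m' hm' x
          exact i1 (T.erase m) (by rw [card_erase_of_mem hm]; omega) b hb m' hm' x
        · intro m hm hne b hb x
          exact i2 (T.erase m) (by rw [card_erase_of_mem hm]; omega) hne b hb x
      choose Φ hΦ using hex
      set θ' : Finset ι → (ι → ℕ) → (ι → X) → ℝ := fun T a =>
        if h : T.card = n + 1 ∧ a ∈ lvS D.L T then Φ T h.1 a h.2 else θ T a with hθ'
      have hsmall : ∀ T : Finset ι, T.card ≤ n → ∀ a, θ' T a = θ T a := by
        intro T hT a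
        simp only [hθ']
        rw [dif_neg]
        rintro ⟨h, _⟩
        omega
      have hbig : ∀ T : Finset ι, ∀ hT : T.card = n + 1, ∀ a, ∀ ha : a ∈ lvS D.L T,
          θ' T a = Φ T hT a ha := by
        intro T hT a ha
        simp only [hθ']
        rw [dif_pos ⟨hT, ha⟩]
      have herase : ∀ T : Finset ι, T.card ≤ n + 1 → ∀ m ∈ T, ∀ a, θ' (T.erase m) a = θ (T.erase m) a := by
        intro T hT m hm a
        refine hsmall _ ?_ a
        rw [card_erase_of_mem hm]; omega
      refine ⟨θ', ?_, ?_, ?_, ?_⟩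
      · intro a x
        rw [hsmall ∅ (by simp) a]; exact i0 a x
      · intro T hT a ha m hm x
        rw [herase T hT m hm]
        rcases Nat.lt_or_ge n T.card with h | h
        · have hc : T.card = n + 1 := by omega
          rw [hbig T hc a ha]
          exact (hΦ T hc a ha).1 m hm x
        · rw [hsmall T h]
          exact i1 T h a ha m hm x
      · intro T hT hne a ha x hx
        rcases Nat.lt_or_ge n T.card with h | h
        · have hc : T.card = n + 1 := by omega
          rw [hbig T hc a ha] at hx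
          exact (hΦ T hc a ha).2.1 x hx
        · rw [hsmall T h] at hx
          exact i2 T h hne a ha x hx
      · intro T hT hne a ha w hw hw0
        have e1 : ∑ m ∈ T, ∑ x, w x * (EE D.toDy (em D.L m (a m))
              (fun y => D.h (a m) (y m) * θ' (T.erase m) (Function.update a m D.L) y) x) ^ 2
            = ∑ m ∈ T, ∑ x, w x * (EE D.toDy (em D.L m (a m))
              (fun y => D.h (a m) (y m) * θ (T.erase m) (Function.update a m D.L) y) x) ^ 2 :=
          sum_congr rfl fun m hm => by rw [herase T hT m hm]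
        rw [e1]
        rcases Nat.lt_or_ge n T.card with h | h
        · have hc : T.card = n + 1 := by omega
          rw [hbig T hc a ha]
          exact (hΦ T hc a ha).2.2 w hw hw0
        · rw [hsmall T h]
          exact i3 T h hne a ha w hw hw0
  obtain ⟨θ, h0, h1, h2, h3⟩ := main (Fintype.card ι)
  exact ⟨θ, h0, fun T a ha m hm x => h1 T (card_le_univ T) a ha m hm x,
    fun T hT a ha x hx => h2 T (card_le_univ T) hT a ha x hx,
    fun T hT a ha w hw hw0 => h3 T (card_le_univ T) hT a ha w hw hw0⟩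

namespace Th
variable {θ : Finset ι → (ι → ℕ) → (ι → X) → ℝ} (h : Th D σ A s θ)
include h

/-- local bound for the correctors -/
lemma local_le [Nonempty ι] (T : Finset ι) {a : ι → ℕ} (ha : a ∈ lvS D.L T) {w : (ι → X) → ℝ}
    (hw : BM D.toDy a w) (hw0 : ∀ x, 0 ≤ w x) :
    ∑ x, w x * θ T a x ^ 2 ≤ (2 * (Fintype.card ι : ℝ)) ^ T.card * ∑ x, w x * bad σ s x := by
  induction hn : T.card generalizing T a w with
  | zero =>
    rw [card_eq_zero] at hn
    subst hn
    rw [pow_zero, one_mul]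
    refine le_of_eq (sum_congr rfl fun x _ => ?_)
    rw [h.zero]
    congr 1
    unfold bad
    split_ifs <;> norm_num
  | succ n ih =>
    have hT : T.Nonempty := card_pos.1 (by omega)
    refine (h.norm T hT a ha w hw hw0).trans ?_
    have e1 : ∀ m ∈ T, ∑ x, w x * (EE D.toDy (em D.L m (a m))
        (fun y => D.h (a m) (y m) * θ (T.erase m) (Function.update a m D.L) y) x) ^ 2
        ≤ (2 * (Fintype.card ι : ℝ)) ^ n * ∑ x, w x * bad σ s x := by
      intro m hm
      have b1 : BM D.toDy (em D.L m (a m)) w := hw.mono (le_em (lvS_le ha) m)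
      have b2 : BM D.toDy (Function.update a m D.L) w := hw.mono (by
        intro m'
        by_cases e : m' = m
        · subst e; rw [Function.update_self]; exact lvS_le ha m'
        · rw [Function.update_of_ne e])
      have i1 := ih (T.erase m) (erase_mem ha m) b2 hw0 (by rw [card_erase_of_mem hm, hn]; rfl)
      refine le_trans ?_ i1
      rw [← sum_BM_mul b1 (fun x => θ (T.erase m) (Function.update a m D.L) x ^ 2)]
      refine sum_le_sum fun x _ => mul_le_mul_of_nonneg_left ?_ (hw0 x)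
      refine (EE_sq_le _ x).trans (le_of_eq ?_)
      congr 1
      ext y
      rw [mul_pow, sq (D.h (a m) (y m)), D.hsq, one_mul]
    refine (mul_le_mul_of_nonneg_left (sum_le_sum e1) (by norm_num)).trans ?_
    rw [sum_const, nsmul_eq_mul]
    have h0 : 0 ≤ ∑ x, w x * bad σ s x := sum_nonneg fun x _ => mul_nonneg (hw0 x) (bad_nonneg x)
    have h1 : (T.card : ℝ) ≤ Fintype.card ι := by exact_mod_cast card_le_univ T
    have h2 : 0 ≤ (2 * (Fintype.card ι : ℝ)) ^ n * ∑ x, w x * bad σ s x := by positivity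
    calc 2 * ((T.card : ℝ) * ((2 * (Fintype.card ι : ℝ)) ^ n * ∑ x, w x * bad σ s x))
        ≤ 2 * ((Fintype.card ι : ℝ) * ((2 * (Fintype.card ι : ℝ)) ^ n * ∑ x, w x * bad σ s x)) :=
          mul_le_mul_of_nonneg_left (mul_le_mul_of_nonneg_right h1 h2) (by norm_num)
      _ = _ := by rw [pow_succ]; ring

/-- pointwise form -/
lemma pt_le [Nonempty ι] (T : Finset ι) {a : ι → ℕ} (ha : ∀ m, a m < D.L) (x : ι → X) :
    EE D.toDy a (fun y => θ T (rs D.L T a) y ^ 2) x
      ≤ (2 * (Fintype.card ι : ℝ)) ^ T.card * EE D.toDy a (bad σ s) x := by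
  have ha' : rs D.L T a ∈ lvS D.L T := by
    rw [mem_lvS]
    refine ⟨fun m hm => ?_, fun m hm => ?_⟩
    · unfold rs; rw [if_pos hm]; exact ha m
    · unfold rs; rw [if_neg hm]
  have hle : a ≤ rs D.L T a := by
    intro m
    unfold rs
    split_ifs
    · exact le_rfl
    · exact (ha m).le
  have b : BM D.toDy a (fun y => ∏ m, ek D.toDy (a m) (x m) (y m)) := by
    intro y z hyz
    refine prod_congr rfl fun m _ => ?_
    unfold ek
    rw [hyz m]
  exact h.local_le T ha' (b.mono hle) (fun y => ker_nonneg _ _ _)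

/-- global bound, summed over the levels -/
lemma sum_le [Nonempty ι] (T : Finset ι) :
    ∑ a ∈ lvS D.L T, ∑ x, θ T a x ^ 2 ≤ (2 * (Fintype.card ι : ℝ)) ^ T.card * ∑ x, bad σ s x := by
  induction hn : T.card generalizing T with
  | zero =>
    rw [card_eq_zero] at hn
    subst hn
    rw [pow_zero, one_mul, lvS_empty, sum_singleton]
    refine le_of_eq (sum_congr rfl fun x _ => ?_)
    rw [h.zero]
    unfold bad
    split_ifs <;> norm_num
  | succ n ih =>
    have hT : T.Nonempty := card_pos.1 (by omega)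
    have e0 : ∑ a ∈ lvS D.L T, ∑ x, θ T a x ^ 2
        ≤ ∑ a ∈ lvS D.L T, 2 * ∑ m ∈ T, ∑ x, (EE D.toDy (em D.L m (a m))
        (fun y => D.h (a m) (y m) * θ (T.erase m) (Function.update a m D.L) y) x) ^ 2 := by
      refine sum_le_sum fun a ha => ?_
      have := h.norm T hT a ha (fun _ => 1) (BM.const _ _) (fun _ => zero_le_one)
      simpa only [one_mul] using this
    refine e0.trans ?_
    rw [← mul_sum, sum_comm]
    have e1 : ∀ m ∈ T, ∑ a ∈ lvS D.L T, ∑ x, (EE D.toDy (em D.L m (a m))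
        (fun y => D.h (a m) (y m) * θ (T.erase m) (Function.update a m D.L) y) x) ^ 2
        ≤ (2 * (Fintype.card ι : ℝ)) ^ n * ∑ x, bad σ s x := by
      intro m hm
      rw [sum_lvS_erase hm]
      refine le_trans ?_ (ih (T.erase m) (by rw [card_erase_of_mem hm, hn]; rfl))
      refine sum_le_sum fun b hb => ?_
      have hbm : Function.update b m D.L = b := by
        rw [← (mem_lvS.1 hb).2 m (by simp), Function.update_eq_self]
      simp only [Function.update_self, Function.update_idem, hbm]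
      exact bessel_one m (θ (T.erase m) b)
    refine (mul_le_mul_of_nonneg_left (sum_le_sum e1) (by norm_num)).trans ?_
    rw [sum_const, nsmul_eq_mul]
    have h0 : 0 ≤ ∑ x, bad σ s x := sum_nonneg fun x _ => bad_nonneg x
    have h1 : (T.card : ℝ) ≤ Fintype.card ι := by exact_mod_cast card_le_univ T
    have h2 : 0 ≤ (2 * (Fintype.card ι : ℝ)) ^ n * ∑ x, bad σ s x := by positivity
    calc 2 * ((T.card : ℝ) * ((2 * (Fintype.card ι : ℝ)) ^ n * ∑ x, bad σ s x))
        ≤ 2 * ((Fintype.card ι : ℝ) * ((2 * (Fintype.card ι : ℝ)) ^ n * ∑ x, bad σ s x)) :=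
          mul_le_mul_of_nonneg_left (mul_le_mul_of_nonneg_right h1 h2) (by norm_num)
      _ = _ := by rw [pow_succ]; ring

end Th

end HD

end
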