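import Pool.Agent.Helper61.HD.MainC
import Pool.Agent.Helper61.HC.Torus

section
/-!
The discrete theorem for exponential sums with frequencies in the hyperbolic cross, every dimension.
-/

open Finset
open scoped Classical

set_option linter.unusedSectionVars false

namespace HD

open HC

variable {L d : ℕ}

lemma lvS_pi (n : ℕ) : lvS n (univ : Finset (Fin d)) = Fintype.piFinset (fun _ => range n) := by
  unfold lvS; simp

/-- action of the operators on exponential sums -/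
lemma cvT_exd {g : ℝ → ℂ} {B : ℝ} (hg : Sym g B) {s : Fin d → ℕ} {J : Type} (I : Finset J)
    (κ : J → Fin d → ℤ) (hk : ∀ i ∈ I, ∀ j, 4 * 2 ^ (s j) + |κ i j| < 2 ^ L) (c : J → ℂ)
    (x : Fin d → ZMod (2 ^ L)) :
    cvT g s (fun x => ∑ i ∈ I, c i * exd (κ i) x) x
      = ∑ i ∈ I, c i * (∏ j, g ((κ i j : ℝ) / 2 ^ (s j))) * exd (κ i) x := by
  unfold cvT
  rw [TT_sum]
  refine sum_congr rfl fun i hi => ?_
  rw [TT_mul, mul_assoc]
  congr 1
  unfold exd
  rw [TT_prod, ← prod_mul_distrib]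
  refine prod_congr rfl fun j _ => ?_
  rw [← cv_eq_k]
  exact cv_ex hg (hk i hi j) (x j)

lemma exd_upd (k : Fin d → ℤ) (x : Fin d → ZMod (2 ^ L)) (m : Fin d) (t : ZMod (2 ^ L)) :
    exd k (Function.update x m t) = (∏ j ∈ univ.erase m, ex (k j) (x j)) * ex (k m) t := by
  unfold exd
  rw [← mul_prod_erase univ _ (mem_univ m), Function.update_self, mul_comm]
  congr 1
  refine prod_congr rfl fun j hj => ?_
  rw [Function.update_of_ne (ne_of_mem_erase hj)]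

lemma EE_exd {J : Type} (I : Finset J) (κ : J → Fin d → ℤ) (c : J → ℂ) (m : Fin d)
    (hk : ∀ i ∈ I, |κ i m| < 2 ^ L) (h0 : ∀ i ∈ I, κ i m ≠ 0) (x : Fin d → ZMod (2 ^ L)) :
    EE (hdy L).toDy (em L m 0) (fun x => ∑ i ∈ I, c i * exd (κ i) x) x = 0 := by
  have h1 := EE_single (D := hdy L) m 0 (fun x => ∑ i ∈ I, c i * exd (κ i) x) x
  have h2 : (hdy L).toDy.E 0 (fun t => (fun x => ∑ i ∈ I, c i * exd (κ i) x)
      (Function.update x m t)) (x m) = 0 := by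
    have h3 := E0_eq (L := L) (fun t => (fun x => ∑ i ∈ I, c i * exd (κ i) x)
      (Function.update x m t)) (x m)
    refine h3.trans ?_
    have : ∑ t, (fun x => ∑ i ∈ I, c i * exd (κ i) x) (Function.update x m t) = 0 := by
      simp only
      rw [sum_comm]
      refine sum_eq_zero fun i hi => ?_
      simp only [exd_upd]
      rw [← mul_sum, ← mul_sum, sum_ex (hk i hi), if_neg (h0 i hi), mul_zero, mul_zero]
    rw [this, smul_zero]
  exact h1.trans h2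

/-- frequencies with nonzero coordinates -/
theorem discD (hd : 0 < d) {r : ℝ} (hr : 0 < r) : ∃ C : ℝ, 0 ≤ C ∧ ∃ K : ℕ, ∀ n L : ℕ,
    n + K + 4 ≤ L → ∀ (J : Type) (I : Finset J) (κ : J → Fin d → ℤ) (c : J → ℂ),
      (∀ i ∈ I, (∀ j, κ i j ≠ 0) ∧ HC.cross n (κ i)) →
      ∑ x : Fin d → ZMod (2 ^ L), ‖∑ i ∈ I, c i * (∏ j, HC.wd r (κ i j)) * exd (κ i) x‖
      ≤ C * ((2:ℝ) ^ r) ^ n * ∑ x : Fin d → ZMod (2 ^ L), ‖∑ i ∈ I, c i * exd (κ i) x‖ := by
  have : Nonempty (Fin d) := ⟨⟨0, hd⟩⟩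
  obtain ⟨B, hg, hh, hz⟩ := symbols r
  obtain ⟨C, hC, K, hmain⟩ := mainD (Fin d) hg hh hz hr
  refine ⟨C, hC, K, ?_⟩
  intro n L hL J I κ c hκ
  set f : (Fin d → ZMod (2 ^ L)) → ℂ := fun x => ∑ i ∈ I, c i * exd (κ i) x with hf
  have hP : (5:ℤ) * 2 ^ n < 2 ^ L := by
    have h1 : (2:ℤ) ^ (n + 3) ≤ 2 ^ L := pow_le_pow_right₀ (by norm_num) (by omega)
    rw [pow_add] at h1
    have : (0:ℤ) < 2 ^ n := by positivity
    linarith
  -- size of the frequencies
  have hk : ∀ i ∈ I, ∀ j, |κ i j| < 2 ^ n := by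
    intro i hi j
    obtain ⟨s, hs, hb⟩ := (hκ i hi).2
    have : s j ≤ n := (single_le_sum (fun _ _ => Nat.zero_le _) (mem_univ j)).trans hs
    exact inBlock_lt (hb j) this
  have hkL : ∀ i ∈ I, ∀ j, |κ i j| < 2 ^ L := by
    intro i hi j
    have := hk i hi j
    have : (0:ℤ) < 2 ^ n := by positivity
    linarith
  have hcond : ∀ s ∈ lvS (n+1) (univ : Finset (Fin d)), ∀ i ∈ I, ∀ j,
      4 * 2 ^ (s j) + |κ i j| < 2 ^ L := by
    intro s hs i hi j
    have h1 := (mem_full).1 hs j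
    have : (2:ℤ) ^ (s j) ≤ 2 ^ n := pow_le_pow_right₀ (by norm_num) (by omega)
    have := hk i hi j
    linarith
  set g : ℝ → ℂ := fun u => ((bl u : ℝ) : ℂ) with hgd
  set h : ℝ → ℂ := fun u => ((bw u : ℝ) : ℂ) with hhd
  have actg : ∀ s ∈ lvS (n+1) (univ : Finset (Fin d)), cvT g s f = fun x => ∑ i ∈ I,
      (c i * (∏ j, g ((κ i j : ℝ) / 2 ^ (s j)))) * exd (κ i) x := by
    intro s hs
    ext x
    exact cvT_exd hg.sym I κ (hcond s hs) c x
  have hvan : ∀ s : Fin d → ℕ, n < ∑ j, s j → ∀ i ∈ I,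
      ∏ j, g ((κ i j : ℝ) / 2 ^ (s j)) = 0 := by
    intro s h12 i hi
    obtain ⟨t, ht, hb⟩ := (hκ i hi).2
    by_contra hne
    have hne := prod_ne_zero_iff.1 hne
    have : ∀ j, s j ≤ t j := by
      intro j
      have n1 : bl ((κ i j : ℝ) / 2 ^ (s j)) ≠ 0 := fun h0 => hne j (mem_univ j) (by
        simp only [hgd]; rw [h0]; simp)
      exact block_bl (hb j) n1
    have := sum_le_sum fun j (_ : j ∈ (univ : Finset (Fin d))) => this j
    omega
  have sumg : ∀ i ∈ I, ∑ s ∈ lvS (n+1) (univ : Finset (Fin d)),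
      ∏ j, g ((κ i j : ℝ) / 2 ^ (s j)) = 1 := by
    intro i hi
    rw [lvS_pi, ← Finset.prod_univ_sum (fun _ => range (n+1))
      (fun j s => g ((κ i j : ℝ) / 2 ^ s))]
    refine prod_eq_one fun j _ => ?_
    have := sum_bl ((hκ i hi).1 j) (hk i hi j).le
    simp only [hgd]
    rw [← Complex.ofReal_sum, this]; simp
  have hF := hmain n L hL f (fun m x => EE_exd I κ c m (fun i hi => hkL i hi m)
      (fun i hi => (hκ i hi).1 m) x) (by
    intro s hs h12 x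
    rw [actg s hs]
    refine sum_eq_zero fun i hi => ?_
    rw [hvan s h12 i hi, mul_zero, zero_mul]) (by
    intro x
    have e1 : ∀ s ∈ lvS (n+1) (univ : Finset (Fin d)), cvT h s (cvT g s f) x
        = ∑ i ∈ I, (c i * exd (κ i) x) * (∏ j, g ((κ i j : ℝ) / 2 ^ (s j))) := by
      intro s hs
      rw [actg s hs, cvT_exd hh.sym I κ (hcond s hs)]
      refine sum_congr rfl fun i _ => ?_
      have b1 : (∏ j, h ((κ i j : ℝ) / 2 ^ (s j))) * (∏ j, g ((κ i j : ℝ) / 2 ^ (s j)))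
          = ∏ j, g ((κ i j : ℝ) / 2 ^ (s j)) := by
        rw [← prod_mul_distrib]
        refine prod_congr rfl fun j _ => ?_
        simp only [hgd, hhd]; rw [← Complex.ofReal_mul, bw_bl]
      calc _ = (c i * exd (κ i) x) * ((∏ j, h ((κ i j : ℝ) / 2 ^ (s j)))
            * (∏ j, g ((κ i j : ℝ) / 2 ^ (s j)))) := by ring
        _ = _ := by rw [b1]
    rw [sum_congr rfl e1, sum_comm]
    simp only [hf]
    refine sum_congr rfl fun i hi => ?_
    rw [← mul_sum, sumg i hi, mul_one])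
  -- identify F
  have hFid : ∀ x, ∑ i ∈ I, c i * (∏ j, HC.wd r (κ i j)) * exd (κ i) x
      = ((((2:ℝ) ^ r) ^ n : ℝ) : ℂ) * ∑ s ∈ lvS (n+1) (univ : Finset (Fin d)),
        ((((2:ℝ) ^ (-r)) ^ (n - ∑ m, s m) : ℝ) : ℂ) * cvT (zeta r) s (cvT g s f) x := by
    intro x
    have e1 : ∀ s ∈ lvS (n+1) (univ : Finset (Fin d)), ((((2:ℝ) ^ r) ^ n : ℝ) : ℂ)
        * (((((2:ℝ) ^ (-r)) ^ (n - ∑ m, s m) : ℝ) : ℂ) * cvT (zeta r) s (cvT g s f) x)
        = ∑ i ∈ I, (c i * (∏ j, HC.wd r (κ i j)) * exd (κ i) x)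
          * (∏ j, g ((κ i j : ℝ) / 2 ^ (s j))) := by
      intro s hs
      rw [actg s hs, cvT_exd hz.sym I κ (hcond s hs), mul_sum, mul_sum]
      refine sum_congr rfl fun i hi => ?_
      rcases lt_or_ge n (∑ m, s m) with h12 | h12
      · rw [hvan s h12 i hi]; simp
      · have b1 : (∏ j, ((((2:ℝ) ^ r) ^ (s j) : ℝ) : ℂ)) *
            ((∏ j, zeta r ((κ i j : ℝ) / 2 ^ (s j))) * ∏ j, g ((κ i j : ℝ) / 2 ^ (s j)))
            = (∏ j, HC.wd r (κ i j)) * ∏ j, g ((κ i j : ℝ) / 2 ^ (s j)) := by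
          rw [← prod_mul_distrib, ← prod_mul_distrib, ← prod_mul_distrib]
          exact prod_congr rfl fun j _ => zeta_scale r (s j) (κ i j)
        have b3 : (((2:ℝ) ^ r) ^ n) * ((2:ℝ) ^ (-r)) ^ (n - ∑ m, s m)
            = ((2:ℝ) ^ r) ^ (∑ m, s m) := by
          have hn : n = (∑ m, s m) + (n - ∑ m, s m) := by omega
          have : ((2:ℝ) ^ r) ^ n = ((2:ℝ) ^ r) ^ (∑ m, s m) * ((2:ℝ) ^ r) ^ (n - ∑ m, s m) := by
            rw [← pow_add, ← hn]
          rw [this, Real.rpow_neg (by norm_num), mul_assoc, ← mul_pow,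
            mul_inv_cancel₀ (by positivity), one_pow, mul_one]
        have b4 : ((((2:ℝ) ^ r) ^ n : ℝ) : ℂ) * ((((2:ℝ) ^ (-r)) ^ (n - ∑ m, s m) : ℝ) : ℂ)
            = ∏ j, ((((2:ℝ) ^ r) ^ (s j) : ℝ) : ℂ) := by
          rw [← Complex.ofReal_mul, b3, ← Complex.ofReal_prod, prod_pow_eq_pow_sum]
        calc _ = (((((2:ℝ) ^ r) ^ n : ℝ) : ℂ) * ((((2:ℝ) ^ (-r)) ^ (n - ∑ m, s m) : ℝ) : ℂ))
              * ((∏ j, zeta r ((κ i j : ℝ) / 2 ^ (s j))) * ∏ j, g ((κ i j : ℝ) / 2 ^ (s j)))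
              * (c i * exd (κ i) x) := by ring
          _ = ((∏ j, ((((2:ℝ) ^ r) ^ (s j) : ℝ) : ℂ)) *
              ((∏ j, zeta r ((κ i j : ℝ) / 2 ^ (s j))) * ∏ j, g ((κ i j : ℝ) / 2 ^ (s j))))
              * (c i * exd (κ i) x) := by rw [b4]
          _ = _ := by rw [b1]; ring
    rw [mul_sum, sum_congr rfl e1, sum_comm]
    refine sum_congr rfl fun i hi => ?_
    rw [← mul_sum, sumg i hi, mul_one]
  have hn0 : (0:ℝ) ≤ ((2:ℝ) ^ r) ^ n := by positivity
  calc _ = ∑ x : Fin d → ZMod (2 ^ L), ((2:ℝ) ^ r) ^ n *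
        ‖∑ s ∈ lvS (n+1) (univ : Finset (Fin d)),
        ((((2:ℝ) ^ (-r)) ^ (n - ∑ m, s m) : ℝ) : ℂ) * cvT (zeta r) s (cvT g s f) x‖ := by
        refine sum_congr rfl fun x _ => ?_
        rw [hFid, norm_mul, Complex.norm_real, Real.norm_eq_abs, abs_of_nonneg hn0]
    _ = ((2:ℝ) ^ r) ^ n * ∑ x : Fin d → ZMod (2 ^ L), ‖∑ s ∈ lvS (n+1) (univ : Finset (Fin d)),
        ((((2:ℝ) ^ (-r)) ^ (n - ∑ m, s m) : ℝ) : ℂ) * cvT (zeta r) s (cvT g s f) x‖ := by
        rw [mul_sum]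
    _ ≤ ((2:ℝ) ^ r) ^ n * (C * ∑ x, ‖f x‖) := mul_le_mul_of_nonneg_left hF hn0
    _ = _ := by ring

/-- removing the frequencies with a zero coordinate -/
lemma rem_zeroD {J : Type} (I : Finset J) (κ : J → Fin d → ℤ) (c : J → ℂ)
    (hk : ∀ i ∈ I, ∀ j, |κ i j| < 2 ^ L) (S : Finset (Fin d)) :
    ∑ x : Fin d → ZMod (2 ^ L), ‖∑ i ∈ I.filter (fun i => ∀ j ∈ S, κ i j ≠ 0), c i * exd (κ i) x‖
      ≤ 2 ^ S.card * ∑ x : Fin d → ZMod (2 ^ L), ‖∑ i ∈ I, c i * exd (κ i) x‖ := by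
  induction S using Finset.induction_on with
  | empty => simp
  | insert m S hm ih =>
    rw [card_insert_of_notMem hm, pow_succ, mul_comm ((2:ℝ) ^ _), mul_assoc]
    refine le_trans ?_ (mul_le_mul_of_nonneg_left ih (by norm_num))
    rw [mul_sum]
    refine slice_le m (Φ := fun x =>
      ‖∑ i ∈ I.filter (fun i => ∀ j ∈ insert m S, κ i j ≠ 0), c i * exd (κ i) x‖)
      (Ψ := fun x => 2 * ‖∑ i ∈ I.filter (fun i => ∀ j ∈ S, κ i j ≠ 0), c i * exd (κ i) x‖)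
      fun x => ?_
    have e0 : I.filter (fun i => ∀ j ∈ insert m S, κ i j ≠ 0)
        = (I.filter (fun i => ∀ j ∈ S, κ i j ≠ 0)).filter (fun i => κ i m ≠ 0) := by
      ext i
      simp only [mem_filter, mem_insert, forall_eq_or_imp]
      tauto
    have h1 := rem_zero (L := L) (Y := Unit) (I.filter (fun i => ∀ j ∈ S, κ i j ≠ 0))
      (fun i => κ i m) (fun i hi => hk i (mem_filter.1 hi).1 m)
      (fun i _ => c i * ∏ j ∈ univ.erase m, ex (κ i j) (x j))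
    simp only [univ_unique, sum_singleton] at h1
    rw [e0, ← mul_sum]
    refine le_trans (le_of_eq ?_) (h1.trans (le_of_eq ?_))
    · refine sum_congr rfl fun t _ => ?_
      congr 1
      refine sum_congr rfl fun i _ => ?_
      rw [exd_upd]; ring
    · congr 1
      refine sum_congr rfl fun t _ => ?_
      congr 1
      refine sum_congr rfl fun i _ => ?_
      rw [exd_upd]; ring

/-- the discrete theorem -/
theorem discD_all (hd : 0 < d) {r : ℝ} (hr : 0 < r) : ∃ C : ℝ, 0 ≤ C ∧ ∃ K : ℕ, ∀ n L : ℕ,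
    n + K + 4 ≤ L → ∀ (J : Type) (I : Finset J) (κ : J → Fin d → ℤ) (c : J → ℂ),
      (∀ i ∈ I, HC.cross n (κ i)) →
      ∑ x : Fin d → ZMod (2 ^ L), ‖∑ i ∈ I, c i * (∏ j, HC.wd r (κ i j)) * exd (κ i) x‖
      ≤ C * ((2:ℝ) ^ r) ^ n * ∑ x : Fin d → ZMod (2 ^ L), ‖∑ i ∈ I, c i * exd (κ i) x‖ := by
  obtain ⟨C, hC, K, h⟩ := discD hd hr
  refine ⟨C * 2 ^ d, by positivity, K, ?_⟩
  intro n L hL J I κ c hκ
  have hP : (2:ℤ) ^ n < 2 ^ L := pow_lt_pow_right₀ (by norm_num) (by omega)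
  have hk : ∀ i ∈ I, ∀ j, |κ i j| < 2 ^ L := by
    intro i hi j
    obtain ⟨s, hs, hb⟩ := hκ i hi
    have : s j ≤ n := (single_le_sum (fun _ _ => Nat.zero_le _) (mem_univ j)).trans hs
    exact (inBlock_lt (hb j) this).trans hP
  set I' := I.filter (fun i => ∀ j ∈ (univ : Finset (Fin d)), κ i j ≠ 0) with hI'
  have h1 := h n L hL J I' κ c (by
    intro i hi
    rw [hI', mem_filter] at hi
    exact ⟨fun j => hi.2 j (mem_univ j), hκ i hi.1⟩)
  have e2 : ∀ x : Fin d → ZMod (2 ^ L), ∑ i ∈ I, c i * (∏ j, HC.wd r (κ i j)) * exd (κ i) x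
      = ∑ i ∈ I', c i * (∏ j, HC.wd r (κ i j)) * exd (κ i) x := by
    intro x
    symm
    apply sum_subset
    · intro i hi
      rw [hI', mem_filter] at hi
      exact hi.1
    · intro i hi hi'
      rw [hI', mem_filter] at hi'
      push Not at hi'
      obtain ⟨j, -, hj⟩ := hi' hi
      rw [prod_eq_zero (mem_univ j) (by rw [hj, wd_zero hr]), mul_zero, zero_mul]
  simp only [e2]
  refine h1.trans ?_
  have h2 := rem_zeroD (L := L) I κ c hk univ
  rw [← hI', card_univ, Fintype.card_fin] at h2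
  calc C * ((2:ℝ) ^ r) ^ n * ∑ x : Fin d → ZMod (2 ^ L), ‖∑ i ∈ I', c i * exd (κ i) x‖
      ≤ C * ((2:ℝ) ^ r) ^ n * (2 ^ d * ∑ x : Fin d → ZMod (2 ^ L), ‖∑ i ∈ I, c i * exd (κ i) x‖) :=
        mul_le_mul_of_nonneg_left h2 (by positivity)
    _ = _ := by ring

end HD

end

section
/-!
Transfer to the torus, every dimension.
-/

open MeasureTheory Finset

namespace HD

open HC

variable {d : ℕ}

/-- the transferred inequality -/
theorem torusD (hd : 0 < d) {r : ℝ} (hr : 0 < r) : ∃ C : ℝ, 0 ≤ C ∧ ∀ n : ℕ,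
    ∀ (S : Finset (Fin d → ℤ)) (c : (Fin d → ℤ) → ℂ), (∀ k ∈ S, HC.cross n k) →
      ∫ t, ‖∑ k ∈ S, c k * (∏ j, HC.wd r (k j)) * et k t‖
        ≤ C * ((2:ℝ) ^ r) ^ n * ∫ t, ‖∑ k ∈ S, c k * et k t‖ := by
  obtain ⟨C, hC, K, h⟩ := discD_all hd hr
  refine ⟨C, hC, ?_⟩
  intro n S c hS
  set L := n + K + 4 with hL
  set F : (Fin d → AddCircle (2 * Real.pi)) → ℝ :=
    fun t => ‖∑ k ∈ S, c k * (∏ j, HC.wd r (k j)) * et k t‖ with hF
  set f : (Fin d → AddCircle (2 * Real.pi)) → ℝ := fun t => ‖∑ k ∈ S, c k * et k t‖ with hf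
  have cF : Continuous F := (continuous_finsetSum _ fun k _ =>
    continuous_const.mul (et_cont k)).norm
  have cf : Continuous f := (continuous_finsetSum _ fun k _ =>
    continuous_const.mul (et_cont k)).norm
  have e1 := int_shift F cF (gs (d := d) (L := L))
  have e2 := int_shift f cf (gs (d := d) (L := L))
  have key : ∀ t, ∑ a : Fin d → ZMod (2 ^ L), F (t + gs a)
      ≤ (C * ((2:ℝ) ^ r) ^ n) * ∑ a : Fin d → ZMod (2 ^ L), f (t + gs a) := by
    intro t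
    have h1 := h n L le_rfl (Fin d → ℤ) S (fun k => k) (fun k => c k * et k t) hS
    have a1 : ∀ a : Fin d → ZMod (2 ^ L), F (t + gs a)
        = ‖∑ k ∈ S, c k * et k t * (∏ j, HC.wd r (k j)) * exd k a‖ := by
      intro a
      simp only [hF]
      congr 1
      refine sum_congr rfl fun k _ => ?_
      rw [et_shift]; ring
    have a2 : ∀ a : Fin d → ZMod (2 ^ L), f (t + gs a)
        = ‖∑ k ∈ S, c k * et k t * exd k a‖ := by
      intro a
      simp only [hf]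
      congr 1
      refine sum_congr rfl fun k _ => ?_
      rw [et_shift]; ring
    simp only [a1, a2]
    exact h1
  have hI : ∀ Φ : (Fin d → AddCircle (2 * Real.pi)) → ℝ, Continuous Φ →
      Integrable (fun t => ∑ a : Fin d → ZMod (2 ^ L), Φ (t + gs a)) := by
    intro Φ hΦ
    refine (continuous_finsetSum _ fun a _ => ?_).integrable_of_hasCompactSupport
      (HasCompactSupport.of_compactSpace _)
    exact hΦ.comp (continuous_add_const _)
  have h2 := integral_mono (hI F cF) ((hI f cf).const_mul _) key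
  rw [integral_const_mul, ← e1, ← e2] at h2
  have hc : (0:ℝ) < Fintype.card (Fin d → ZMod (2 ^ L)) := by
    have := Fintype.card_pos (α := Fin d → ZMod (2 ^ L))
    exact_mod_cast this
  refine le_of_mul_le_mul_left (h2.trans (le_of_eq ?_)) hc
  ring

end HD

end
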